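import Mathlib

/-!
Basic definitions: neighbour sums, one side of a dumbbell, numerical profiles of kites and
double kites.
-/

set_option autoImplicit false

namespace Pool.Agent.Lib.MP_5ca2c7_co

open Finset Classical

/-- Sum of `f` over the neighbours of `v`. -/
noncomputable def nb {W : Type} [Fintype W] (K : SimpleGraph W) (f : W → ℝ) (v : W) : ℝ :=
  ∑ w, if K.Adj v w then f w else 0

/-- One side of a dumbbell: a connected rooted graph with a positive solution `x` of the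
eigenvalue equation at `lam` and a nonnegative solution `y` at `nu`, the root having one
extra outside neighbour where the values are `xo` and `yo`. -/
structure Side {W : Type} [Fintype W] (K : SimpleGraph W) (u : W) (lam nu : ℝ)
    (x y : W → ℝ) (xo yo : ℝ) : Prop where
  conn : K.Connected
  xpos : ∀ v, 0 < x v
  xopos : 0 < xo
  ynn : ∀ v, 0 ≤ y v
  ypos : ∀ v, v ≠ u → 0 < y v
  yne : ∃ v, 0 < y v
  yonp : yo ≤ 0
  ysum : 0 < y u - yo
  xeq : ∀ v, nb K x v + (if v = u then xo else 0) = lam * x v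
  yeq : ∀ v, nb K y v + (if v = u then yo else 0) = nu * y v

/-- Supersolution profile on the double kite `DK(r,s)`. -/
structure SupP (r s : ℕ) (lb : ℝ) (X : ℕ → ℝ) (X1 X2 : ℝ) : Prop where
  pos : ∀ k, k ≤ s + 1 → 0 < X k
  pos1 : 0 < X1
  pos2 : 0 < X2
  cl1 : 2 ≤ r → ((r : ℝ) - 2) * X1 + X 0 ≤ lb * X1
  cl2 : 2 ≤ r → ((r : ℝ) - 2) * X2 + X (s + 1) ≤ lb * X2
  rt1 : ((r : ℝ) - 1) * X1 + X 1 ≤ lb * X 0
  rt2 : ((r : ℝ) - 1) * X2 + X s ≤ lb * X (s + 1)
  path : ∀ k, k < s → X k + X (k + 2) ≤ lb * X (k + 1)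

/-- Sign changing subsolution profile on the double kite `DK(r,s)`. -/
structure SubP (r s : ℕ) (mb : ℝ) (Y : ℕ → ℝ) (Y1 Y2 : ℝ) : Prop where
  cl1 : 2 ≤ r → mb * Y1 ^ 2 ≤ Y1 * (((r : ℝ) - 2) * Y1 + Y 0)
  cl2 : 2 ≤ r → mb * Y2 ^ 2 ≤ Y2 * (((r : ℝ) - 2) * Y2 + Y (s + 1))
  rt1 : mb * Y 0 ^ 2 ≤ Y 0 * (((r : ℝ) - 1) * Y1 + Y 1)
  rt2 : mb * Y (s + 1) ^ 2 ≤ Y (s + 1) * (((r : ℝ) - 1) * Y2 + Y s)
  path : ∀ k, k < s → mb * Y (k + 1) ^ 2 ≤ Y (k + 1) * (Y k + Y (k + 2))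
  sgn1 : 0 < Y 0 ∨ (2 ≤ r ∧ 0 < Y1)
  sgn2 : Y (s + 1) < 0 ∨ (2 ≤ r ∧ Y2 < 0)

/-- A certificate that the spectral gap of `DK(r,s)` is at most `t`. -/
def Prof (r s : ℕ) (t : ℝ) : Prop :=
  ∃ (lb mb : ℝ) (X Y : ℕ → ℝ) (X1 X2 Y1 Y2 : ℝ),
    lb - mb ≤ t ∧ SupP r s lb X X1 X2 ∧ SubP r s mb Y Y1 Y2

lemma Prof.mono {r s : ℕ} {t t' : ℝ} (h : Prof r s t) (htt : t ≤ t') : Prof r s t' := by
  obtain ⟨lb, mb, X, Y, X1, X2, Y1, Y2, h1, h2, h3⟩ := h
  exact ⟨lb, mb, X, Y, X1, X2, Y1, Y2, h1.trans htt, h2, h3⟩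

/-- Numerical profile of a kite side: clique on `k` vertices, pendant path with `d` edges;
index `0` is the outside vertex, index `1` the root, index `d+1` the clique vertex. -/
structure Half (d k : ℕ) (lam mu : ℝ) (X Y : ℕ → ℝ) (Xc Yc : ℝ) : Prop where
  xpos : ∀ j, j ≤ d + 1 → 0 < X j
  xc : 0 < Xc
  xrec : ∀ j, j < d → X j + X (j + 2) ≤ lam * X (j + 1)
  xrt : ((k : ℝ) - 1) * Xc + X d ≤ lam * X (d + 1)
  xcl : 2 ≤ k → ((k : ℝ) - 2) * Xc + X (d + 1) ≤ lam * Xc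
  ynn : ∀ j, 1 ≤ j → j ≤ d + 1 → 0 ≤ Y j
  y0 : Y 0 ≤ 0
  yc : 0 ≤ Yc
  yrec : ∀ j, j < d → mu * Y (j + 1) ≤ Y j + Y (j + 2)
  yrt : mu * Y (d + 1) ≤ ((k : ℝ) - 1) * Yc + Y d
  ycl : 2 ≤ k → mu * Yc ≤ ((k : ℝ) - 2) * Yc + Y (d + 1)
  ysgn : 0 < Y (d + 1) ∨ (2 ≤ k ∧ 0 < Yc)

/-- The side with root values `xu, yu` and outside values `xo, yo` is a kite. -/
def IsKite (d k : ℕ) (lam mu xu yu xo yo : ℝ) : Prop :=
  ∃ (X Y : ℕ → ℝ) (Xc Yc : ℝ), Half d k lam mu X Y Xc Yc ∧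
    X 0 = xo ∧ X 1 = xu ∧ Y 0 = yo ∧ Y 1 = yu

section nb

variable {W : Type} [Fintype W] (K : SimpleGraph W)

lemma nb_nonneg {f : W → ℝ} (hf : ∀ v, 0 ≤ f v) (v : W) : 0 ≤ nb K f v :=
  Finset.sum_nonneg fun w _ => by split_ifs; exacts [hf w, le_rfl]

lemma nb_add (f g : W → ℝ) (v : W) : nb K (fun w => f w + g w) v = nb K f v + nb K g v := by
  unfold nb
  rw [← Finset.sum_add_distrib]
  refine Finset.sum_congr rfl fun w _ => ?_
  split_ifs <;> simp

lemma nb_smul (a : ℝ) (f : W → ℝ) (v : W) : nb K (fun w => a * f w) v = a * nb K f v := by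
  unfold nb
  rw [Finset.mul_sum]
  refine Finset.sum_congr rfl fun w _ => ?_
  split_ifs <;> simp

lemma nb_symm (f g : W → ℝ) : ∑ v, f v * nb K g v = ∑ v, g v * nb K f v := by
  unfold nb
  simp_rw [Finset.mul_sum]
  rw [Finset.sum_comm]
  refine Finset.sum_congr rfl fun v _ => Finset.sum_congr rfl fun w _ => ?_
  by_cases h : K.Adj v w
  · rw [if_pos h, if_pos h.symm]; ring
  · rw [if_neg h, if_neg (fun h' => h h'.symm)]; ring

lemma le_nb {f : W → ℝ} (hf : ∀ v, 0 ≤ f v) {v w : W} (h : K.Adj v w) : f w ≤ nb K f v := by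
  unfold nb
  have := Finset.single_le_sum (f := fun w => if K.Adj v w then f w else 0)
    (s := Finset.univ) (fun w _ => by split_ifs; exacts [hf w, le_rfl]) (Finset.mem_univ w)
  simpa [h] using this

end nb

/-- The flux identity. -/
lemma Side.flux {W : Type} [Fintype W] {K : SimpleGraph W} {u : W} {lam nu : ℝ}
    {x y : W → ℝ} {xo yo : ℝ} (h : Side K u lam nu x y xo yo) :
    (lam - nu) * ∑ v, x v * y v = xo * y u - x u * yo := by
  have h1 : ∑ v, y v * nb K x v + y u * xo = lam * ∑ v, x v * y v := by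
    have : ∀ v, y v * nb K x v + (if v = u then y v * xo else 0) = lam * (x v * y v) := fun v => by
      have := h.xeq v
      split_ifs at this ⊢ <;> linear_combination (y v) * this
    rw [Finset.mul_sum, ← Finset.sum_congr rfl (fun v _ => this v), Finset.sum_add_distrib]
    simp
  have h2 : ∑ v, x v * nb K y v + x u * yo = nu * ∑ v, x v * y v := by
    have : ∀ v, x v * nb K y v + (if v = u then x v * yo else 0) = nu * (x v * y v) := fun v => by
      have := h.yeq v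
      split_ifs at this ⊢ <;> linear_combination (x v) * this
    rw [Finset.mul_sum, ← Finset.sum_congr rfl (fun v _ => this v), Finset.sum_add_distrib]
    simp
  have h3 := nb_symm K x y
  linarith

lemma Side.wpos {W : Type} [Fintype W] {K : SimpleGraph W} {u : W} {lam nu : ℝ}
    {x y : W → ℝ} {xo yo : ℝ} (h : Side K u lam nu x y xo yo) : 0 < ∑ v, x v * y v := by
  obtain ⟨v, hv⟩ := h.yne
  exact Finset.sum_pos' (fun w _ => mul_nonneg (h.xpos w).le (h.ynn w))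
    ⟨v, Finset.mem_univ _, mul_pos (h.xpos v) hv⟩

lemma Side.flux_pos {W : Type} [Fintype W] {K : SimpleGraph W} {u : W} {lam nu : ℝ}
    {x y : W → ℝ} {xo yo : ℝ} (h : Side K u lam nu x y xo yo) : 0 < xo * y u - x u * yo := by
  have h1 := h.xopos
  have h2 := h.xpos u
  have h3 := h.ynn u
  have h4 := h.yonp
  have h5 := h.ysum
  rcases h3.eq_or_lt with h6 | h6
  · have : 0 < -yo := by linarith
    have := mul_pos h2 this
    rw [← h6]; linarith
  · have := mul_pos h1 h6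
    have := mul_nonneg h2.le (neg_nonneg.mpr h4)
    linarith

lemma Side.nu_lt {W : Type} [Fintype W] {K : SimpleGraph W} {u : W} {lam nu : ℝ}
    {x y : W → ℝ} {xo yo : ℝ} (h : Side K u lam nu x y xo yo) : nu < lam := by
  have h1 := h.flux
  have h2 := h.wpos
  have h3 := h.flux_pos
  by_contra hc
  push Not at hc
  nlinarith

/-- The size of a side exceeds `nu + 1`. -/
lemma Side.nu_le_card {W : Type} [Fintype W] {K : SimpleGraph W} {u : W} {lam nu : ℝ}
    {x y : W → ℝ} {xo yo : ℝ} (h : Side K u lam nu x y xo yo) :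
    nu + 1 ≤ (Fintype.card W : ℝ) := by
  obtain ⟨v0, hv0⟩ := h.yne
  obtain ⟨t, -, ht⟩ := Finset.exists_max_image Finset.univ y ⟨v0, Finset.mem_univ _⟩
  have hyt : 0 < y t := hv0.trans_le (ht v0 (Finset.mem_univ _))
  have h1 : nb K y t + y t ≤ (Fintype.card W : ℝ) * y t := by
    have e : nb K y t + y t
        = ∑ w, ((if K.Adj t w then y w else 0) + (if w = t then y t else 0)) := by
      rw [Finset.sum_add_distrib]; simp [nb]
    rw [e, ← Finset.card_univ, ← nsmul_eq_mul, ← Finset.sum_const]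
    refine Finset.sum_le_sum fun w _ => ?_
    by_cases hw : w = t
    · subst hw; simp
    · have := ht w (Finset.mem_univ _)
      rw [if_neg hw]
      split_ifs
      · linarith
      · linarith
  have h2 := h.yeq t
  have h3 : (if t = u then yo else 0) ≤ 0 := by split_ifs; exacts [h.yonp, le_rfl]
  have h4 : (nu + 1) * y t ≤ (Fintype.card W : ℝ) * y t := by linarith
  exact le_of_mul_le_mul_right h4 hyt

end Pool.Agent.Lib.MP_5ca2c7_co
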