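import Mathlib

/-!
Spectral preliminaries for real symmetric matrices: Rayleigh bounds for the top two
eigenvalues, super- and subsolution criteria, and a Perron vector.
-/

set_option autoImplicit false

namespace Pool.Agent.Lib.MP_5ca2c7_co

open Finset Matrix

section Spec

variable {I : Type} [Fintype I] [DecidableEq I] {A : Matrix I I ℝ}

omit [Fintype I] [DecidableEq I] in
lemma herm_symm (hA : A.IsHermitian) (i j : I) : A i j = A j i := by
  have := hA.apply j i
  simpa using this

lemma eig_expand (hA : A.IsHermitian) (f : I → ℝ) :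
    f = ∑ k, (∑ i, hA.eigenvectorBasis k i * f i) • (hA.eigenvectorBasis k : I → ℝ) := by
  have h := hA.eigenvectorBasis.sum_repr' (WithLp.toLp 2 f)
  have h2 := congrArg (fun z : EuclideanSpace ℝ I => (z : I → ℝ)) h
  simp only [WithLp.ofLp_sum, WithLp.ofLp_smul] at h2
  refine h2.symm.trans ?_
  refine Finset.sum_congr rfl (fun k _ => ?_)
  congr 1
  simp [EuclideanSpace.inner_eq_star_dotProduct, dotProduct, mul_comm]

lemma eig_norm (hA : A.IsHermitian) (f : I → ℝ) :
    ∑ i, f i * f i = ∑ k, (∑ i, hA.eigenvectorBasis k i * f i) ^ 2 := by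
  have h := eig_expand hA f
  calc ∑ i, f i * f i
      = ∑ i, f i * (∑ k, (∑ i, hA.eigenvectorBasis k i * f i) * hA.eigenvectorBasis k i) := by
        refine Finset.sum_congr rfl (fun i _ => ?_)
        congr 1
        have := congrFun h i
        simpa [Finset.sum_apply] using this
    _ = ∑ k, (∑ i, hA.eigenvectorBasis k i * f i) ^ 2 := by
        simp_rw [Finset.mul_sum]
        rw [Finset.sum_comm]
        refine Finset.sum_congr rfl (fun k _ => ?_)
        rw [sq, Finset.mul_sum]
        refine Finset.sum_congr rfl (fun i _ => ?_)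
        ring

lemma eig_vec (hA : A.IsHermitian) (k i : I) :
    ∑ j, A i j * hA.eigenvectorBasis k j = hA.eigenvalues k * hA.eigenvectorBasis k i := by
  have := congrFun (hA.mulVec_eigenvectorBasis k) i
  simpa [Matrix.mulVec, dotProduct] using this

lemma eig_form (hA : A.IsHermitian) (f : I → ℝ) :
    ∑ i, f i * ∑ j, A i j * f j
      = ∑ k, hA.eigenvalues k * (∑ i, hA.eigenvectorBasis k i * f i) ^ 2 := by
  have h := eig_expand hA f
  have h1 : ∀ i, ∑ j, A i j * f j
      = ∑ k, (∑ i, hA.eigenvectorBasis k i * f i) * (hA.eigenvalues k * hA.eigenvectorBasis k i) := by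
    intro i
    calc ∑ j, A i j * f j
        = ∑ j, A i j * (∑ k, (∑ i, hA.eigenvectorBasis k i * f i) * hA.eigenvectorBasis k j) := by
          refine Finset.sum_congr rfl (fun j _ => ?_)
          congr 1
          have := congrFun h j
          simpa [Finset.sum_apply] using this
      _ = _ := by
          simp_rw [Finset.mul_sum]
          rw [Finset.sum_comm]
          refine Finset.sum_congr rfl (fun k _ => ?_)
          rw [← eig_vec hA k i, Finset.mul_sum]
          refine Finset.sum_congr rfl (fun j _ => ?_)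
          ring
  simp_rw [h1, Finset.mul_sum]
  rw [Finset.sum_comm]
  refine Finset.sum_congr rfl (fun k _ => ?_)
  rw [sq, Finset.mul_sum, Finset.mul_sum]
  refine Finset.sum_congr rfl (fun i _ => ?_)
  ring

lemma eig_orth (hA : A.IsHermitian) (k l : I) :
    ∑ i, hA.eigenvectorBasis k i * hA.eigenvectorBasis l i = if k = l then 1 else 0 := by
  have h := orthonormal_iff_ite.mp hA.eigenvectorBasis.orthonormal k l
  rw [← h]
  simp [EuclideanSpace.inner_eq_star_dotProduct, dotProduct, mul_comm]

/-- Rayleigh bound for the top eigenvalue. -/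
lemma form_le (hA : A.IsHermitian) {a : ℝ} (ha : ∀ k, hA.eigenvalues k ≤ a) (f : I → ℝ) :
    ∑ i, f i * ∑ j, A i j * f j ≤ a * ∑ i, f i * f i := by
  rw [eig_form hA, eig_norm hA, Finset.mul_sum]
  exact Finset.sum_le_sum fun k _ => mul_le_mul_of_nonneg_right (ha k) (sq_nonneg _)

/-- Rayleigh bound for the second eigenvalue. -/
lemma form_le_second (hA : A.IsHermitian) {b : ℝ} (i0 : I)
    (hb : ∀ k, k ≠ i0 → hA.eigenvalues k ≤ b) (f : I → ℝ)
    (hf : ∑ i, hA.eigenvectorBasis i0 i * f i = 0) :
    ∑ i, f i * ∑ j, A i j * f j ≤ b * ∑ i, f i * f i := by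
  rw [eig_form hA, eig_norm hA, Finset.mul_sum]
  refine Finset.sum_le_sum fun k _ => ?_
  by_cases hk : k = i0
  · subst hk
    rw [hf]; simp
  · exact mul_le_mul_of_nonneg_right (hb k hk) (sq_nonneg _)

lemma eig_ne_zero (hA : A.IsHermitian) (k : I) : ∃ i, hA.eigenvectorBasis k i ≠ 0 := by
  by_contra h
  push Not at h
  have := eig_orth hA k k
  simp [h] at this

/-- A positive supersolution bounds every eigenvalue of a nonnegative matrix. -/
lemma eig_le_of_super (hA : A.IsHermitian) (hnn : ∀ i j, 0 ≤ A i j) {t : ℝ} (X : I → ℝ)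
    (hX : ∀ i, 0 < X i) (hs : ∀ i, ∑ j, A i j * X j ≤ t * X i) (k : I) :
    hA.eigenvalues k ≤ t := by
  obtain ⟨i1, hi1⟩ := eig_ne_zero hA k
  obtain ⟨i0, -, hi0⟩ := Finset.exists_max_image Finset.univ
    (fun i => |hA.eigenvectorBasis k i| / X i) ⟨i1, Finset.mem_univ _⟩
  set M := |hA.eigenvectorBasis k i0| / X i0 with hM
  have hle : ∀ j, |hA.eigenvectorBasis k j| ≤ M * X j := fun j => by
    have := hi0 j (Finset.mem_univ _)
    rwa [div_le_iff₀ (hX j)] at this
  have hMpos : 0 < M := by
    have h1 := hle i1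
    have h2 : 0 < |hA.eigenvectorBasis k i1| := abs_pos.mpr hi1
    have h3 := hX i1
    by_contra hneg
    push Not at hneg
    nlinarith
  have hv0 : |hA.eigenvectorBasis k i0| = M * X i0 := by
    rw [hM, div_mul_cancel₀ _ (hX i0).ne']
  have h1 : |hA.eigenvalues k| * (M * X i0) ≤ M * (t * X i0) := by
    rw [← hv0, ← abs_mul, ← eig_vec hA k i0]
    calc |∑ j, A i0 j * hA.eigenvectorBasis k j|
        ≤ ∑ j, |A i0 j * hA.eigenvectorBasis k j| := Finset.abs_sum_le_sum_abs _ _
      _ ≤ ∑ j, M * (A i0 j * X j) := by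
          refine Finset.sum_le_sum fun j _ => ?_
          rw [abs_mul, abs_of_nonneg (hnn i0 j)]
          have := mul_le_mul_of_nonneg_left (hle j) (hnn i0 j)
          linarith
      _ = M * ∑ j, A i0 j * X j := by rw [Finset.mul_sum]
      _ ≤ M * (t * X i0) := mul_le_mul_of_nonneg_left (hs i0) hMpos.le
  have h2 : 0 < M * X i0 := mul_pos hMpos (hX i0)
  have h3 : |hA.eigenvalues k| ≤ t := by
    have : |hA.eigenvalues k| * (M * X i0) ≤ t * (M * X i0) := by linarith
    exact le_of_mul_le_mul_right this h2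
  exact (le_abs_self _).trans h3

/-- A sign changing subsolution bounds the second eigenvalue from below. -/
lemma second_ge_of_sub (hA : A.IsHermitian) (hnn : ∀ i j, 0 ≤ A i j) {b t : ℝ} (i0 : I)
    (hb : ∀ k, k ≠ i0 → hA.eigenvalues k ≤ b) (Y : I → ℝ)
    (hs : ∀ i, t * Y i ^ 2 ≤ Y i * ∑ j, A i j * Y j)
    (hp : ∃ i, 0 < Y i) (hn : ∃ i, Y i < 0) : t ≤ b := by
  set P : I → ℝ := fun i => max (Y i) 0 with hP
  set N : I → ℝ := fun i => max (-Y i) 0 with hN
  have hPN : ∀ i, Y i = P i - N i := fun i => by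
    simp only [hP, hN]; rcases le_total (Y i) 0 with h | h
    · rw [max_eq_right h, max_eq_left (by linarith)]; ring
    · rw [max_eq_left h, max_eq_right (by linarith)]; ring
  have hP0 : ∀ i, 0 ≤ P i := fun i => le_max_right _ _
  have hN0 : ∀ i, 0 ≤ N i := fun i => le_max_right _ _
  have hPN0 : ∀ i, P i * N i = 0 := fun i => by
    simp only [hP, hN]; rcases le_total (Y i) 0 with h | h
    · rw [max_eq_right h]; ring
    · rw [max_eq_right (show -Y i ≤ 0 by linarith)]; ring
  have hPs : ∀ i, t * (P i * P i) ≤ P i * ∑ j, A i j * Y j := fun i => by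
    simp only [hP]; rcases le_total (Y i) 0 with h | h
    · rw [max_eq_right h]; simp
    · rw [max_eq_left h]; have := hs i; nlinarith
  have hNs : ∀ i, t * (N i * N i) ≤ -(N i * ∑ j, A i j * Y j) := fun i => by
    simp only [hN]; rcases le_total (Y i) 0 with h | h
    · rw [max_eq_left (show 0 ≤ -Y i by linarith)]; have := hs i; nlinarith
    · rw [max_eq_right (show -Y i ≤ 0 by linarith)]; simp
  set PP := ∑ i, P i * ∑ j, A i j * P j with hPP
  set NN := ∑ i, N i * ∑ j, A i j * N j with hNN
  set kk := ∑ i, P i * ∑ j, A i j * N j with hkk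
  have hkk' : ∑ i, N i * ∑ j, A i j * P j = kk := by
    rw [hkk]
    simp_rw [Finset.mul_sum]
    rw [Finset.sum_comm]
    refine Finset.sum_congr rfl fun i _ => Finset.sum_congr rfl fun j _ => ?_
    rw [herm_symm hA j i]; ring
  have hkk0 : 0 ≤ kk := Finset.sum_nonneg fun i _ => mul_nonneg (hP0 i)
    (Finset.sum_nonneg fun j _ => mul_nonneg (hnn i j) (hN0 j))
  have hAY : ∀ i, ∑ j, A i j * Y j = ∑ j, A i j * P j - ∑ j, A i j * N j := fun i => by
    rw [← Finset.sum_sub_distrib]
    refine Finset.sum_congr rfl fun j _ => ?_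
    rw [hPN j]; ring
  have h1 : t * ∑ i, P i * P i + kk ≤ PP := by
    have : t * ∑ i, P i * P i ≤ ∑ i, P i * ∑ j, A i j * Y j := by
      rw [Finset.mul_sum]; exact Finset.sum_le_sum fun i _ => hPs i
    simp_rw [hAY, mul_sub, Finset.sum_sub_distrib] at this
    linarith
  have h2 : t * ∑ i, N i * N i + kk ≤ NN := by
    have : t * ∑ i, N i * N i ≤ ∑ i, -(N i * ∑ j, A i j * Y j) := by
      rw [Finset.mul_sum]; exact Finset.sum_le_sum fun i _ => hNs i
    simp_rw [hAY, mul_sub, neg_sub, Finset.sum_sub_distrib] at this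
    linarith
  have hPpos : 0 < ∑ i, P i * P i := by
    obtain ⟨i, hi⟩ := hp
    refine Finset.sum_pos' (fun j _ => mul_self_nonneg _) ⟨i, Finset.mem_univ _, ?_⟩
    have : P i = Y i := max_eq_left hi.le
    rw [this]; positivity
  have hNpos : 0 < ∑ i, N i * N i := by
    obtain ⟨i, hi⟩ := hn
    refine Finset.sum_pos' (fun j _ => mul_self_nonneg _) ⟨i, Finset.mem_univ _, ?_⟩
    have : N i = -Y i := max_eq_left (by linarith)
    rw [this]; exact mul_pos (by linarith) (by linarith)
  -- choose coefficients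
  obtain ⟨al, be, hab, horth⟩ : ∃ al be : ℝ, (al ≠ 0 ∨ be ≠ 0) ∧
      al * (∑ i, hA.eigenvectorBasis i0 i * P i) + be * (∑ i, hA.eigenvectorBasis i0 i * N i) = 0 := by
    by_cases h : (∑ i, hA.eigenvectorBasis i0 i * P i) = 0
    · exact ⟨1, 0, Or.inl one_ne_zero, by rw [h]; ring⟩
    · exact ⟨∑ i, hA.eigenvectorBasis i0 i * N i, -(∑ i, hA.eigenvectorBasis i0 i * P i),
        Or.inr (neg_ne_zero.mpr h), by ring⟩
  have hf := form_le_second hA i0 hb (fun i => al * P i + be * N i) (by
    rw [← horth, Finset.mul_sum, Finset.mul_sum, ← Finset.sum_add_distrib]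
    refine Finset.sum_congr rfl fun i _ => ?_
    ring)
  have e1 : ∑ i, (al * P i + be * N i) * (al * P i + be * N i)
      = al ^ 2 * ∑ i, P i * P i + be ^ 2 * ∑ i, N i * N i := by
    rw [Finset.mul_sum, Finset.mul_sum, ← Finset.sum_add_distrib]
    refine Finset.sum_congr rfl fun i _ => ?_
    have := hPN0 i
    linear_combination (2 * al * be) * this
  have e2 : ∑ i, (al * P i + be * N i) * ∑ j, A i j * (al * P j + be * N j)
      = al ^ 2 * PP + be ^ 2 * NN + 2 * al * be * kk := by
    have : ∀ i, ∑ j, A i j * (al * P j + be * N j)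
        = al * ∑ j, A i j * P j + be * ∑ j, A i j * N j := fun i => by
      rw [Finset.mul_sum, Finset.mul_sum, ← Finset.sum_add_distrib]
      refine Finset.sum_congr rfl fun j _ => ?_
      ring
    simp_rw [this]
    have e3 : al ^ 2 * PP + be ^ 2 * NN + 2 * al * be * kk
        = al ^ 2 * PP + be ^ 2 * NN + al * be * kk
          + al * be * ∑ i, N i * ∑ j, A i j * P j := by rw [hkk']; ring
    rw [e3, hPP, hNN, hkk, Finset.mul_sum, Finset.mul_sum, Finset.mul_sum, Finset.mul_sum,
      ← Finset.sum_add_distrib, ← Finset.sum_add_distrib, ← Finset.sum_add_distrib]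
    refine Finset.sum_congr rfl fun i _ => ?_
    ring
  rw [e1, e2] at hf
  have hpos : 0 < al ^ 2 * ∑ i, P i * P i + be ^ 2 * ∑ i, N i * N i := by
    rcases hab with h | h
    · have : 0 < al ^ 2 := by positivity
      have := mul_pos this hPpos
      have := mul_nonneg (sq_nonneg be) hNpos.le
      linarith
    · have : 0 < be ^ 2 := by positivity
      have := mul_pos this hNpos
      have := mul_nonneg (sq_nonneg al) hPpos.le
      linarith
  have h3 : t * (al ^ 2 * ∑ i, P i * P i + be ^ 2 * ∑ i, N i * N i)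
      ≤ b * (al ^ 2 * ∑ i, P i * P i + be ^ 2 * ∑ i, N i * N i) := by
    have h4 := mul_le_mul_of_nonneg_left h1 (sq_nonneg al)
    have h5 := mul_le_mul_of_nonneg_left h2 (sq_nonneg be)
    have h6 := mul_nonneg (sq_nonneg (al + be)) hkk0
    nlinarith
  exact le_of_mul_le_mul_right h3 hpos

/-- Perron vector of a symmetric matrix with nonnegative off-diagonal entries. -/
lemma exists_perron [Nonempty I] (hA : A.IsHermitian) (hnn : ∀ i j, i ≠ j → 0 ≤ A i j) :
    ∃ (th : ℝ) (f : I → ℝ), (∀ i, 0 ≤ f i) ∧ (∃ i, 0 < f i) ∧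
      (∀ i, ∑ j, A i j * f j = th * f i) ∧
      ∀ g : I → ℝ, ∑ i, g i * ∑ j, A i j * g j ≤ th * ∑ i, g i * g i := by
  obtain ⟨k, -, hk⟩ := Finset.exists_max_image Finset.univ hA.eigenvalues Finset.univ_nonempty
  have hk' : ∀ l, hA.eigenvalues l ≤ hA.eigenvalues k := fun l => hk l (Finset.mem_univ _)
  set th := hA.eigenvalues k with hth
  set v : I → ℝ := fun i => hA.eigenvectorBasis k i with hv
  have hform := form_le hA hk'
  refine ⟨th, fun i => |v i|, fun i => abs_nonneg _, ?_, ?_, hform⟩
  · obtain ⟨i, hi⟩ := eig_ne_zero hA k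
    exact ⟨i, abs_pos.mpr hi⟩
  · have h1 : th * ∑ i, |v i| * |v i| ≤ ∑ i, |v i| * ∑ j, A i j * |v j| := by
      have e1 : th * ∑ i, |v i| * |v i| = ∑ i, v i * ∑ j, A i j * v j := by
        rw [Finset.mul_sum]
        refine Finset.sum_congr rfl fun i _ => ?_
        simp only [hv]
        rw [eig_vec hA k i, abs_mul_abs_self]; ring
      rw [e1]
      simp_rw [Finset.mul_sum]
      refine Finset.sum_le_sum fun i _ => Finset.sum_le_sum fun j _ => ?_
      by_cases hij : i = j
      · subst hij
        have : v i * (A i i * v i) = A i i * (v i * v i) := by ring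
        rw [this, ← abs_mul_abs_self (v i)]
        linarith
      · have h2 : v i * v j ≤ |v i| * |v j| := by rw [← abs_mul]; exact le_abs_self _
        have := mul_le_mul_of_nonneg_left h2 (hnn i j hij)
        linarith
    -- equality in the Rayleigh bound
    have h2 : ∑ l, (th - hA.eigenvalues l) * (∑ i, hA.eigenvectorBasis l i * |v i|) ^ 2 = 0 := by
      apply le_antisymm
      · rw [eig_form hA, eig_norm hA, Finset.mul_sum] at h1
        simp_rw [sub_mul, Finset.sum_sub_distrib]
        linarith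
      · exact Finset.sum_nonneg fun l _ => mul_nonneg (sub_nonneg.mpr (hk' l)) (sq_nonneg _)
    rw [Finset.sum_eq_zero_iff_of_nonneg
      (fun l _ => mul_nonneg (sub_nonneg.mpr (hk' l)) (sq_nonneg _))] at h2
    intro i
    have h := eig_expand hA (fun i => |v i|)
    have h3 : ∀ j, |v j| = ∑ l, (∑ i, hA.eigenvectorBasis l i * |v i|) * hA.eigenvectorBasis l j :=
      fun j => by
        have := congrFun h j
        simpa [Finset.sum_apply] using this
    calc ∑ j, A i j * |v j|
        = ∑ j, A i j * ∑ l, (∑ i, hA.eigenvectorBasis l i * |v i|) * hA.eigenvectorBasis l j := by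
          refine Finset.sum_congr rfl fun j _ => ?_
          rw [← h3 j]
      _ = ∑ l, (∑ i, hA.eigenvectorBasis l i * |v i|) * (hA.eigenvalues l * hA.eigenvectorBasis l i) := by
          simp_rw [Finset.mul_sum]
          rw [Finset.sum_comm]
          refine Finset.sum_congr rfl fun l _ => ?_
          rw [← eig_vec hA l i, Finset.mul_sum]
          refine Finset.sum_congr rfl fun j _ => ?_
          ring
      _ = ∑ l, th * ((∑ i, hA.eigenvectorBasis l i * |v i|) * hA.eigenvectorBasis l i) := by
          refine Finset.sum_congr rfl fun l _ => ?_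
          have h4 := h2 l (Finset.mem_univ _)
          rcases mul_eq_zero.mp h4 with h5 | h5
          · rw [show hA.eigenvalues l = th by linarith]; ring
          · rw [pow_eq_zero_iff (two_ne_zero)] at h5
            rw [h5]; ring
      _ = th * |v i| := by rw [← Finset.mul_sum, ← h3 i]

end Spec

end Pool.Agent.Lib.MP_5ca2c7_co
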