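import Pool.Agent.Lib.MP_5ca2c7_co.Basic
import Pool.Agent.Lib.MP_5ca2c7_co.Spectral

/-!
Double kites: a profile certificate bounds the spectral gap.
-/

set_option autoImplicit false

namespace Pool.Agent.Lib.MP_5ca2c7_co

open Finset Classical

/-- The vector on the double kite given by a profile. -/
def dkF (r s : ℕ) (X : ℕ → ℝ) (X1 X2 : ℝ) (i : ℕ) : ℝ :=
  if i + 1 < r then X1 else if i ≤ r + s then X (i + 1 - r) else X2

/-- The double kite on `Fin n`. -/
def dkG (n r s : ℕ) : SimpleGraph (Fin n) :=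
  SimpleGraph.fromRel (fun i j : Fin n =>
    (i.val < r ∧ j.val < r) ∨ (r + s ≤ i.val ∧ r + s ≤ j.val) ∨ i.val + 1 = j.val)

lemma nb_dk_filter {n r s : ℕ} (F : ℕ → ℝ) (i : Fin n) (T : Finset ℕ)
    (hT : ∀ j, j ∈ T ↔ j < n ∧ i.val ≠ j ∧ ((i.val < r ∧ j < r) ∨ (r + s ≤ i.val ∧ r + s ≤ j) ∨
      i.val + 1 = j ∨ j + 1 = i.val)) :
    nb (dkG n r s) (fun j => F j.val) i = ∑ j ∈ T, F j := by
  have h1 : nb (dkG n r s) (fun j => F j.val) i
      = ∑ j : Fin n, (fun j : ℕ => if j ∈ T then F j else 0) j.val := by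
    unfold nb
    refine Finset.sum_congr rfl fun j _ => ?_
    have : (dkG n r s).Adj i j ↔ j.val ∈ T := by
      rw [hT, dkG, SimpleGraph.fromRel_adj, Ne, Fin.ext_iff]
      have := j.isLt
      omega
    simp only [this]
  rw [h1, Fin.sum_univ_eq_sum_range (fun j : ℕ => if j ∈ T then F j else 0) n,
    Finset.sum_ite_mem]
  congr 1
  ext j
  rw [Finset.mem_inter, Finset.mem_range]
  constructor
  · exact fun h => h.2
  · exact fun h => ⟨((hT j).mp h).1, h⟩

lemma nb_dk {n r s : ℕ} (hr : 1 ≤ r) (hn : 2 * r + s = n) (X : ℕ → ℝ) (X1 X2 : ℝ) (i : Fin n) :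
    (i.val + 1 < r ∧ dkF r s X X1 X2 i.val = X1 ∧
      nb (dkG n r s) (fun j => dkF r s X X1 X2 j.val) i = ((r : ℝ) - 2) * X1 + X 0) ∨
    (dkF r s X X1 X2 i.val = X 0 ∧
      nb (dkG n r s) (fun j => dkF r s X X1 X2 j.val) i = ((r : ℝ) - 1) * X1 + X 1) ∨
    (∃ k, k < s ∧ dkF r s X X1 X2 i.val = X (k + 1) ∧
      nb (dkG n r s) (fun j => dkF r s X X1 X2 j.val) i = X k + X (k + 2)) ∨
    (dkF r s X X1 X2 i.val = X (s + 1) ∧
      nb (dkG n r s) (fun j => dkF r s X X1 X2 j.val) i = ((r : ℝ) - 1) * X2 + X s) ∨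
    (2 ≤ r ∧ dkF r s X X1 X2 i.val = X2 ∧
      nb (dkG n r s) (fun j => dkF r s X X1 X2 j.val) i = ((r : ℝ) - 2) * X2 + X (s + 1)) := by
  have hi := i.isLt
  obtain ⟨q, rfl⟩ : ∃ q, r = q + 1 := ⟨r - 1, by omega⟩
  have hc1 : ∀ j, j < q → dkF (q + 1) s X X1 X2 j = X1 := fun j hj => by
    unfold dkF; rw [if_pos (by omega)]
  have hc2 : ∀ j, q + 1 + s < j → dkF (q + 1) s X X1 X2 j = X2 := fun j hj => by
    unfold dkF; rw [if_neg (by omega), if_neg (by omega)]
  have hc3 : ∀ j k, j = q + k → k ≤ s + 1 → dkF (q + 1) s X X1 X2 j = X k := fun j k hj hk => by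
    unfold dkF; rw [if_neg (by omega), if_pos (by omega)]; congr 1; omega
  by_cases h1 : i.val < q
  · refine Or.inl ⟨by omega, hc1 _ h1, ?_⟩
    rw [nb_dk_filter _ i (insert q ((range q).erase i.val))
      (fun j => by simp only [mem_insert, mem_erase, mem_range]; omega),
      Finset.sum_insert (by simp), hc3 q 0 rfl (by omega),
      Finset.sum_congr rfl (fun j hj => hc1 j (by simp only [mem_erase, mem_range] at hj; omega)),
      Finset.sum_const, Finset.card_erase_of_mem (by simpa using h1), Finset.card_range,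
      nsmul_eq_mul, Nat.cast_sub (by omega)]
    push_cast; ring
  by_cases h2 : i.val = q
  · refine Or.inr (Or.inl ⟨hc3 _ 0 (by omega) (by omega), ?_⟩)
    rw [nb_dk_filter _ i (insert (q + 1) (range q))
      (fun j => by simp only [mem_insert, mem_range]; omega),
      Finset.sum_insert (by simp), hc3 (q + 1) 1 rfl (by omega),
      Finset.sum_congr rfl (fun j hj => hc1 j (by simpa using hj)),
      Finset.sum_const, Finset.card_range, nsmul_eq_mul]
    push_cast; ring
  by_cases h3 : i.val < q + 1 + s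
  · refine Or.inr (Or.inr (Or.inl ⟨i.val - q - 1, by omega, hc3 _ _ (by omega) (by omega), ?_⟩))
    rw [nb_dk_filter _ i {i.val - 1, i.val + 1}
      (fun j => by simp only [mem_insert, mem_singleton]; omega),
      Finset.sum_pair (by omega), hc3 (i.val - 1) (i.val - q - 1) (by omega) (by omega),
      hc3 (i.val + 1) (i.val - q - 1 + 2) (by omega) (by omega)]
  by_cases h4 : i.val = q + 1 + s
  · refine Or.inr (Or.inr (Or.inr (Or.inl ⟨hc3 _ _ (by omega) (by omega), ?_⟩)))
    rw [nb_dk_filter _ i (insert (q + s) (Finset.Ioo (q + 1 + s) n))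
      (fun j => by simp only [mem_insert, mem_Ioo]; omega),
      Finset.sum_insert (by simp only [mem_Ioo]; omega), hc3 (q + s) s rfl (by omega),
      Finset.sum_congr rfl (fun j hj => hc2 j (by simp only [mem_Ioo] at hj; omega)),
      Finset.sum_const, Nat.card_Ioo, nsmul_eq_mul,
      show n - (q + 1 + s) - 1 = q by omega]
    push_cast; ring
  · refine Or.inr (Or.inr (Or.inr (Or.inr ⟨by omega, hc2 _ (by omega), ?_⟩)))
    rw [nb_dk_filter _ i (insert (q + 1 + s) ((Finset.Ioo (q + 1 + s) n).erase i.val))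
      (fun j => by simp only [mem_insert, mem_erase, mem_Ioo]; omega),
      Finset.sum_insert (by simp only [mem_erase, mem_Ioo]; omega),
      hc3 (q + 1 + s) (s + 1) (by omega) (by omega),
      Finset.sum_congr rfl (fun j hj => hc2 j (by simp only [mem_erase, mem_Ioo] at hj; omega)),
      Finset.sum_const, Finset.card_erase_of_mem (by simp only [mem_Ioo]; omega), Nat.card_Ioo,
      nsmul_eq_mul, show n - (q + 1 + s) - 1 - 1 = q - 1 by omega, Nat.cast_sub (by omega)]
    push_cast; ring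

lemma adj_mul_sum {W : Type} [Fintype W] (K : SimpleGraph W) [DecidableRel K.Adj] (f : W → ℝ)
    (v : W) : ∑ w, K.adjMatrix ℝ v w * f w = nb K f v := by
  unfold nb
  refine Finset.sum_congr rfl fun w _ => ?_
  by_cases h : K.Adj v w <;> simp [h]

lemma adj_nonneg {W : Type} (K : SimpleGraph W) [DecidableRel K.Adj] (v w : W) :
    0 ≤ K.adjMatrix ℝ v w := by
  by_cases h : K.Adj v w <;> simp [h]

theorem dk_gap_le {n r s : ℕ} (hr : 1 ≤ r) (hn : 2 * r + s = n) {t : ℝ} (hP : Prof r s t)
    [DecidableRel (dkG n r s).Adj] (hD : ((dkG n r s).adjMatrix ℝ).IsHermitian) {a b : ℝ}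
    {i0 : Fin n} (ha : hD.eigenvalues i0 = a) (hb : ∀ k, k ≠ i0 → hD.eigenvalues k ≤ b) :
    a - b ≤ t := by
  obtain ⟨lb, mb, X, Y, X1, X2, Y1, Y2, h1, h2, h3⟩ := hP
  have e1 : a ≤ lb := by
    rw [← ha]
    refine eig_le_of_super hD (adj_nonneg _) (fun j => dkF r s X X1 X2 j.val) (fun i => ?_)
      (fun i => ?_) i0
    · rcases nb_dk hr hn X X1 X2 i with h | h | ⟨k, hk, h⟩ | h | h
      · rw [h.2.1]; exact h2.pos1
      · rw [h.1]; exact h2.pos _ (by omega)
      · rw [h.1]; exact h2.pos _ (by omega)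
      · rw [h.1]; exact h2.pos _ (by omega)
      · rw [h.2.1]; exact h2.pos2
    · rw [adj_mul_sum]
      rcases nb_dk hr hn X X1 X2 i with h | h | ⟨k, hk, h⟩ | h | h
      · rw [h.2.1, h.2.2]; exact h2.cl1 (by omega)
      · rw [h.1, h.2]; exact h2.rt1
      · rw [h.1, h.2]; exact h2.path k hk
      · rw [h.1, h.2]; exact h2.rt2
      · rw [h.2.1, h.2.2]; exact h2.cl2 h.1
  have e2 : mb ≤ b := by
    refine second_ge_of_sub hD (adj_nonneg _) i0 hb (fun j => dkF r s Y Y1 Y2 j.val)
      (fun i => ?_) ?_ ?_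
    · rw [adj_mul_sum]
      rcases nb_dk hr hn Y Y1 Y2 i with h | h | ⟨k, hk, h⟩ | h | h
      · rw [h.2.1, h.2.2]; exact h3.cl1 (by omega)
      · rw [h.1, h.2]; exact h3.rt1
      · rw [h.1, h.2]; exact h3.path k hk
      · rw [h.1, h.2]; exact h3.rt2
      · rw [h.2.1, h.2.2]; exact h3.cl2 h.1
    · rcases h3.sgn1 with h | ⟨h, h'⟩
      · refine ⟨⟨r - 1, by omega⟩, ?_⟩
        unfold dkF
        rw [if_neg (by simp only; omega), if_pos (by simp only; omega)]
        rwa [show r - 1 + 1 - r = 0 by omega]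
      · refine ⟨⟨0, by omega⟩, ?_⟩
        unfold dkF
        rwa [if_pos (by simp only; omega)]
    · rcases h3.sgn2 with h | ⟨h, h'⟩
      · refine ⟨⟨r + s, by omega⟩, ?_⟩
        unfold dkF
        rw [if_neg (by simp only; omega), if_pos (by simp only; omega)]
        rwa [show r + s + 1 - r = s + 1 by omega]
      · refine ⟨⟨r + s + 1, by omega⟩, ?_⟩
        unfold dkF
        rwa [if_neg (by simp only; omega), if_neg (by simp only; omega)]
  linarith

/-- Inserting one more vertex in the path of a supersolution profile. -/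
lemma SupP.succ {r s : ℕ} {lb : ℝ} {X : ℕ → ℝ} {X1 X2 : ℝ} (h : SupP r s lb X X1 X2)
    (hr : 3 ≤ r) (hl : lb ≤ 2 * (r : ℝ) - 3) : ∃ X', SupP r (s + 1) lb X' X1 X2 := by
  obtain ⟨k, hk, hmin⟩ := Finset.exists_min_image (range (s + 2)) X ⟨0, by simp⟩
  rw [Finset.mem_range] at hk
  have hmin' : ∀ j, j ≤ s + 1 → X k ≤ X j := fun j hj => hmin j (by simp; omega)
  have hc1 := h.cl1 (by omega)
  have hc2 := h.cl2 (by omega)
  have hp1 := h.pos1
  have hp2 := h.pos2
  have he1 : X 0 ≤ ((r : ℝ) - 1) * X1 := by nlinarith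
  have he2 : X (s + 1) ≤ ((r : ℝ) - 1) * X2 := by nlinarith
  refine ⟨fun j => if j ≤ k then X j else X (j - 1), ?_, hp1, hp2, ?_, ?_, ?_, ?_, ?_⟩
  · intro j hj
    split_ifs
    · exact h.pos _ (by omega)
    · exact h.pos _ (by omega)
  · intro _
    simpa using hc1
  · intro _
    rw [if_neg (by omega)]
    simpa using hc2
  · rw [if_pos (Nat.zero_le k)]
    have := h.rt1
    split_ifs with h1
    · exact this
    · have hk0 : k = 0 := by omega
      have := hmin' 1 (by omega)
      rw [hk0] at this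
      simp only [Nat.sub_self]
      linarith
  · rw [if_neg (show ¬ (s + 1 + 1 ≤ k) by omega), show s + 1 + 1 - 1 = s + 1 by omega]
    have := h.rt2
    split_ifs with h1
    · have hk0 : k = s + 1 := by omega
      have := hmin' s (by omega)
      rw [hk0] at this
      linarith
    · simpa using this
  · intro j hj
    rcases lt_trichotomy (j + 1) k with h1 | h1 | h1
    · rw [if_pos (by omega), if_pos (by omega), if_pos (by omega)]
      exact h.path j (by omega)
    · rw [if_pos (by omega), if_neg (by omega), if_pos (by omega)]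
      show X j + X (j + 1) ≤ lb * X (j + 1)
      by_cases h2 : j < s
      · have := h.path j h2
        have h3 := hmin' (j + 2) (by omega)
        rw [← h1] at h3
        linarith
      · have hj0 : j = s := by omega
        subst hj0
        have := h.rt2
        linarith
    · by_cases h2 : j = k
      · subst h2
        rw [if_pos le_rfl, if_neg (by omega), if_neg (by omega)]
        show X j + X (j + 1) ≤ lb * X j
        rcases Nat.eq_zero_or_pos j with h3 | h3
        · subst h3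
          have := h.rt1
          simp only [zero_add]
          linarith
        · obtain ⟨l, rfl⟩ : ∃ l, j = l + 1 := ⟨j - 1, by omega⟩
          have := h.path l (by omega)
          have h4 := hmin' l (by omega)
          linarith
      · obtain ⟨l, rfl⟩ : ∃ l, j = l + 1 := ⟨j - 1, by omega⟩
        rw [if_neg (by omega), if_neg (by omega), if_neg (by omega)]
        exact h.path l (by omega)

lemma SupP.extend {r s : ℕ} {lb : ℝ} {X : ℕ → ℝ} {X1 X2 : ℝ} (h : SupP r s lb X X1 X2)
    (hr : 3 ≤ r) (hl : lb ≤ 2 * (r : ℝ) - 3) (t : ℕ) : ∃ X', SupP r (s + t) lb X' X1 X2 := by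
  induction t with
  | zero => exact ⟨X, h⟩
  | succ t ih =>
    obtain ⟨X', h'⟩ := ih
    exact h'.succ hr hl

/-- Two kites with the same clique size give a profile. -/
theorem prof_of_kites {d1 d2 k s : ℕ} {lam mu x1 y1 x2 y2 : ℝ}
    (h1 : IsKite d1 k lam mu x1 y1 x2 (-y2)) (h2 : IsKite d2 k lam mu x2 y2 x1 (-y1))
    (hs : d1 + d2 = s ∨ (d1 + d2 ≤ s ∧ 3 ≤ k ∧ lam ≤ 2 * (k : ℝ) - 3)) :
    Prof k s (lam - mu) := by
  obtain ⟨X, Y, Xc, Yc, hH, hX0, hX1, hY0, hY1⟩ := h1
  obtain ⟨X', Y', Xc', Yc', hH', hX0', hX1', hY0', hY1'⟩ := h2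
  obtain ⟨t, rfl⟩ : ∃ t, s = d1 + d2 + t := ⟨s - (d1 + d2), by omega⟩
  have hsup0 : SupP k (d1 + d2) lam
      (fun j => if j ≤ d1 then X (d1 + 1 - j) else X' (j - d1)) Xc Xc' := by
    have e1 : ∀ j, j ≤ d1 + 1 →
        (if j ≤ d1 then X (d1 + 1 - j) else X' (j - d1)) = X (d1 + 1 - j) := fun j hj => by
      split_ifs with h
      · rfl
      · rw [show j - d1 = 1 by omega, show d1 + 1 - j = 0 by omega, hX0, hX1']
    have e2 : ∀ j, d1 ≤ j →
        (if j ≤ d1 then X (d1 + 1 - j) else X' (j - d1)) = X' (j - d1) := fun j hj => by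
      split_ifs with h
      · rw [show j - d1 = 0 by omega, show d1 + 1 - j = 1 by omega, hX1, hX0']
      · rfl
    refine ⟨fun j hj => ?_, hH.xc, hH'.xc, fun hk => ?_, fun hk => ?_, ?_, ?_, fun j hj => ?_⟩
    · split_ifs
      · exact hH.xpos _ (by omega)
      · exact hH'.xpos _ (by omega)
    · rw [e1 0 (by omega)]; exact hH.xcl hk
    · rw [e2 _ (by omega), show d1 + d2 + 1 - d1 = d2 + 1 by omega]; exact hH'.xcl hk
    · rw [e1 0 (by omega), e1 1 (by omega)]; exact hH.xrt
    · rw [e2 _ (by omega), e2 _ (by omega), show d1 + d2 + 1 - d1 = d2 + 1 by omega,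
        show d1 + d2 - d1 = d2 by omega]
      exact hH'.xrt
    · by_cases h : j + 1 ≤ d1
      · rw [e1 _ (by omega), e1 _ (by omega), e1 _ (by omega)]
        have := hH.xrec (d1 - 1 - j) (by omega)
        rw [show d1 + 1 - j = d1 - 1 - j + 2 by omega, show d1 + 1 - (j + 2) = d1 - 1 - j by omega,
          show d1 + 1 - (j + 1) = d1 - 1 - j + 1 by omega]
        linarith
      · rw [e2 _ (by omega), e2 _ (by omega), e2 _ (by omega)]
        have := hH'.xrec (j - d1) (by omega)
        rw [show j + 2 - d1 = j - d1 + 2 by omega, show j + 1 - d1 = j - d1 + 1 by omega]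
        exact this
  obtain ⟨Z, hsup⟩ : ∃ Z, SupP k (d1 + d2 + t) lam Z Xc Xc' := by
    rcases hs with h | ⟨-, h, h'⟩
    · obtain rfl : t = 0 := by omega
      exact ⟨_, hsup0⟩
    · exact hsup0.extend h h' t
  set F : ℕ → ℝ := fun j =>
    if j ≤ d1 then Y (d1 + 1 - j) else if j ≤ d1 + t then 0 else -Y' (j - d1 - t) with hF
  have f1 : ∀ j, j ≤ d1 → F j = Y (d1 + 1 - j) := fun j hj => by simp only [hF]; rw [if_pos hj]
  have f2 : ∀ j, d1 + t < j → F j = -Y' (j - d1 - t) := fun j hj => by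
    simp only [hF]; rw [if_neg (by omega), if_neg (by omega)]
  have f3 : ∀ j, d1 < j → j ≤ d1 + t → F j = 0 := fun j hj hj' => by
    simp only [hF]; rw [if_neg (by omega), if_pos hj']
  have g1 : ∀ j, j ≤ d1 + 1 → Y (d1 + 1 - j) ≤ F j := fun j hj => by
    by_cases h : j ≤ d1
    · rw [f1 j h]
    · rw [show d1 + 1 - j = 0 by omega]
      by_cases h' : j ≤ d1 + t
      · rw [f3 j (by omega) h']; exact hH.y0
      · rw [f2 j (by omega), show j - d1 - t = 1 by omega, hY0, hY1']
  have g2 : ∀ j, d1 + t ≤ j → F j ≤ -Y' (j - d1 - t) := fun j hj => by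
    by_cases h : d1 + t < j
    · rw [f2 j h]
    · rw [show j - d1 - t = 0 by omega]
      by_cases h' : d1 < j
      · rw [f3 j h' (by omega)]; have := hH'.y0; linarith
      · rw [f1 j (by omega), show d1 + 1 - j = 1 by omega, hY0', hY1, neg_neg]
  refine ⟨lam, mu, Z, F, Xc, Xc', Yc, -Yc', le_rfl, hsup, fun hk => ?_, fun hk => ?_, ?_, ?_,
    fun j hj => ?_, ?_, ?_⟩
  · rw [f1 0 (by omega)]
    have := mul_le_mul_of_nonneg_left (hH.ycl hk) hH.yc
    simp only [Nat.sub_zero]
    linarith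
  · rw [f2 _ (by omega), show d1 + d2 + t + 1 - d1 - t = d2 + 1 by omega]
    have := mul_le_mul_of_nonneg_left (hH'.ycl hk) hH'.yc
    linarith
  · have e := g1 1 (by omega)
    rw [f1 0 (by omega)]
    have := mul_le_mul_of_nonneg_left hH.yrt (hH.ynn (d1 + 1) (by omega) le_rfl)
    have := mul_le_mul_of_nonneg_left e (hH.ynn (d1 + 1) (by omega) le_rfl)
    simp only [Nat.sub_zero, Nat.add_sub_cancel] at *
    linarith
  · have e := g2 (d1 + d2 + t) (by omega)
    rw [f2 _ (by omega), show d1 + d2 + t + 1 - d1 - t = d2 + 1 by omega]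
    rw [show d1 + d2 + t - d1 - t = d2 by omega] at e
    have := mul_le_mul_of_nonneg_left hH'.yrt (hH'.ynn (d2 + 1) (by omega) le_rfl)
    have := mul_le_mul_of_nonneg_left e (hH'.ynn (d2 + 1) (by omega) le_rfl)
    linarith
  · by_cases h : j + 1 ≤ d1
    · have e := g1 (j + 2) (by omega)
      rw [f1 j (by omega), f1 (j + 1) h]
      have hr := hH.yrec (d1 - 1 - j) (by omega)
      rw [show d1 + 1 - (j + 2) = d1 - 1 - j by omega] at e
      rw [show d1 + 1 - j = d1 - 1 - j + 2 by omega,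
        show d1 + 1 - (j + 1) = d1 - 1 - j + 1 by omega]
      have hn := hH.ynn (d1 - 1 - j + 1) (by omega) (by omega)
      have := mul_le_mul_of_nonneg_left hr hn
      have := mul_le_mul_of_nonneg_left e hn
      linarith
    · by_cases h' : j + 1 ≤ d1 + t
      · rw [f3 (j + 1) (by omega) h']; simp
      · have e := g2 j (by omega)
        rw [f2 (j + 1) (by omega), f2 (j + 2) (by omega)]
        have hr := hH'.yrec (j - d1 - t) (by omega)
        rw [show j + 2 - d1 - t = j - d1 - t + 2 by omega,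
          show j + 1 - d1 - t = j - d1 - t + 1 by omega]
        have hn := hH'.ynn (j - d1 - t + 1) (by omega) (by omega)
        have := mul_le_mul_of_nonneg_left hr hn
        have := mul_le_mul_of_nonneg_left e hn
        linarith
  · rw [f1 0 (by omega)]; exact hH.ysgn
  · rw [f2 _ (by omega), show d1 + d2 + t + 1 - d1 - t = d2 + 1 by omega]
    rcases hH'.ysgn with h | h
    · left; linarith
    · right; exact ⟨h.1, by linarith [h.2]⟩

end Pool.Agent.Lib.MP_5ca2c7_co
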