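import Pool.Agent.Lib.MP_5ca2c7_co.Basic
import Pool.Agent.Lib.MP_5ca2c7_co.Spectral

/-!
Reduction of an arbitrary connected graph to a dumbbell: two connected rooted pieces whose
roots are joined by an edge.
-/

set_option autoImplicit false

namespace Pool.Agent.Lib.MP_5ca2c7_co

open Finset Classical

lemma pos_of_conn {W : Type} [Fintype W] {K : SimpleGraph W} (hK : K.Connected) {f : W → ℝ}
    (hf : ∀ v, 0 ≤ f v) (hne : ∃ v, 0 < f v) (h0 : ∀ v, f v = 0 → nb K f v = 0) :
    ∀ v, 0 < f v := by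
  obtain ⟨v0, hv0⟩ := hne
  intro v
  by_contra hv
  obtain ⟨p⟩ := hK.preconnected v v0
  obtain ⟨d, -, hd1, hd2⟩ := p.exists_boundary_dart {w | f w = 0}
    (le_antisymm (not_lt.mp hv) (hf v)) hv0.ne'
  have h1 := le_nb K hf d.adj
  have h2 := h0 _ hd1
  exact hd2 (le_antisymm (by linarith) (hf _))

lemma perron_graph {W : Type} [Fintype W] {K : SimpleGraph W} (hK : K.Connected) (D : W → ℝ) :
    ∃ (th : ℝ) (f : W → ℝ), (∀ v, 0 < f v) ∧ (∀ v, nb K f v + D v * f v = th * f v) ∧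
      ∀ g : W → ℝ, ∑ v, g v * (nb K g v + D v * g v) ≤ th * ∑ v, g v * g v := by
  have : Nonempty W := hK.nonempty
  let A : Matrix W W ℝ := fun i j => (if K.Adj i j then 1 else 0) + (if i = j then D i else 0)
  have hA : A.IsHermitian := by
    ext i j
    simp only [A, Matrix.conjTranspose_apply, star_trivial]
    by_cases h : i = j
    · subst h; rfl
    · rw [if_neg h, if_neg (Ne.symm h)]
      by_cases h' : K.Adj i j
      · rw [if_pos h', if_pos h'.symm]
      · rw [if_neg h', if_neg (fun h'' => h' h''.symm)]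
  have hmul : ∀ (g : W → ℝ) (i : W), ∑ j, A i j * g j = nb K g i + D i * g i := by
    intro g i
    simp only [A, add_mul, Finset.sum_add_distrib, nb, ite_mul, one_mul, zero_mul]
    simp
  obtain ⟨th, f, hf0, hf1, hf2, hf3⟩ := exists_perron hA (fun i j hij => by
    simp only [A, if_neg hij]; split_ifs <;> norm_num)
  simp_rw [hmul] at hf2 hf3
  refine ⟨th, f, pos_of_conn hK hf0 hf1 fun v hv => ?_, hf2, hf3⟩
  have := hf2 v
  rw [hv] at this
  linarith

lemma exists_component {V : Type} [Fintype V] (G : SimpleGraph V) (q : V → Prop) (u : V)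
    (hu : q u) :
    ∃ (W : Type) (_ : Fintype W) (K : SimpleGraph W) (i : W → V) (u' : W),
      Function.Injective i ∧ i u' = u ∧ K.Connected ∧ (∀ a b, K.Adj a b ↔ G.Adj (i a) (i b)) ∧
      (∀ a, q (i a)) ∧ ∀ a v, G.Adj (i a) v → q v → ∃ b, i b = v := by
  let R : V → V → Prop := fun a b => G.Adj a b ∧ q b
  let W := {v // Relation.ReflTransGen R u v}
  let K : SimpleGraph W := G.comap Subtype.val
  let u' : W := ⟨u, Relation.ReflTransGen.refl⟩
  refine ⟨W, inferInstance, K, Subtype.val, u', Subtype.val_injective, rfl, ?_,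
    fun a b => Iff.rfl, ?_, ?_⟩
  · have key : ∀ v (hv : Relation.ReflTransGen R u v), K.Reachable u' ⟨v, hv⟩ := by
      intro v hv
      induction hv with
      | refl => exact SimpleGraph.Reachable.refl _
      | tail hab hbc ih =>
        exact ih.trans (SimpleGraph.Adj.reachable (show K.Adj ⟨_, hab⟩ ⟨_, _⟩ from hbc.1))
    have : Nonempty W := ⟨u'⟩
    exact ⟨fun a b => (key a.1 a.2).symm.trans (key b.1 b.2)⟩
  · rintro ⟨v, hv⟩
    induction hv with
    | refl => exact hu
    | tail _ hbc _ => exact hbc.2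
  · rintro ⟨a, ha⟩ v hav hv
    exact ⟨⟨v, ha.tail ⟨hav, hv⟩⟩, rfl⟩

lemma side_y {V W : Type} [Fintype V] [Fintype W] {G : SimpleGraph V} {K : SimpleGraph W}
    {i : W → V} {u' : W} (hi : Function.Injective i) (hK : K.Connected)
    (hadj : ∀ a b, K.Adj a b ↔ G.Adj (i a) (i b)) {y0 : V → ℝ} {mu : ℝ}
    (hy : ∀ v, nb G y0 v = mu * y0 v) (hq : ∀ a, 0 < y0 (i a))
    (hcl : ∀ a v, G.Adj (i a) v → 0 < y0 v → ∃ b, i b = v) {o : V} (ho : y0 o ≤ 0)
    (huo : G.Adj (i u') o) :
    ∃ (nu : ℝ) (y : W → ℝ), mu ≤ nu ∧ (∀ a, 0 < y a) ∧ y u' = y0 (i u') ∧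
      ∀ a, nb K y a + (if a = u' then y0 o else 0) = nu * y a := by
  obtain ⟨th, f, hf0, hf1, hf2⟩ :=
    perron_graph hK (fun a => if a = u' then y0 o / y0 (i u') else 0)
  have hu := hq u'
  have key : ∀ a, mu * y0 (i a) ≤ nb K (fun b => y0 (i b)) a + (if a = u' then y0 o else 0) := by
    intro a
    rw [← hy]
    have e1 : nb K (fun b => y0 (i b)) a
        = ∑ v, if G.Adj (i a) v ∧ 0 < y0 v then y0 v else 0 := by
      unfold nb
      refine Fintype.sum_of_injective i hi _ _ (fun v hv => ?_) (fun b => ?_)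
      · rw [if_neg]
        rintro ⟨h1, h2⟩
        exact hv (hcl a v h1 h2)
      · by_cases h : K.Adj a b
        · rw [if_pos h, if_pos ⟨(hadj a b).mp h, hq b⟩]
        · rw [if_neg h, if_neg (fun h' => h ((hadj a b).mpr h'.1))]
    have e2 : (if a = u' then y0 o else 0) = ∑ v, if v = o ∧ a = u' then y0 o else 0 := by
      by_cases h : a = u' <;> simp [h]
    rw [e1, e2, ← Finset.sum_add_distrib]
    unfold nb
    refine Finset.sum_le_sum fun v _ => ?_
    by_cases h1 : G.Adj (i a) v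
    · by_cases h2 : 0 < y0 v
      · have h3 : v ≠ o := by rintro rfl; linarith
        simp [h1, h2, h3]
      · by_cases h3 : v = o ∧ a = u'
        · obtain ⟨rfl, -⟩ := id h3
          simp [huo, h2, h3.2]
        · rw [if_pos h1, if_neg (fun h => h2 h.2), if_neg h3]
          linarith
    · have h3 : ¬ (v = o ∧ a = u') := by
        rintro ⟨rfl, rfl⟩
        exact h1 huo
      simp [h1, h3]
  have hS : 0 < ∑ a, y0 (i a) * y0 (i a) :=
    Finset.sum_pos' (fun a _ => mul_self_nonneg _) ⟨u', Finset.mem_univ _, mul_pos hu hu⟩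
  have hmu : mu ≤ th := by
    have h1 := hf2 (fun a => y0 (i a))
    have h2 : mu * ∑ a, y0 (i a) * y0 (i a) ≤ ∑ a, y0 (i a) *
        (nb K (fun a => y0 (i a)) a + (if a = u' then y0 o / y0 (i u') else 0) * y0 (i a)) := by
      rw [Finset.mul_sum]
      refine Finset.sum_le_sum fun a _ => ?_
      have h3 := key a
      have h4 : (if a = u' then y0 o / y0 (i u') else 0) * y0 (i a)
          = if a = u' then y0 o else 0 := by
        split_ifs with h
        · subst h; field_simp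
        · simp
      rw [h4]
      have := mul_le_mul_of_nonneg_left h3 (hq a).le
      linarith
    exact le_of_mul_le_mul_right (h2.trans h1) hS
  have hfu := hf0 u'
  refine ⟨th, fun a => (y0 (i u') / f u') * f a, hmu, fun a => mul_pos (div_pos hu hfu) (hf0 a),
    by field_simp, fun a => ?_⟩
  rw [nb_smul]
  have h1 := hf1 a
  split_ifs at h1 ⊢ with h
  · subst h
    have : y0 o = (y0 (i a) / f a) * (y0 o / y0 (i a) * f a) := by field_simp
    rw [this]
    linear_combination (y0 (i a) / f a) * h1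
  · linear_combination (y0 (i u') / f u') * h1

/-- Two rooted graphs with their roots joined by an edge. -/
def joinG {W1 W2 : Type} (K1 : SimpleGraph W1) (K2 : SimpleGraph W2) (u1 : W1) (u2 : W2) :
    SimpleGraph (W1 ⊕ W2) where
  Adj
    | Sum.inl a, Sum.inl b => K1.Adj a b
    | Sum.inr a, Sum.inr b => K2.Adj a b
    | Sum.inl a, Sum.inr b => a = u1 ∧ b = u2
    | Sum.inr a, Sum.inl b => b = u1 ∧ a = u2
  symm := ⟨by
    rintro (a | a) (b | b) h
    · exact K1.adj_symm h
    · exact h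
    · exact h
    · exact K2.adj_symm h⟩
  loopless := ⟨by
    rintro (a | a) h
    · exact K1.irrefl h
    · exact K2.irrefl h⟩

lemma joinG_conn {W1 W2 : Type} {K1 : SimpleGraph W1} {K2 : SimpleGraph W2} (u1 : W1) (u2 : W2)
    (h1 : K1.Connected) (h2 : K2.Connected) : (joinG K1 K2 u1 u2).Connected := by
  have key : ∀ v, (joinG K1 K2 u1 u2).Reachable (Sum.inl u1) v := by
    rintro (a | a)
    · exact (h1.preconnected u1 a).map
        (⟨Sum.inl, fun h => h⟩ : K1 →g joinG K1 K2 u1 u2)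
    · have e : (joinG K1 K2 u1 u2).Adj (Sum.inl u1) (Sum.inr u2) := ⟨rfl, rfl⟩
      exact e.reachable.trans ((h2.preconnected u2 a).map
        (⟨Sum.inr, fun h => h⟩ : K2 →g joinG K1 K2 u1 u2))
  have : Nonempty (W1 ⊕ W2) := ⟨Sum.inl u1⟩
  exact ⟨fun a b => (key a).symm.trans (key b)⟩

lemma nb_join_inl {W1 W2 : Type} [Fintype W1] [Fintype W2] (K1 : SimpleGraph W1)
    (K2 : SimpleGraph W2) (u1 : W1) (u2 : W2) (f : W1 ⊕ W2 → ℝ) (a : W1) :
    nb (joinG K1 K2 u1 u2) f (Sum.inl a)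
      = nb K1 (fun b => f (Sum.inl b)) a + (if a = u1 then f (Sum.inr u2) else 0) := by
  unfold nb
  rw [Fintype.sum_sum_type]
  congr 1
  by_cases h : a = u1
  · simp [joinG, h]
  · simp [joinG, h]

lemma nb_join_inr {W1 W2 : Type} [Fintype W1] [Fintype W2] (K1 : SimpleGraph W1)
    (K2 : SimpleGraph W2) (u1 : W1) (u2 : W2) (f : W1 ⊕ W2 → ℝ) (a : W2) :
    nb (joinG K1 K2 u1 u2) f (Sum.inr a)
      = nb K2 (fun b => f (Sum.inr b)) a + (if a = u2 then f (Sum.inl u1) else 0) := by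
  unfold nb
  rw [Fintype.sum_sum_type, add_comm]
  congr 1
  by_cases h : a = u2
  · simp [joinG, h]
  · simp [joinG, h]

lemma perron_sub {V W : Type} [Fintype V] [Fintype W] {G : SimpleGraph V} {J : SimpleGraph W}
    (hJ : J.Connected) {i : W → V} (hi : Function.Injective i)
    (hadj : ∀ a b, J.Adj a b → G.Adj (i a) (i b)) {c : ℝ}
    (hc : ∀ f : V → ℝ, ∑ v, f v * nb G f v ≤ c * ∑ v, f v * f v) :
    ∃ (lam : ℝ) (x : W → ℝ), lam ≤ c ∧ (∀ a, 0 < x a) ∧ ∀ a, nb J x a = lam * x a := by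
  obtain ⟨th, f, hf0, hf1, -⟩ := perron_graph hJ (fun _ => 0)
  simp only [zero_mul, add_zero] at hf1
  refine ⟨th, f, ?_, hf0, hf1⟩
  set g : V → ℝ := Function.extend i f 0 with hg
  have hgi : ∀ a, g (i a) = f a := fun a => hi.extend_apply f 0 a
  have hgo : ∀ v, v ∉ Set.range i → g v = 0 := fun v hv => by
    rw [hg, Function.extend_apply' _ _ _ (by simpa using hv)]; rfl
  have hg0 : ∀ v, 0 ≤ g v := fun v => by
    by_cases hv : v ∈ Set.range i
    · obtain ⟨a, rfl⟩ := hv
      rw [hgi]; exact (hf0 a).le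
    · rw [hgo v hv]
  have e1 : ∑ a, f a * f a = ∑ v, g v * g v :=
    Fintype.sum_of_injective i hi _ _ (fun v hv => by rw [hgo v hv]; ring)
      (fun a => by rw [hgi])
  have e2 : ∑ a, f a * nb G g (i a) = ∑ v, g v * nb G g v :=
    Fintype.sum_of_injective i hi _ _ (fun v hv => by rw [hgo v hv]; ring)
      (fun a => by rw [hgi])
  have e3 : ∀ a, nb J f a ≤ nb G g (i a) := fun a => by
    have : nb G g (i a) = ∑ b, if G.Adj (i a) (i b) then f b else 0 := by
      unfold nb
      exact (Fintype.sum_of_injective i hi _ _ (fun v hv => by rw [hgo v hv]; simp)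
        (fun b => by rw [hgi])).symm
    rw [this]
    unfold nb
    refine Finset.sum_le_sum fun b _ => ?_
    by_cases h : J.Adj a b
    · rw [if_pos h, if_pos (hadj a b h)]
    · rw [if_neg h]; split_ifs; exacts [(hf0 b).le, le_rfl]
  have : Nonempty W := hJ.nonempty
  have hS : 0 < ∑ a, f a * f a :=
    Finset.sum_pos (fun a _ => mul_pos (hf0 a) (hf0 a)) Finset.univ_nonempty
  have h1 : th * ∑ a, f a * f a ≤ c * ∑ a, f a * f a := by
    calc th * ∑ a, f a * f a = ∑ a, f a * nb J f a := by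
          rw [Finset.mul_sum]
          refine Finset.sum_congr rfl fun a _ => ?_
          rw [hf1]; ring
      _ ≤ ∑ a, f a * nb G g (i a) :=
          Finset.sum_le_sum fun a _ => mul_le_mul_of_nonneg_left (e3 a) (hf0 a).le
      _ ≤ c * ∑ a, f a * f a := by rw [e2, e1]; exact hc g
  exact le_of_mul_le_mul_right h1 hS

/-- A dumbbell with at most `n` vertices. -/
def Dumb (n : ℕ) (lam mu : ℝ) : Prop :=
  ∃ (W1 W2 : Type) (_ : Fintype W1) (_ : Fintype W2) (K1 : SimpleGraph W1) (K2 : SimpleGraph W2)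
    (u1 : W1) (u2 : W2) (nu1 nu2 : ℝ) (x1 y1 : W1 → ℝ) (x2 y2 : W2 → ℝ),
    mu ≤ nu1 ∧ mu ≤ nu2 ∧ Fintype.card W1 + Fintype.card W2 ≤ n ∧
    Side K1 u1 lam nu1 x1 y1 (x2 u2) (-y2 u2) ∧ Side K2 u2 lam nu2 x2 y2 (x1 u1) (-y1 u1)

lemma dumb_of_pre {V W1 W2 : Type} [Fintype V] [Fintype W1] [Fintype W2] {G : SimpleGraph V}
    {K1 : SimpleGraph W1} {K2 : SimpleGraph W2} (h1 : K1.Connected) (h2 : K2.Connected)
    (u1 : W1) (u2 : W2) {i : W1 ⊕ W2 → V} (hi : Function.Injective i)
    (hadj : ∀ a b, (joinG K1 K2 u1 u2).Adj a b → G.Adj (i a) (i b)) {c mu nu1 nu2 : ℝ}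
    (hc : ∀ f : V → ℝ, ∑ v, f v * nb G f v ≤ c * ∑ v, f v * f v)
    (hn1 : mu ≤ nu1) (hn2 : mu ≤ nu2) {y1 : W1 → ℝ} {y2 : W2 → ℝ}
    (hy1 : ∀ a, 0 < y1 a) (hy2 : 0 ≤ y2 u2) (hy2' : ∀ a, a ≠ u2 → 0 < y2 a) (hy2'' : ∃ a, 0 < y2 a)
    (he1 : ∀ a, nb K1 y1 a + (if a = u1 then -y2 u2 else 0) = nu1 * y1 a)
    (he2 : ∀ a, nb K2 y2 a + (if a = u2 then -y1 u1 else 0) = nu2 * y2 a) :
    ∃ lam, lam ≤ c ∧ Dumb (Fintype.card V) lam mu := by
  obtain ⟨lam, x, hl, hx0, hx1⟩ := perron_sub (joinG_conn u1 u2 h1 h2) hi hadj hc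
  have hcard : Fintype.card W1 + Fintype.card W2 ≤ Fintype.card V := by
    rw [← Fintype.card_sum]; exact Fintype.card_le_of_injective i hi
  have hy2n : ∀ a, 0 ≤ y2 a := fun a => by
    by_cases h : a = u2
    · rw [h]; exact hy2
    · exact (hy2' a h).le
  have hu1 := hy1 u1
  refine ⟨lam, hl, W1, W2, inferInstance, inferInstance, K1, K2, u1, u2, nu1, nu2,
    fun a => x (Sum.inl a), y1, fun a => x (Sum.inr a), y2, hn1, hn2, hcard, ?_, ?_⟩
  · exact ⟨h1, fun a => hx0 _, hx0 _, fun a => (hy1 a).le, fun a _ => hy1 a, ⟨u1, hy1 u1⟩,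
      by linarith, by linarith, fun a => by rw [← nb_join_inl]; exact hx1 _, he1⟩
  · exact ⟨h2, fun a => hx0 _, hx0 _, hy2n, hy2', hy2'',
      by linarith, by linarith, fun a => by rw [← nb_join_inr]; exact hx1 _, he2⟩

theorem exists_dumbbell {V : Type} [Fintype V] {G : SimpleGraph V} (hG : G.Connected) {c mu : ℝ}
    (hc : ∀ f : V → ℝ, ∑ v, f v * nb G f v ≤ c * ∑ v, f v * f v) {y0 : V → ℝ}
    (hy : ∀ v, nb G y0 v = mu * y0 v) (hp : ∃ v, 0 < y0 v) (hn : ∃ v, y0 v < 0) :
    ∃ lam, lam ≤ c ∧ Dumb (Fintype.card V) lam mu := by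
  obtain ⟨vp, hvp⟩ := hp
  obtain ⟨vn, hvn⟩ := hn
  obtain ⟨p⟩ := hG.preconnected vp vn
  obtain ⟨d, -, hd1, hd2⟩ := p.exists_boundary_dart {w | 0 < y0 w} hvp (not_lt.mpr hvn.le)
  set a0 := d.fst with ha0
  set b0 := d.snd with hb0
  have hab : G.Adj a0 b0 := d.adj
  have ha : 0 < y0 a0 := hd1
  have hb : y0 b0 ≤ 0 := not_lt.mp hd2
  have hy' : ∀ v, nb G (fun w => -y0 w) v = mu * (-y0 v) := fun v => by
    have := nb_smul G (-1) y0 v
    simp only [neg_mul, one_mul] at this
    rw [this, hy]; ring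
  obtain ⟨W1, i1, K1, j1, u1, hj1, hu1, hK1, hadj1, hq1, hcl1⟩ :=
    exists_component G (fun v => 0 < y0 v) a0 ha
  obtain ⟨nu1, y1, hn1, hy1, hyu1, he1⟩ :=
    side_y hj1 hK1 hadj1 hy hq1 hcl1 hb (u' := u1) (by rw [hu1]; exact hab)
  rcases hb.lt_or_eq with hb' | hb'
  · obtain ⟨W2, i2, K2, j2, u2, hj2, hu2, hK2, hadj2, hq2, hcl2⟩ :=
      exists_component G (fun v => 0 < -y0 v) b0 (by linarith)
    obtain ⟨nu2, y2, hn2, hy2, hyu2, he2⟩ :=
      side_y (y0 := fun w => -y0 w) hj2 hK2 hadj2 hy' hq2 hcl2 (o := a0) (by linarith) (u' := u2)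
        (by rw [hu2]; exact hab.symm)
    refine dumb_of_pre (i := Sum.elim j1 j2) hK1 hK2 u1 u2 ?_ ?_ hc hn1 hn2 hy1 (hy2 u2).le
      (fun a _ => hy2 a) ⟨u2, hy2 u2⟩ ?_ ?_
    · refine Function.Injective.sumElim hj1 hj2 fun a b h => ?_
      have := hq1 a; have := hq2 b
      rw [h] at *; linarith
    · rintro (a | a) (b | b) h
      · exact (hadj1 a b).mp h
      · obtain ⟨rfl, rfl⟩ := h
        simpa [hu1, hu2] using hab
      · obtain ⟨rfl, rfl⟩ := h
        simpa [hu1, hu2] using hab.symm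
      · exact (hadj2 a b).mp h
    · intro a
      rw [hyu2, hu2, neg_neg]; exact he1 a
    · intro a
      rw [hyu1, hu1]; exact he2 a
  · -- the zero vertex has a negative neighbour
    obtain ⟨c0, hbc, hc0⟩ : ∃ c0, G.Adj b0 c0 ∧ y0 c0 < 0 := by
      by_contra hcon
      push Not at hcon
      have h1 : y0 a0 ≤ nb G y0 b0 := by
        unfold nb
        have := Finset.single_le_sum (f := fun w => if G.Adj b0 w then y0 w else 0)
          (s := Finset.univ) (fun w _ => by
            split_ifs with h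
            exacts [hcon w h, le_rfl]) (Finset.mem_univ a0)
        simpa [hab.symm] using this
      rw [hy, hb'] at h1
      linarith
    obtain ⟨W2, i2, K2, j2, u2, hj2, hu2, hK2, hadj2, hq2, hcl2⟩ :=
      exists_component G (fun v => 0 < -y0 v) c0 (by linarith)
    obtain ⟨nu2, y2, hn2, hy2, hyu2, he2⟩ :=
      side_y (y0 := fun w => -y0 w) hj2 hK2 hadj2 hy' hq2 hcl2 (o := b0) (by linarith) (u' := u2)
        (by rw [hu2]; exact hbc.symm)
    have hbot : (⊥ : SimpleGraph Unit).Connected := ⟨fun a b => by rfl⟩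
    have hy2u := hy2 u2
    have hy1u := hy1 u1
    refine dumb_of_pre (i := Sum.elim j1 (Sum.elim (fun _ => b0) j2)) hK1
      (joinG_conn () u2 hbot hK2) u1 (Sum.inl ()) ?_ ?_ hc hn1 hn2 hy1
      (y2 := Sum.elim (fun _ => 0) (fun a => (y1 u1 / y2 u2) * y2 a)) le_rfl ?_
      ⟨Sum.inr u2, mul_pos (div_pos hy1u hy2u) hy2u⟩ ?_ ?_
    · refine Function.Injective.sumElim hj1
        (Function.Injective.sumElim (fun _ _ _ => rfl) hj2 fun a b h => ?_) ?_
      · have := hq2 b
        rw [← h] at this; linarith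
      · rintro a (b | b) h
        · have := hq1 a
          rw [h] at this
          simp only [Sum.elim_inl] at this; linarith
        · have := hq1 a; have := hq2 b
          rw [h] at *
          simp only [Sum.elim_inr] at *; linarith
    · rintro (a | a | a) (b | b | b) h
      · exact (hadj1 a b).mp h
      · obtain ⟨rfl, -⟩ := h
        simpa [hu1] using hab
      · exact absurd h.2 (by simp)
      · obtain ⟨rfl, -⟩ := h
        simpa [hu1] using hab.symm
      · exact absurd h (by simp [joinG])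
      · obtain ⟨-, rfl⟩ := h
        simpa [hu2] using hbc
      · exact absurd h.2 (by simp)
      · obtain ⟨-, rfl⟩ := h
        simpa [hu2] using hbc.symm
      · exact (hadj2 a b).mp h
    · rintro (a | a) h
      · exact absurd rfl h
      · exact mul_pos (div_pos hy1u hy2u) (hy2 a)
    · intro a
      have := he1 a
      rw [hb'] at this
      simpa using this
    · rintro (a | a)
      · rw [nb_join_inl]
        simp [nb]
        field_simp
        ring
      · rw [nb_join_inr]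
        have := he2 a
        rw [hb'] at this
        simp only [Sum.elim_inr, Sum.elim_inl, nb_smul]
        simp at this ⊢
        rw [this]; ring

end Pool.Agent.Lib.MP_5ca2c7_co
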