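import Pool.Agent.Lib.MP_5ca2c7_co.Large3
import Pool.Agent.Lib.MP_5ca2c7_co.Data
import Pool.Agent.Lib.MP_5ca2c7_co.Dumbbell
import Pool.Agent.Lib.MP_5ca2c7_co.DK

/-!
The case of at least eleven vertices.
-/

set_option autoImplicit false

namespace Pool.Agent.Lib.MP_5ca2c7_co

open Finset Classical

theorem big {n : ℕ} {lam mu : ℝ} (hn : 11 ≤ n) (hD : Dumb n lam mu) :
    ∃ r, 1 ≤ r ∧ 2 * r ≤ n ∧ Prof r (n - 2 * r) (lam - mu) := by
  by_contra hcon
  push Not at hcon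
  obtain ⟨W1, W2, _, _, K1, K2, u1, u2, nu1, nu2, x1, y1, x2, y2, hn1, hn2, hc, h1, h2⟩ := hD
  set dl := lam - mu with hdl
  have hlam : lam = mu + dl := by rw [hdl]; ring
  have hdl0 : 0 < dl := by have := h1.nu_lt; linarith
  have hs : Small n dl := fun r hr hr' => by
    by_contra hc
    exact hcon r (by omega) (by omega) ((prof_explicit hr (by omega)).mono (not_lt.mp hc))
  have hd := small_four hn hs le_rfl
  have hd' : dl ≤ 1 / 39 := by simpa using small_four hn hs hn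
  have key : ∀ t : ℝ, 1 < t → ∀ S : ℝ, 0 ≤ S → 4 * (t - 1 / t) ^ 2
      ≤ dl ^ 2 * (t ^ (Fintype.card W1 + Fintype.card W2 + 1)) ^ 2 * S →
      4 * (t - 1 / t) ^ 2 ≤ dl ^ 2 * (t ^ (n + 1)) ^ 2 * S := by
    intro t ht S hS h
    refine h.trans ?_
    have : t ^ (Fintype.card W1 + Fintype.card W2 + 1) ≤ t ^ (n + 1) :=
      pow_le_pow_right₀ ht.le (by omega)
    gcongr
  rcases le_or_gt mu 2 with hm | hm
  · obtain ⟨s1, s2, c1, c2, c3⟩ := main_ineq h1 h2 hn1 hn2 (t := 6 / 5) (by norm_num)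
      (by linarith)
    have a1 := key _ (by norm_num) _ (mul_nonneg c1.1 c2.1) c3
    have a2 := mul_le_mul c1.2.1 c2.2.1 c2.1 (by norm_num)
    have a3 : dl * (6 / 5) ^ (n + 1) ≤ 1 / 39 * (6 / 5) ^ 12 := by
      obtain ⟨e, rfl⟩ : ∃ e, n = 11 + e := ⟨n - 11, by omega⟩
      rw [show 11 + e - 11 = e by omega] at hd
      rw [show 11 + e + 1 = 12 + e by omega, pow_add]
      have b1 : ((3 : ℝ) / 8) ^ e * (6 / 5) ^ e ≤ 1 := by
        rw [← mul_pow]; exact pow_le_one₀ (by norm_num) (by norm_num)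
      have b2 := mul_le_mul_of_nonneg_right hd (show 0 ≤ ((6 : ℝ) / 5) ^ e by positivity)
      linarith
    have a4 : (dl * (6 / 5) ^ (n + 1)) ^ 2 ≤ (1 / 39 * (6 / 5) ^ 12) ^ 2 := by gcongr
    have a5 := mul_le_mul a4 a2 (mul_nonneg c1.1 c2.1) (by positivity)
    rw [mul_pow] at a5
    have a6 := a1.trans a5
    norm_num at a6
  · have hnk : ∀ j : ℕ, (j : ℝ) - 1 < mu → 2 * j + 2 ≤ n := by
      intro j hj
      have b1 := h1.nu_le_card
      have b2 := h2.nu_le_card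
      have b3 : j < Fintype.card W1 := by
        have : (j : ℝ) < Fintype.card W1 := by linarith
        exact_mod_cast this
      have b4 : j < Fintype.card W2 := by
        have : (j : ℝ) < Fintype.card W2 := by linarith
        exact_mod_cast this
      omega
    have hC : Concl n mu dl := by
      rcases le_or_gt mu 20 with h | h
      · exact concl_mid hn hs hdl0 hnk hm h
      · exact concl_large hn hs hdl0 hnk h
    obtain ⟨t, ht, htl, hC⟩ := hC
    obtain ⟨s1, s2, c1, c2, c3⟩ := main_ineq h1 h2 hn1 hn2 ht (by linarith)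
    have a1 := key _ ht _ (mul_nonneg c1.1 c2.1) c3
    rw [← hlam] at hC
    rcases c1.2.2 hm with q1 | ⟨d1, k1, e1, i1, q1⟩
    · refine absurd (hC s1 s2 c1.1 c2.1 q1 ?_) (not_lt.mpr a1)
      rcases c2.2.2 hm with q2 | ⟨d2, k2, -, -, q2⟩
      · exact Or.inl q2
      · exact Or.inr ⟨k2, q2⟩
    rcases c2.2.2 hm with q2 | ⟨d2, k2, e2, i2, q2⟩
    · have := hC s2 s1 c2.1 c1.1 q2 (Or.inr ⟨k1, q1⟩)
      rw [mul_comm s2] at this
      linarith
    have hk : k1 = k2 := by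
      have b1 : (k1 : ℝ) < k2 + 1 := by linarith [q1.2.1, q2.2.2.1]
      have b2 : (k2 : ℝ) < k1 + 1 := by linarith [q2.2.1, q1.2.2.1]
      have b3 : k1 < k2 + 1 := by exact_mod_cast b1
      have b4 : k2 < k1 + 1 := by exact_mod_cast b2
      omega
    subst hk
    have hk3 : (3 : ℝ) ≤ k1 := by exact_mod_cast q1.1
    refine hcon k1 (by have := q1.1; omega) (by omega)
      (prof_of_kites i1 i2 (Or.inr ⟨by omega, q1.1, ?_⟩))
    linarith [q1.2.2.1]

end Pool.Agent.Lib.MP_5ca2c7_co
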