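import Pool.Agent.Lib.MP_5ca2c7_co.Classify

/-!
An interval checker for the final numerical inequality.
-/

set_option autoImplicit false

namespace Pool.Agent.Lib.MP_5ca2c7_co

open Finset

/-- The conclusion of the numerical analysis. -/
def Concl (n : ℕ) (mu dl : ℝ) : Prop :=
  ∃ t : ℝ, 1 < t ∧ mu + dl ≤ t + 1 / t ∧ ∀ s1 s2 : ℝ, 0 ≤ s1 → 0 ≤ s2 → NK mu t s1 →
    (NK mu t s2 ∨ ∃ k, KK (mu + dl) mu t s2 k) →
    dl ^ 2 * (t ^ (n + 1)) ^ 2 * (s1 * s2) < 4 * (t - 1 / t) ^ 2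

/-- The gap is smaller than the bound for every admissible double kite. -/
def Small (n : ℕ) (dl : ℝ) : Prop := ∀ r, 4 ≤ r → 2 * r + 2 ≤ n → dl < dkB r (n - 2 * r)

lemma dkB_le {r s : ℕ} (hr : 3 ≤ r) {lo hi : ℝ} (h1 : 1 < lo) (h2 : lo ≤ tauR r)
    (h3 : tauR r ≤ hi) :
    dkB r s ≤ 2 * (1 + 3 / (5 * lo ^ 3)) * (hi - 1 / hi) / (1 + lo ^ 2 / ((r : ℝ) - 1))
      / lo ^ (s + 1) := by
  have hr' : (3 : ℝ) ≤ r := by exact_mod_cast hr
  have hr1 : (0 : ℝ) < r - 1 := by linarith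
  unfold dkB
  set a := tauR r
  have ha : 1 < a := by linarith
  have hlo : 0 < lo := by linarith
  have e1 : 1 / a < 1 := by rw [div_lt_one (by linarith)]; exact ha
  have e2 : 1 / hi ≤ 1 / a := one_div_le_one_div_of_le (by linarith) h3
  rw [div_div]
  gcongr
  · have : 0 < 1 + 3 / (5 * lo ^ 3) := by positivity
    have : 0 ≤ hi - 1 / hi := by linarith
    positivity
  · linarith

lemma finish {n r : ℕ} {dl t s S G lo : ℝ} (hs : Small n dl) (hdl : 0 < dl) (hr : 4 ≤ r)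
    (hn : 2 * r + 2 ≤ n) (ht : 1 < t) (hlo : 0 < lo) (hG : dkB r (n - 2 * r) ≤ G / lo ^ (n - 2 * r + 1))
    (hs0 : 0 ≤ s) (hsS : s ≤ S)
    (hc : S * (t ^ (n + 1)) ^ 2 * G ^ 2 ≤ 4 * (t - 1 / t) ^ 2 * (lo ^ (n + 1 - 2 * r)) ^ 2) :
    dl ^ 2 * (t ^ (n + 1)) ^ 2 * s < 4 * (t - 1 / t) ^ 2 := by
  have h1 := (hs r hr hn).trans_le hG
  rw [show n - 2 * r + 1 = n + 1 - 2 * r by omega] at h1
  have hL : 0 < lo ^ (n + 1 - 2 * r) := by positivity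
  rw [lt_div_iff₀ hL] at h1
  have h2 : (dl * lo ^ (n + 1 - 2 * r)) ^ 2 < G ^ 2 :=
    pow_lt_pow_left₀ h1 (by positivity) two_ne_zero
  have e1 : 1 / t < 1 := by rw [div_lt_one (by linarith)]; exact ht
  have hc0 : 0 < (t - 1 / t) ^ 2 := by
    have : 0 < t - 1 / t := by linarith
    positivity
  rcases hs0.eq_or_lt with h | h
  · rw [← h]; linarith
  · have hT : 0 < (t ^ (n + 1)) ^ 2 := by positivity
    have h3 := mul_lt_mul_of_pos_left h2 (mul_pos h hT)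
    have h4 := mul_le_mul_of_nonneg_right hsS (mul_nonneg hT.le (sq_nonneg G))
    have h5 : dl ^ 2 * (t ^ (n + 1)) ^ 2 * s * (lo ^ (n + 1 - 2 * r)) ^ 2
        < 4 * (t - 1 / t) ^ 2 * (lo ^ (n + 1 - 2 * r)) ^ 2 := by linarith
    exact lt_of_mul_lt_mul_right h5 (by positivity)

lemma cond_up {A B t lo : ℝ} {i j i' j' : ℕ} (hA : 0 ≤ A) (ht : 0 ≤ t) (htl : t ≤ lo)
    (h : A * (t ^ i) ^ 2 ≤ B * (lo ^ j) ^ 2) (e : ℕ) (hi : i' = i + e) (hj : j' = j + e) :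
    A * (t ^ i') ^ 2 ≤ B * (lo ^ j') ^ 2 := by
  subst hi hj
  have h1 : (t ^ e) ^ 2 ≤ (lo ^ e) ^ 2 := by gcongr
  have h2 : 0 ≤ A * (t ^ i) ^ 2 := by positivity
  calc A * (t ^ (i + e)) ^ 2 = A * (t ^ i) ^ 2 * (t ^ e) ^ 2 := by ring
    _ ≤ B * (lo ^ j) ^ 2 * (lo ^ e) ^ 2 := mul_le_mul h h1 (by positivity) (h2.trans h)
    _ = B * (lo ^ (j + e)) ^ 2 := by ring

lemma cond_down {A B t lo : ℝ} {i j i' j' : ℕ} (hB : 0 ≤ B) (hlo : 0 < lo) (htl : lo ≤ t)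
    (h : A * (t ^ i) ^ 2 ≤ B * (lo ^ j) ^ 2) (e : ℕ) (hi : i = i' + e) (hj : j = j' + e) :
    A * (t ^ i') ^ 2 ≤ B * (lo ^ j') ^ 2 := by
  subst hi hj
  have ht : 0 < t := by linarith
  have h1 : (lo ^ e) ^ 2 ≤ (t ^ e) ^ 2 := by gcongr
  have h2 : A * (t ^ i') ^ 2 * (t ^ e) ^ 2 ≤ B * (lo ^ j') ^ 2 * (t ^ e) ^ 2 := by
    calc A * (t ^ i') ^ 2 * (t ^ e) ^ 2 = A * (t ^ (i' + e)) ^ 2 := by ring
      _ ≤ B * (lo ^ (j' + e)) ^ 2 := h
      _ = B * (lo ^ j') ^ 2 * (lo ^ e) ^ 2 := by ring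
      _ ≤ _ := mul_le_mul_of_nonneg_left h1 (by positivity)
  exact le_of_mul_le_mul_right h2 (by positivity)

lemma small_four {n : ℕ} {dl : ℝ} (hn : 11 ≤ n) (hs : Small n dl) {m : ℕ} (hm : m ≤ n) :
    dl ≤ 1 / 39 * (3 / 8) ^ (m - 11) := by
  have h1 := hs 4 le_rfl (by omega)
  have h2 := dkB_le (r := 4) (s := n - 2 * 4) (by norm_num) (lo := 2732 / 1000) (hi := 2733 / 1000)
    (by norm_num) (le_tauR (by norm_num) (by norm_num))
    (tauR_le (by norm_num) (by norm_num) (by norm_num))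
  obtain ⟨e, rfl⟩ : ∃ e, n = 11 + e := ⟨n - 11, by omega⟩
  rw [show 11 + e - 2 * 4 + 1 = 4 + e by omega, pow_add, ← div_div] at h2
  have h3 : (1 : ℝ) / (2732 / 1000) ^ e ≤ (3 / 8) ^ e := by
    rw [← one_div_pow]; exact pow_le_pow_left₀ (by norm_num) (by norm_num) e
  have h4 : ((3 : ℝ) / 8) ^ e ≤ (3 / 8) ^ (m - 11) :=
    pow_le_pow_of_le_one (by norm_num) (by norm_num) (by omega)
  refine (h1.trans_le h2).le.trans ?_
  rw [div_eq_mul_one_div _ (((2732 : ℝ) / 1000) ^ e)]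
  refine mul_le_mul ?_ (h3.trans h4) (by positivity) (by norm_num)
  norm_num

lemma crude_mono {t sN : ℝ} (ht : 1 < t) {k k' : ℕ} (hk : k ≤ k')
    (h : 1 / (t ^ 2 - 1) + k ≤ sN * (t ^ k) ^ 2) : 1 / (t ^ 2 - 1) + k' ≤ sN * (t ^ k') ^ 2 := by
  have he0 : 0 < t ^ 2 - 1 := by nlinarith
  have he1 : 1 / (t ^ 2 - 1) * (t ^ 2 - 1) = 1 := by field_simp
  induction k', hk using Nat.le_induction with
  | base => exact h
  | succ j _ ih =>
    have h1 := mul_le_mul_of_nonneg_right ih (sq_nonneg t)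
    have h2 : sN * (t ^ (j + 1)) ^ 2 = sN * (t ^ j) ^ 2 * t ^ 2 := by ring
    have h3 := mul_nonneg (Nat.cast_nonneg (α := ℝ) j) he0.le
    push_cast
    rw [h2]
    linarith

/-- The test for one value `k` of the core size; `e1 = eta k`, `e2 = eta (k+1)`. -/
def okK {F : Type} [Field F] [LinearOrder F] (k : ℕ) (e1 e2 m1 t sN : F) : Prop :=
  1 / (t ^ 2 - 1) + k ≤ sN * (t ^ k) ^ 2 ∨
  ((k : F) - 1 - e1 ≤ m1 ∧
    ((0 < m1 - k + 1 ∧ 1 / (t ^ 2 - 1) + 1 / t / (m1 - k + 1) ≤ sN * (t ^ k) ^ 2) ∨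
     (((k : F) - e2 ≤ m1 ∨ (0 < m1 - k + 3 ∧
        1 / (t ^ 2 - 1) + k * ((1 + 1 / t) / (m1 - k + 3)) ^ 2 ≤ sN * (t ^ k) ^ 2)) ∧
      (0 < m1 - k + 2 ∧
        1 / (t ^ 2 - 1) + k * (1 / t / (m1 - k + 2)) ^ 2 ≤ sN * (t ^ k) ^ 2))))

lemma okK_sound {k : ℕ} {m1 mu t sN T Q : ℝ} (h : okK k (eta k) (eta (k + 1)) m1 t sN)
    (hm : m1 < mu) (ht : 1 < t) (hT0 : 0 ≤ T) (hT1 : T ≤ 1) (hQ : Q ≤ k * T ^ 2)
    (hQ2 : (mu - k + 1) * Q ≤ 1 / t)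
    (hc : mu ≤ k - 1 - eta k ∨ (mu ≤ k - eta (k + 1) ∧ (mu - k + 3) * T ≤ 1 + 1 / t) ∨
      (mu - k + 2) * T ≤ 1 / t) : 1 / (t ^ 2 - 1) + Q ≤ sN * (t ^ k) ^ 2 := by
  have hk0 : (0 : ℝ) ≤ k := Nat.cast_nonneg k
  have hs : 0 < 1 / t := by positivity
  have key : ∀ a a' b : ℝ, 0 < a → a ≤ a' → a' * T ≤ b → Q ≤ k * (b / a) ^ 2 := by
    intro a a' b ha haa hb
    have h1 : T ≤ b / a := by
      rw [le_div_iff₀ ha]
      have := mul_le_mul_of_nonneg_right haa hT0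
      linarith
    exact hQ.trans (by gcongr)
  rcases h with h | ⟨h1, ⟨h2, h3⟩ | ⟨h2, h3, h4⟩⟩
  · have : T ^ 2 ≤ 1 := by nlinarith
    have := mul_le_mul_of_nonneg_left this hk0
    linarith
  · have : Q ≤ 1 / t / (m1 - k + 1) := by
      rw [le_div_iff₀ h2]
      by_cases hQ0 : 0 ≤ Q
      · have := mul_le_mul_of_nonneg_right (show m1 - k + 1 ≤ mu - k + 1 by linarith) hQ0
        linarith
      · nlinarith
    linarith
  · rcases hc with hc | ⟨hc, hc'⟩ | hc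
    · linarith
    · rcases h2 with h2 | ⟨h2, h2'⟩
      · linarith
      · have := key _ _ _ h2 (by linarith) hc'
        linarith
    · have := key _ _ _ h3 (by linarith) hc
      linarith

lemma NK_le {k : ℕ} {m1 mu t sN sg : ℝ} (hk : (k : ℝ) - 1 ≤ m1) (hm : m1 < mu) (ht : 1 < t)
    (h0 : okK k (eta k) (eta (k + 1)) m1 t sN)
    (h1 : okK (k + 1) (eta (k + 1)) (eta (k + 2)) m1 t sN)
    (h2 : 1 / (t ^ 2 - 1) + (k + 2 : ℕ) ≤ sN * (t ^ (k + 2)) ^ 2) (h : NK mu t sg) : sg ≤ sN := by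
  obtain ⟨j, T, Q, a1, a2, a3, a4, a5, a6, a7⟩ := h
  have hj : k ≤ j := by
    have : (k : ℝ) < j + 1 := by linarith
    have : k < j + 1 := by exact_mod_cast this
    omega
  have key : 1 / (t ^ 2 - 1) + Q ≤ sN * (t ^ j) ^ 2 := by
    rcases Nat.lt_or_ge j (k + 2) with h | h
    · rcases (show j = k ∨ j = k + 1 by omega) with rfl | rfl
      · exact okK_sound h0 hm ht a2 a3 a4 a5 a7
      · exact okK_sound h1 hm ht a2 a3 a4 a5 a7
    · have := crude_mono ht h h2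
      have h3 : T ^ 2 ≤ 1 := by nlinarith
      have := mul_le_mul_of_nonneg_left h3 (Nat.cast_nonneg (α := ℝ) j)
      linarith
  exact le_of_mul_le_mul_right (a6.trans key) (by positivity)

lemma KK_le {k j : ℕ} {m1 lm mu lam t sK sg hi : ℝ} (hk : (k : ℝ) - 1 ≤ m1) (hk' : m1 ≤ k)
    (hm : m1 < mu) (ht : 1 < t) (hlam : lam ≤ lm) (hlm : lm < k + 1) (hhi : tauR k ≤ hi)
    (h0 : hi + 1 / hi ≤ m1 ∨ 1 / (t ^ 2 - 1) + k ≤ sK * (t ^ k) ^ 2)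
    (h1 : lm < k ∨ (0 < m1 - k + 1 ∧
      1 / (t ^ 2 - 1) + 1 + k * (1 / (m1 - k + 1)) ^ 2 ≤ sK * (t ^ (k + 1)) ^ 2))
    (h : KK lam mu t sg j) : sg ≤ sK := by
  obtain ⟨a1, a2, a3, a4, T, a5, a6, a7⟩ := h
  have hj1 : k ≤ j := by
    have : (k : ℝ) < j + 1 := by linarith
    have : k < j + 1 := by exact_mod_cast this
    omega
  have hj2 : j ≤ k + 1 := by
    have : (j : ℝ) < k + 2 := by linarith
    have : j < k + 2 := by exact_mod_cast this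
    omega
  rcases (show j = k ∨ j = k + 1 by omega) with rfl | rfl
  · rcases h0 with h0 | h0
    · exfalso
      have b1 := one_lt_tauR a1
      set a := tauR j
      have b2 : a + 1 / a ≤ hi + 1 / hi := by
        have : hi + 1 / hi - (a + 1 / a) = (hi - a) * (a * hi - 1) / (a * hi) := by
          have : 0 < hi := by linarith
          field_simp; ring
        have : 0 ≤ (hi - a) * (a * hi - 1) / (a * hi) :=
          div_nonneg (mul_nonneg (by linarith) (by nlinarith)) (by nlinarith)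
        linarith
      linarith
    · have hT : T ≤ 1 := by
        rcases a7 with h | h
        · exact h
        · nlinarith
      have h3 : T ^ 2 ≤ 1 := by nlinarith
      have hj3 : (3 : ℝ) ≤ j := by exact_mod_cast a1
      have := mul_le_mul_of_nonneg_left h3 (show (0 : ℝ) ≤ j - 1 by linarith)
      exact le_of_mul_le_mul_right (show sg * (t ^ j) ^ 2 ≤ sK * (t ^ j) ^ 2 by linarith)
        (by positivity)
  · push_cast at a2 a6 a7
    rcases h1 with h1 | ⟨h1, h1'⟩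
    · linarith
    · have hT : T ≤ 1 / (m1 - k + 1) := by
        rw [le_div_iff₀ h1]
        rcases a7 with h | h
        · nlinarith
        · nlinarith
      have h3 : T ^ 2 ≤ (1 / (m1 - k + 1)) ^ 2 := by gcongr
      have := mul_le_mul_of_nonneg_left h3 (Nat.cast_nonneg (α := ℝ) k)
      exact le_of_mul_le_mul_right
        (show sg * (t ^ (k + 1)) ^ 2 ≤ sK * (t ^ (k + 1)) ^ 2 by linarith) (by positivity)

/-- The comparison with `DK(r, n - 2r)`. -/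
def cmp {F : Type} [Field F] [LinearOrder F] (S t lo hi : F) (r n : ℕ) : Prop :=
  S * (2 * (1 + 3 / (5 * lo ^ 3)) * (hi - 1 / hi) / (1 + lo ^ 2 / ((r : F) - 1))) ^ 2
    * (t ^ (n + 1)) ^ 2 ≤ 4 * (t - 1 / t) ^ 2 * (lo ^ (n + 1 - 2 * r)) ^ 2

/-- The bounds `lo ≤ tauR r ≤ hi`. -/
def brk {F : Type} [Field F] [LinearOrder F] (lo hi : F) (r : ℕ) : Prop :=
  1 < lo ∧ lo ^ 2 ≤ ((r : F) - 2) * (lo + 1) ∧ (r : F) - 2 ≤ hi ∧ ((r : F) - 2) * (hi + 1) ≤ hi ^ 2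

/-- The full test for one interval. -/
def okE {F : Type} [Field F] [LinearOrder F] (k n0 : ℕ)
    (e0 e1 e2 m1 m2 t sN sK alo ahi blo bhi : F) : Prop :=
  3 ≤ k ∧ (k : F) - 1 ≤ m1 ∧ m1 ≤ k ∧ 1 < t ∧
  m2 + 1 / 39 * (3 / 8) ^ (2 * k + 2 - 11) ≤ t + 1 / t ∧
  m2 + 1 / 39 * (3 / 8) ^ (2 * k + 2 - 11) < k + 1 ∧
  okK k e0 e1 m1 t sN ∧ okK (k + 1) e1 e2 m1 t sN ∧
  1 / (t ^ 2 - 1) + (k + 2 : ℕ) ≤ sN * (t ^ (k + 2)) ^ 2 ∧ sN ≤ sK ∧
  (ahi + 1 / ahi ≤ m1 ∨ 1 / (t ^ 2 - 1) + k ≤ sK * (t ^ k) ^ 2) ∧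
  (m2 + 1 / 39 * (3 / 8) ^ (2 * k + 2 - 11) < k ∨ (0 < m1 - k + 1 ∧
      1 / (t ^ 2 - 1) + 1 + k * (1 / (m1 - k + 1)) ^ 2 ≤ sK * (t ^ (k + 1)) ^ 2)) ∧
  brk alo ahi k ∧ brk blo bhi (k + 1) ∧
  (n0 < 11 ∨ (4 ≤ k ∧ cmp (sN * sK) t alo ahi k (max 11 (2 * k + 2)) ∧
    cmp (sN * sK) t alo ahi k n0)) ∧
  2 * (k + 1) + 2 ≤ n0 + 1 ∧ t ≤ blo ∧ cmp (sN * sK) t blo bhi (k + 1) (n0 + 1)

lemma okE_sound {k n0 n : ℕ} {m1 m2 t sN sK alo ahi blo bhi mu dl : ℝ}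
    (h : okE k n0 (eta k) (eta (k + 1)) (eta (k + 2)) m1 m2 t sN sK alo ahi blo bhi)
    (hn : 11 ≤ n) (hs : Small n dl) (hdl : 0 < dl) (hm1 : m1 < mu) (hm2 : mu ≤ m2)
    (hnk : ∀ j : ℕ, (j : ℝ) - 1 < mu → 2 * j + 2 ≤ n) : Concl n mu dl := by
  obtain ⟨c1, c2, c3, c4, c5, c6, c7, c8, c9, c10, c11, c12, ⟨a1, a2, a3, a4⟩, ⟨b1, b2, b3, b4⟩,
    c13, c14, c15, c16⟩ := h
  have hn2 := hnk k (by linarith)
  have hd := small_four hn hs hn2
  have ha1 := le_tauR (r := k) (by omega) a2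
  have ha2 := tauR_le (r := k) (by omega) a3 a4
  have hb1 := le_tauR (r := k + 1) (by omega) b2
  have hb2 := tauR_le (r := k + 1) (by omega) b3 b4
  refine ⟨t, c4, by linarith, fun s1 s2 p1 p2 q1 q2 => ?_⟩
  have r1 : s1 ≤ sN := NK_le c2 hm1 c4 c7 c8 c9 q1
  have r2 : s2 ≤ sK := by
    rcases q2 with q2 | ⟨j, q2⟩
    · exact (NK_le c2 hm1 c4 c7 c8 c9 q2).trans c10
    · exact KK_le c2 c3 hm1 c4 (by linarith) c6 ha2 c11 c12 q2
  have r3 : s1 * s2 ≤ sN * sK := mul_le_mul r1 r2 p2 (p1.trans r1)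
  have r4 : 0 ≤ sN * sK := (mul_nonneg p1 p2).trans r3
  by_cases hc : n ≤ n0
  · rcases c13 with c13 | ⟨d1, d2, d3⟩
    · omega
    · refine finish hs hdl d1 hn2 c4 (by linarith) (dkB_le c1 a1 ha1 ha2) (mul_nonneg p1 p2) r3 ?_
      unfold cmp at d2 d3
      rw [mul_right_comm]
      rcases le_total t alo with h | h
      · exact cond_up (by positivity) (by linarith) h d2 (n - max 11 (2 * k + 2))
          (by omega) (by omega)
      · exact cond_down (by positivity) (by linarith) h d3 (n0 - n) (by omega) (by omega)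
  · refine finish (r := k + 1) hs hdl (by omega) (by omega) c4 (by linarith)
      (dkB_le (by omega) b1 hb1 hb2) (mul_nonneg p1 p2) r3 ?_
    unfold cmp at c16
    rw [mul_right_comm]
    exact cond_up (by positivity) (by linarith) c15 c16 (n - (n0 + 1)) (by omega) (by omega)

/-- Rational version of `eta`. -/
def etaQ (k : ℕ) : ℚ := if k ≤ 3 then 0 else 1 / ((k : ℚ) + 1)

lemma etaQ_cast (k : ℕ) : ((etaQ k : ℚ) : ℝ) = eta k := by
  unfold etaQ eta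
  split_ifs <;> simp

/-- The data for one interval. -/
structure Ent where
  k : ℕ
  n0 : ℕ
  m1 : ℚ
  m2 : ℚ
  t : ℚ
  sN : ℚ
  sK : ℚ
  alo : ℚ
  ahi : ℚ
  blo : ℚ
  bhi : ℚ

/-- The test for one interval, over the rationals. -/
def Ent.ok (e : Ent) : Prop :=
  okE e.k e.n0 (etaQ e.k) (etaQ (e.k + 1)) (etaQ (e.k + 2)) e.m1 e.m2 e.t e.sN e.sK e.alo e.ahi
    e.blo e.bhi

instance (e : Ent) : Decidable e.ok := by
  unfold Ent.ok okE okK cmp brk; infer_instance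

lemma Ent.ok_real {e : Ent} (h : e.ok) :
    okE e.k e.n0 (eta e.k) (eta (e.k + 1)) (eta (e.k + 2)) (e.m1 : ℝ) e.m2 e.t e.sN e.sK e.alo
      e.ahi e.blo e.bhi := by
  rw [← etaQ_cast, ← etaQ_cast, ← etaQ_cast]
  unfold Ent.ok at h
  unfold okE okK cmp brk at *
  simp only [← Rat.cast_le (K := ℝ), ← Rat.cast_lt (K := ℝ)] at h
  push_cast at h ⊢
  exact h

/-- The intervals of the list cover `(lo, hi]` and pass the test. -/
def chain : ℚ → List Ent → ℚ → Bool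
  | lo, [], hi => decide (hi ≤ lo)
  | lo, e :: es, hi => decide (e.m1 ≤ lo) && decide e.ok && chain e.m2 es hi

lemma chain_sound {n : ℕ} {mu dl : ℝ} (hn : 11 ≤ n) (hs : Small n dl) (hdl : 0 < dl)
    (hnk : ∀ j : ℕ, (j : ℝ) - 1 < mu → 2 * j + 2 ≤ n) {hi : ℚ} (hhi : mu ≤ hi) :
    ∀ (L : List Ent) (lo : ℚ), chain lo L hi = true → (lo : ℝ) < mu → Concl n mu dl := by
  intro L
  induction L with
  | nil =>
    intro lo h hlo
    simp only [chain, decide_eq_true_eq] at h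
    have : (hi : ℝ) ≤ lo := by exact_mod_cast h
    linarith
  | cons e es ih =>
    intro lo h hlo
    simp only [chain, Bool.and_eq_true, decide_eq_true_eq] at h
    obtain ⟨⟨h1, h2⟩, h3⟩ := h
    by_cases hc : mu ≤ e.m2
    · have : (e.m1 : ℝ) ≤ lo := by exact_mod_cast h1
      exact okE_sound (Ent.ok_real h2) hn hs hdl (by linarith) hc hnk
    · exact ih _ h3 (not_le.mp hc)

end Pool.Agent.Lib.MP_5ca2c7_co
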