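import Pool.Agent.Lib.MP_5ca2c7_co.OneSided

/-!
Classification of a side and the main inequality for a dumbbell.
-/

set_option autoImplicit false

namespace Pool.Agent.Lib.MP_5ca2c7_co

open Finset Classical

/-- Numerical information on a side that is not a kite. -/
def NK (mu t sg : ℝ) : Prop :=
  ∃ (k : ℕ) (T Q : ℝ), mu ≤ k ∧ 0 ≤ T ∧ T ≤ 1 ∧ Q ≤ k * T ^ 2 ∧ (mu - k + 1) * Q ≤ 1 / t ∧
    sg * (t ^ k) ^ 2 ≤ 1 / (t ^ 2 - 1) + Q ∧
    (mu ≤ k - 1 - eta k ∨ (mu ≤ k - eta (k + 1) ∧ (mu - k + 3) * T ≤ 1 + 1 / t) ∨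
      (mu - k + 2) * T ≤ 1 / t)

/-- Numerical information on a side that is a kite with clique size `k`. -/
def KK (lam mu t sg : ℝ) (k : ℕ) : Prop :=
  3 ≤ k ∧ (k : ℝ) - 1 ≤ lam ∧ mu < k - 1 / 2 ∧ mu ≤ tauR k + 1 / tauR k ∧
    ∃ T : ℝ, 0 ≤ T ∧ sg * (t ^ k) ^ 2 ≤ 1 / (t ^ 2 - 1) + 1 + (k - 1) * T ^ 2 ∧
      (T ≤ 1 ∨ (mu - k + 2) * T ≤ 1)

/-- The classification of a side with `m` vertices. -/
def Cls (m : ℕ) (lam mu t sg xu yu xo yo : ℝ) : Prop :=
  0 ≤ sg ∧ sg ≤ 1 / (t ^ 2 - 1) ∧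
    (2 < mu → NK mu t sg ∨ ∃ d k, d + k = m ∧ IsKite d k lam mu xu yu xo yo ∧ KK lam mu t sg k)

lemma IsKite.le_lam {d k : ℕ} {lam mu xu yu xo yo : ℝ} (h : IsKite d k lam mu xu yu xo yo)
    (hk : 2 ≤ k) : (k : ℝ) - 1 ≤ lam := by
  obtain ⟨X, Y, Xc, Yc, hH, -⟩ := h
  have h1 := hH.xrt
  have h2 := hH.xcl hk
  have h3 := hH.xc
  have h4 := hH.xpos d (by omega)
  have h5 := hH.xpos (d + 1) le_rfl
  have hk' : (2 : ℝ) ≤ k := by exact_mod_cast hk
  by_contra hc
  push Not at hc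
  rcases le_total Xc (X (d + 1)) with h | h
  · nlinarith
  · nlinarith

lemma side_class {W : Type} [Fintype W] {K : SimpleGraph W} {u : W} {lam nu : ℝ}
    {x y : W → ℝ} {xo yo : ℝ} (hS : Side K u lam nu x y xo yo) {mu t al b b' : ℝ}
    (hmu : mu ≤ nu) (ht : 1 < t) (hlam : lam ≤ t + 1 / t) (hb : 0 < b) (hb' : 0 < b')
    (hal : 0 < al)
    (H2 : t * (b' * x u + b * y u) - (b' * xo + b * yo) ≤ (t - 1 / t) * al)
    (H3 : b' * xo + b * yo ≤ al / t) :
    ∃ sg, Cls (Fintype.card W) lam mu t sg (x u) (y u) xo yo ∧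
      4 * (b * b') * ∑ v, x v * y v ≤ al ^ 2 * (t ^ Fintype.card W) ^ 2 * sg := by
  have hnu := hS.nu_lt
  have hcomb : ∀ v, nb K (fun w => b' * x w + b * y w) v + (if v = u then b' * xo + b * yo else 0)
      = b' * (lam * x v) + b * (nu * y v) := fun v => by
    rw [nb_add, nb_smul, nb_smul, ← hS.xeq, ← hS.yeq]
    split_ifs <;> ring
  obtain ⟨d, k, T, Q, hdk, hk1, hmk, hT0, hT1, hQ1, hQ2, hT2, hsum, hcase⟩ :=
    one_sided hS.conn u (mu := mu) ht hal (f := fun w => b' * x w + b * y w)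
      (fo := b' * xo + b * yo)
      (fun v => by have := hS.xpos v; have := hS.ynn v; positivity)
      (fun v => by
        rw [hcomb]
        have h1 := mul_le_mul_of_nonneg_right hlam (mul_pos hb' (hS.xpos v)).le
        have h2 := mul_le_mul_of_nonneg_right (hnu.le.trans hlam) (mul_nonneg hb.le (hS.ynn v))
        linarith)
      (fun v => by
        rw [hcomb]
        have h1 := mul_le_mul_of_nonneg_right (hmu.trans hnu.le) (mul_pos hb' (hS.xpos v)).le
        have h2 := mul_le_mul_of_nonneg_right hmu (mul_nonneg hb.le (hS.ynn v))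
        linarith) H2 H3
  have ht0 : 0 < t := by linarith
  have he0 : 0 < t ^ 2 - 1 := by nlinarith
  have he1 : 1 / (t ^ 2 - 1) * (t ^ 2 - 1) = 1 := by field_simp
  have he2 : 0 < 1 / (t ^ 2 - 1) := by positivity
  set e := 1 / (t ^ 2 - 1) with he
  have htk : 0 < (t ^ k) ^ 2 := by positivity
  have hsg : (e + Q) / (t ^ k) ^ 2 * (t ^ k) ^ 2 = e + Q := by field_simp
  have heQ : 0 ≤ e + Q := by
    by_contra hc
    push Not at hc
    have h1 : 0 < al ^ 2 * (t ^ d) ^ 2 := by positivity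
    have h2 := mul_neg_of_pos_of_neg h1 hc
    have h3 : 0 ≤ ∑ v, (b' * x v + b * y v) ^ 2 := Finset.sum_nonneg fun v _ => sq_nonneg _
    linarith
  have hQk : Q ≤ k := by
    have : T ^ 2 ≤ 1 := by nlinarith
    have := mul_le_mul_of_nonneg_left this (Nat.cast_nonneg (α := ℝ) k)
    linarith
  refine ⟨(e + Q) / (t ^ k) ^ 2, ⟨by positivity, ?_, fun hmu2 => ?_⟩, ?_⟩
  · rw [div_le_iff₀ htk]
    have h1 : 1 + (k : ℝ) * (t ^ 2 - 1) ≤ (1 + (t ^ 2 - 1)) ^ k :=
      one_add_mul_le_pow (by linarith) k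
    have h2 : (1 + (t ^ 2 - 1)) ^ k = (t ^ k) ^ 2 := by ring
    rw [h2] at h1
    have h3 := mul_le_mul_of_nonneg_left h1 he2.le
    have h4 : e * (1 + (k : ℝ) * (t ^ 2 - 1)) = e + k := by linear_combination (k : ℝ) * he1
    linarith
  · have hnu2 : 2 < nu := by linarith
    have hmk' : mu ≤ k := by
      rcases hmk with h | h
      · have := hS.nu_le_card
        rw [← hdk, h] at this
        push_cast at this
        linarith
      · exact h
    have hst : 1 / t * t = 1 := by field_simp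
    rcases hcase with ⟨p, C, hP⟩ | ⟨d', rfl, hT3, p, C, hP⟩ | hT3
    · have hC : C.card = k := by have := hP.card; omega
      by_cases hcomp : ∀ v ∈ C, ∀ w ∈ C, v ≠ w → K.Adj v w
      · right
        have hK := kite_of_complete hS hP hmu hcomp
        have h1 := core_le_half hS hP hnu2
        rw [hC] at hK h1
        have hk3 : 3 ≤ k := by
          have : (2 : ℝ) < k := by linarith
          exact_mod_cast this
        have h2 := core_le_tauR hS hP (by omega)
        rw [hC] at h2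
        exact ⟨d, k, hdk, hK, hk3, hK.le_lam (by omega), by linarith, by linarith, 1, zero_le_one,
          by rw [hsg]; linarith, Or.inl le_rfl⟩
      · left
        push Not at hcomp
        obtain ⟨v, hv, w, hw, hne, hna⟩ := hcomp
        have h1 := core_le_eta hS hP hnu2 hv hw hne hna
        rw [hC] at h1
        exact ⟨k, T, Q, hmk', hT0, hT1, hQ1, hQ2, hsg.le, Or.inl (by linarith)⟩
    · have hC : C.card = k + 1 := by have := hP.card; omega
      by_cases hcomp : ∀ v ∈ C, ∀ w ∈ C, v ≠ w → K.Adj v w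
      · right
        have hK := kite_of_complete hS hP hmu hcomp
        have h1 := core_le_half hS hP hnu2
        rw [hC] at hK h1
        have hk3 : 3 ≤ k + 1 := by
          have : (2 : ℝ) < (k + 1 : ℕ) := by linarith
          exact_mod_cast this
        have h2 := core_le_tauR hS hP (by omega)
        rw [hC] at h2
        refine ⟨d', k + 1, by omega, hK, hk3, hK.le_lam (by omega), by linarith, by linarith,
          t * T, by positivity, ?_, Or.inr ?_⟩
        · have h3 : (e + Q) / (t ^ k) ^ 2 * (t ^ (k + 1)) ^ 2 = (e + Q) * t ^ 2 := by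
            field_simp; ring
          rw [h3]
          have h4 := mul_le_mul_of_nonneg_right hQ1 (sq_nonneg t)
          push_cast
          linarith
        · have h4 := mul_le_mul_of_nonneg_right hT2 ht0.le
          push_cast
          linarith
      · left
        push Not at hcomp
        obtain ⟨v, hv, w, hw, hne, hna⟩ := hcomp
        have h1 := core_le_eta hS hP hnu2 hv hw hne hna
        rw [hC] at h1
        push_cast at h1
        exact ⟨k, T, Q, hmk', hT0, hT1, hQ1, hQ2, hsg.le, Or.inr (Or.inl ⟨by linarith, hT3⟩)⟩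
    · exact Or.inl ⟨k, T, Q, hmk', hT0, hT1, hQ1, hQ2, hsg.le, Or.inr (Or.inr hT3)⟩
  · have h1 : 4 * (b * b') * ∑ v, x v * y v ≤ ∑ v, (b' * x v + b * y v) ^ 2 := by
      rw [Finset.mul_sum]
      exact Finset.sum_le_sum fun v _ => by nlinarith [sq_nonneg (b' * x v - b * y v)]
    have h2 : al ^ 2 * (t ^ Fintype.card W) ^ 2 * ((e + Q) / (t ^ k) ^ 2)
        = al ^ 2 * (t ^ d) ^ 2 * (e + Q) := by
      rw [← hdk]; field_simp; ring
    rw [h2]
    exact h1.trans hsum

lemma main_ineq_aux {W1 W2 : Type} [Fintype W1] [Fintype W2] {K1 : SimpleGraph W1}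
    {K2 : SimpleGraph W2} {u1 : W1} {u2 : W2} {lam mu nu1 nu2 t : ℝ} {x1 y1 : W1 → ℝ}
    {x2 y2 : W2 → ℝ} (h1 : Side K1 u1 lam nu1 x1 y1 (x2 u2) (-y2 u2))
    (h2 : Side K2 u2 lam nu2 x2 y2 (x1 u1) (-y1 u1)) (hn1 : mu ≤ nu1) (hn2 : mu ≤ nu2)
    (ht : 1 < t) (hlam : lam ≤ t + 1 / t)
    (hw : (t * x1 u1 - x2 u2) * (y1 u1 + t * y2 u2) ≤ (t * y1 u1 + y2 u2) * (t * x2 u2 - x1 u1)) :
    ∃ s1 s2, Cls (Fintype.card W1) lam mu t s1 (x1 u1) (y1 u1) (x2 u2) (-y2 u2) ∧
      Cls (Fintype.card W2) lam mu t s2 (x2 u2) (y2 u2) (x1 u1) (-y1 u1) ∧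
      4 * (t - 1 / t) ^ 2
        ≤ (lam - mu) ^ 2 * (t ^ (Fintype.card W1 + Fintype.card W2 + 1)) ^ 2 * (s1 * s2) := by
  have ht0 : 0 < t := by linarith
  set s := 1 / t with hs
  have hst : s * t = 1 := by rw [hs]; field_simp
  have hs0 : 0 < s := by positivity
  have hs1 : s < 1 := by rw [hs, div_lt_one ht0]; exact ht
  have hc : 0 < t - s := by linarith
  have hF1 := h1.flux
  have hF2 := h2.flux
  have hF := h1.flux_pos
  have hW1 := h1.wpos
  have hW2 := h2.wpos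
  have hy1 := h1.ynn u1
  have hy2 := h2.ynn u2
  have hys := h1.ysum
  set X1 := x1 u1
  set X2 := x2 u2
  set Y1 := y1 u1
  set Y2 := y2 u2
  set F := X2 * Y1 - X1 * -Y2 with hFdef
  set b := X2 - s * X1 with hb
  set b' := s * Y1 + Y2 with hb'
  have hb'0 : 0 < b' := by
    rcases hy1.eq_or_lt with h | h
    · rw [hb', ← h]; linarith
    · have := mul_pos hs0 h; linarith
  have ha'0 : 0 < t * Y1 + Y2 := by nlinarith
  have hid : (t * X1 - X2) * b' + (t * Y1 + Y2) * b = (t - s) * F := by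
    rw [hb, hb', hFdef]; ring
  have hw' : (t * X1 - X2) * b' ≤ (t * Y1 + Y2) * b := by
    have := mul_le_mul_of_nonneg_left hw hs0.le
    have e1 : s * ((t * X1 - X2) * (Y1 + t * Y2)) = (t * X1 - X2) * b' := by
      rw [hb']; linear_combination ((t * X1 - X2) * Y2) * hst
    have e2 : s * ((t * Y1 + Y2) * (t * X2 - X1)) = (t * Y1 + Y2) * b := by
      rw [hb]; linear_combination ((t * Y1 + Y2) * X2) * hst
    linarith
  have hb0 : 0 < b := by
    have := mul_pos hc hF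
    by_contra hcon
    push Not at hcon
    nlinarith
  obtain ⟨s1, hC1, hI1⟩ := side_class h1 (al := F) hn1 ht hlam hb0 hb'0 hF
    (by rw [← hs, ← hid]; linarith)
    (by
      have : F / t = s * F := by rw [hs]; ring
      rw [this, hb, hb', hFdef]; linarith)
  have hbb : 0 < b * b' := mul_pos hb0 hb'0
  obtain ⟨s2, hC2, hI2⟩ := side_class h2 (al := 2 * t * (b * b') / (t - s)) hn2 ht hlam hb0 hb'0
    (by positivity)
    (by
      rw [← hs, mul_div_cancel₀ _ hc.ne']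
      have e1 : t * X2 - X1 = t * b := by rw [hb]; linear_combination X1 * hst
      have e2 : t * Y2 + Y1 = t * b' := by rw [hb']; linear_combination (-Y1) * hst
      have : t * (b' * X2 + b * Y2) - (b' * X1 + b * -Y1)
          = b' * (t * X2 - X1) + b * (t * Y2 + Y1) := by ring
      rw [this, e1, e2]; linarith)
    (by
      have e : 2 * t * (b * b') / (t - s) / t = 2 * (b * b') / (t - s) := by field_simp
      rw [e, le_div_iff₀ hc]
      have e1 : (t - s) * X1 = (t * X1 - X2) + b := by rw [hb]; ring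
      have e2 : (t - s) * Y1 = (t * Y1 + Y2) - b' := by rw [hb']; ring
      have : (b' * X1 + b * -Y1) * (t - s) = b' * ((t - s) * X1) - b * ((t - s) * Y1) := by ring
      rw [this, e1, e2]; linarith)
  refine ⟨s1, s2, hC1, hC2, ?_⟩
  set A1 := (t ^ Fintype.card W1) ^ 2 * s1 with hA1
  set A2 := (t ^ Fintype.card W2) ^ 2 * s2 with hA2
  set dl := lam - mu with hdl
  have hdl0 : 0 < dl := by have := h1.nu_lt; linarith
  have g1 : F ≤ dl * ∑ v, x1 v * y1 v := by
    rw [← hF1]; exact mul_le_mul_of_nonneg_right (by linarith) hW1.le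
  have g2 : F ≤ dl * ∑ v, x2 v * y2 v := by
    have : F = X1 * Y2 - X2 * -Y1 := by rw [hFdef]; ring
    rw [this, ← hF2]; exact mul_le_mul_of_nonneg_right (by linarith) hW2.le
  have k1 : 4 * (b * b') ≤ dl * F * A1 := by
    have a1 := mul_le_mul_of_nonneg_left g1 (show 0 ≤ 4 * (b * b') by positivity)
    have a2 := mul_le_mul_of_nonneg_left hI1 hdl0.le
    have a3 : 4 * (b * b') * F ≤ dl * F * A1 * F := by rw [hA1]; linarith
    exact le_of_mul_le_mul_right a3 hF
  have k2 : (t - s) ^ 2 * F ≤ dl * t ^ 2 * (b * b') * A2 := by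
    have a1 := mul_le_mul_of_nonneg_left g2 (show 0 ≤ 4 * (b * b') by positivity)
    have a2 := mul_le_mul_of_nonneg_left hI2 hdl0.le
    have a3 : 4 * (b * b') * F ≤ dl * ((2 * t * (b * b') / (t - s)) ^ 2 * A2) := by
      rw [hA2]; linarith
    have a4 := mul_le_mul_of_nonneg_left a3 (sq_nonneg (t - s))
    have a5 : (t - s) ^ 2 * (dl * ((2 * t * (b * b') / (t - s)) ^ 2 * A2))
        = dl * t ^ 2 * (b * b') * A2 * (4 * (b * b')) := by field_simp; ring
    rw [a5] at a4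
    exact le_of_mul_le_mul_right (by linarith) (show 0 < 4 * (b * b') by positivity)
  have k3 := mul_le_mul k1 k2 (by positivity) (le_trans (by positivity) k1)
  have e : dl ^ 2 * (t ^ (Fintype.card W1 + Fintype.card W2 + 1)) ^ 2 * (s1 * s2)
      = dl ^ 2 * t ^ 2 * A1 * A2 := by rw [hA1, hA2]; ring
  rw [e]
  exact le_of_mul_le_mul_right (by linarith) (mul_pos hbb hF)

theorem main_ineq {W1 W2 : Type} [Fintype W1] [Fintype W2] {K1 : SimpleGraph W1}
    {K2 : SimpleGraph W2} {u1 : W1} {u2 : W2} {lam mu nu1 nu2 t : ℝ} {x1 y1 : W1 → ℝ}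
    {x2 y2 : W2 → ℝ} (h1 : Side K1 u1 lam nu1 x1 y1 (x2 u2) (-y2 u2))
    (h2 : Side K2 u2 lam nu2 x2 y2 (x1 u1) (-y1 u1)) (hn1 : mu ≤ nu1) (hn2 : mu ≤ nu2)
    (ht : 1 < t) (hlam : lam ≤ t + 1 / t) :
    ∃ s1 s2, Cls (Fintype.card W1) lam mu t s1 (x1 u1) (y1 u1) (x2 u2) (-y2 u2) ∧
      Cls (Fintype.card W2) lam mu t s2 (x2 u2) (y2 u2) (x1 u1) (-y1 u1) ∧
      4 * (t - 1 / t) ^ 2
        ≤ (lam - mu) ^ 2 * (t ^ (Fintype.card W1 + Fintype.card W2 + 1)) ^ 2 * (s1 * s2) := by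
  rcases le_total ((t * x1 u1 - x2 u2) * (y1 u1 + t * y2 u2))
    ((t * y1 u1 + y2 u2) * (t * x2 u2 - x1 u1)) with h | h
  · exact main_ineq_aux h1 h2 hn1 hn2 ht hlam h
  · obtain ⟨s2, s1, a, b, c⟩ := main_ineq_aux h2 h1 hn2 hn1 ht hlam (by linarith)
    refine ⟨s1, s2, b, a, ?_⟩
    rwa [add_comm (Fintype.card W1), mul_comm s1]

end Pool.Agent.Lib.MP_5ca2c7_co
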