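import Pool.Agent.Lib.MP_5ca2c7_co.Basic

/-!
Explicit upper bounds for the gap of double kites.
-/

set_option autoImplicit false

namespace Pool.Agent.Lib.MP_5ca2c7_co

open Finset

/-- The decay rate along a long path attached to a clique on `r` vertices. -/
noncomputable def tauR (r : ℕ) : ℝ := (((r : ℝ) - 2) + Real.sqrt (((r : ℝ) - 2) * (r + 2))) / 2

lemma tauR_sq {r : ℕ} (hr : 2 ≤ r) : tauR r ^ 2 = ((r : ℝ) - 2) * (tauR r + 1) := by
  have h : (2 : ℝ) ≤ r := by exact_mod_cast hr
  have h1 : Real.sqrt (((r : ℝ) - 2) * (r + 2)) ^ 2 = ((r : ℝ) - 2) * (r + 2) :=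
    Real.sq_sqrt (mul_nonneg (by linarith) (by linarith))
  unfold tauR
  linear_combination (1 / 4 : ℝ) * h1

lemma tauR_ge {r : ℕ} (hr : 2 ≤ r) : (r : ℝ) - 2 ≤ tauR r := by
  have h : (2 : ℝ) ≤ r := by exact_mod_cast hr
  have h1 : (r : ℝ) - 2 ≤ Real.sqrt (((r : ℝ) - 2) * (r + 2)) :=
    Real.le_sqrt_of_sq_le (by nlinarith)
  unfold tauR
  linarith

lemma le_tauR {r : ℕ} (hr : 2 ≤ r) {t : ℝ} (ht : t ^ 2 ≤ ((r : ℝ) - 2) * (t + 1)) :
    t ≤ tauR r := by
  have h : (2 : ℝ) ≤ r := by exact_mod_cast hr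
  have h1 := tauR_sq hr
  have h2 := tauR_ge hr
  by_contra hc
  push Not at hc
  nlinarith

lemma tauR_le {r : ℕ} (hr : 2 ≤ r) {t : ℝ} (ht0 : (r : ℝ) - 2 ≤ t)
    (ht : ((r : ℝ) - 2) * (t + 1) ≤ t ^ 2) : tauR r ≤ t := by
  have h : (2 : ℝ) ≤ r := by exact_mod_cast hr
  have h1 := tauR_sq hr
  have h2 := tauR_ge hr
  by_contra hc
  push Not at hc
  nlinarith

lemma one_lt_tauR {r : ℕ} (hr : 3 ≤ r) : 1 < tauR r := by
  have h : (3 : ℝ) ≤ r := by exact_mod_cast hr
  have : (3 / 2 : ℝ) ≤ tauR r := le_tauR (by omega) (by nlinarith)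
  linarith

/-- The bound for the gap of `DK(r,s)`. -/
noncomputable def dkB (r s : ℕ) : ℝ :=
  2 * (1 + 3 / (5 * tauR r ^ 3)) * (tauR r - 1 / tauR r) /
    ((1 + tauR r ^ 2 / ((r : ℝ) - 1)) * tauR r ^ (s + 1))

theorem prof_explicit {r s : ℕ} (hr : 4 ≤ r) (hs : 2 ≤ s) : Prof r s (dkB r s) := by
  have hr' : (4 : ℝ) ≤ r := by exact_mod_cast hr
  have ha2 := tauR_sq (show 2 ≤ r by omega)
  have ha0 := tauR_ge (show 2 ≤ r by omega)
  unfold dkB
  set a := tauR r with ha
  have ha1 : 2 ≤ a := by linarith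
  have hapos : 0 < a := by linarith
  set q := 1 / a with hq
  have hqa : q * a = 1 := by rw [hq]; field_simp
  have hq0 : 0 < q := by positivity
  have hq1 : q ≤ 1 / 2 := by rw [hq]; exact one_div_le_one_div_of_le (by norm_num) ha1
  set v := q ^ (s + 1) with hv
  have hv0 : 0 < v := by positivity
  have hv3 : v ≤ q ^ 3 := pow_le_pow_of_le_one hq0.le (by linarith) (by omega)
  have hq3 : q ^ 3 ≤ 1 / 8 := by
    calc q ^ 3 ≤ (1 / 2) ^ 3 := pow_le_pow_left₀ hq0.le hq1 3
      _ = 1 / 8 := by norm_num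
  have hv1 : v ≤ 1 / 8 := hv3.trans hq3
  have hqs : q ^ s = v * a := by rw [hv, pow_succ, mul_assoc, hqa, mul_one]
  have hr1 : (0 : ℝ) < r - 1 := by linarith
  set c0 := a / ((r : ℝ) - 1) with hc0
  have hc0pos : 0 < c0 := by positivity
  have hc1 : ((r : ℝ) - 1) * c0 = a := by rw [hc0]; field_simp
  have hc2 : (a + q - r + 2) * c0 = 1 := by
    have : (a + q - r + 2) * a = r - 1 := by linear_combination ha2 + hqa
    rw [hc0, ← mul_div_assoc, this]; field_simp
  set S := 1 + a * c0 with hS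
  have hS' : 1 + a ^ 2 / ((r : ℝ) - 1) = S := by rw [hS, hc0]; ring
  have hSpos : 0 < S := by positivity
  set e := v * (a - q) / S with he
  have haq : 0 < a - q := by linarith
  have he0 : 0 < e := by positivity
  have heS : e * S = v * (a - q) := by rw [he]; field_simp
  set g := c0 * (1 + c0 * q) / S with hg
  have hg0 : 0 < g := by positivity
  have hgS : g * S = c0 * (1 + c0 * q) := by rw [hg]; field_simp
  have hgc : g ≤ c0 := by
    have : c0 * (1 + c0 * q) ≤ c0 * S := by
      apply mul_le_mul_of_nonneg_left _ hc0pos.le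
      have := mul_le_mul_of_nonneg_left (show q ≤ a by linarith) hc0pos.le
      rw [hS]; linarith
    rw [← hgS] at this
    exact le_of_mul_le_mul_right this hSpos
  have hroot : v * (((r : ℝ) - 1) * g - q) = e := by
    apply mul_right_cancel₀ hSpos.ne'
    rw [heS]
    have : ((r : ℝ) - 1) * (g * S) = a * (1 + c0 * q) := by rw [hgS, ← mul_assoc, hc1]
    rw [hS] at this ⊢
    linear_combination v * this
  have hcl : v * (1 - (a + q - r + 2) * g) = e * c0 := by
    apply mul_right_cancel₀ hSpos.ne'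
    have h1 : (a + q - r + 2) * (g * S) = 1 + c0 * q := by rw [hgS, ← mul_assoc, hc2, one_mul]
    have h2 : e * c0 * S = v * (a - q) * c0 := by rw [← heS]; ring
    rw [h2]
    rw [hS] at h1 ⊢
    linear_combination (-v) * h1
  have h1v : 0 < 1 - v := by linarith
  set e' := e / (1 - v) with he'
  have he'0 : 0 < e' := by positivity
  have he'1 : e' * (1 - v) = e := by rw [he']; field_simp
  have hrec : ∀ k : ℕ, q ^ k + q ^ (k + 2) = (a + q) * q ^ (k + 1) := fun k => by
    linear_combination (-(q ^ k)) * hqa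
  have hY1 : c0 * (1 - v) ≤ c0 - g * v := by
    have := mul_le_mul_of_nonneg_right hgc hv0.le
    linarith
  have hY1' : 0 < c0 - g * v := lt_of_lt_of_le (by positivity) hY1
  have hX0 : q ^ 0 + q ^ (s + 1 - 0) = 1 + v := by simp [hv]
  have hX1 : q ^ 1 + q ^ (s + 1 - 1) = q + v * a := by simp [hqs]
  have hXs : q ^ s + q ^ (s + 1 - s) = q + v * a := by
    rw [hqs, show s + 1 - s = 1 by omega]; ring
  have hXL : q ^ (s + 1) + q ^ (s + 1 - (s + 1)) = 1 + v := by simp [hv]; ring
  have hY0 : q ^ 0 - q ^ (s + 1 - 0) = 1 - v := by simp [hv]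
  have hY1e : q ^ 1 - q ^ (s + 1 - 1) = q - v * a := by simp [hqs]
  have hYs : q ^ s - q ^ (s + 1 - s) = -(q - v * a) := by
    rw [hqs, show s + 1 - s = 1 by omega]; ring
  have hYL : q ^ (s + 1) - q ^ (s + 1 - (s + 1)) = -(1 - v) := by simp [hv]
  have k1 : ((r : ℝ) - 2) * (c0 + g * v) + (1 + v) ≤ (a + q + e) * (c0 + g * v) := by
    have := mul_pos he0 (mul_pos hg0 hv0)
    linarith
  have k2 : ((r : ℝ) - 1) * (c0 + g * v) + (q + v * a) ≤ (a + q + e) * (1 + v) := by
    have := mul_pos he0 hv0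
    linarith
  have k3 : (a + q - e') * (c0 - g * v) ≤ ((r : ℝ) - 2) * (c0 - g * v) + (1 - v) := by
    have := mul_le_mul_of_nonneg_left hY1 he'0.le
    have h2 : e' * (c0 * (1 - v)) = e * c0 := by rw [← he'1]; ring
    linarith
  have k4 : (a + q - e') * (1 - v) ≤ ((r : ℝ) - 1) * (c0 - g * v) + (q - v * a) := by
    linarith
  refine ⟨a + q + e, a + q - e', fun k => q ^ k + q ^ (s + 1 - k),
    fun k => q ^ k - q ^ (s + 1 - k), c0 + g * v, c0 + g * v, c0 - g * v, -(c0 - g * v), ?_,
    ⟨fun k _ => by positivity, by positivity, by positivity, fun _ => ?_, fun _ => ?_, ?_, ?_,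
      fun k hk => ?_⟩,
    ⟨fun _ => ?_, fun _ => ?_, ?_, ?_, fun k hk => ?_, Or.inl ?_, Or.inl ?_⟩⟩
  · rw [hS']
    have h1 : 2 * (1 + 3 / (5 * a ^ 3)) * (a - q) / (S * a ^ (s + 1))
        = 2 * (1 + 3 / 5 * q ^ 3) * e := by
      rw [he, hv, hq, one_div_pow, one_div_pow]; field_simp
    rw [h1]
    have h2 : e' ≤ (1 + 6 / 5 * q ^ 3) * e := by
      rw [he', div_le_iff₀ h1v]
      have h3 : 1 ≤ (1 + 6 / 5 * q ^ 3) * (1 - v) := by
        have h4 : 0 < q ^ 3 := by positivity
        have h5 : (1 + 6 / 5 * q ^ 3) * (1 - q ^ 3) ≤ (1 + 6 / 5 * q ^ 3) * (1 - v) :=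
          mul_le_mul_of_nonneg_left (by linarith) (by positivity)
        have h6 := mul_le_mul_of_nonneg_left hq3 h4.le
        linarith
      have := mul_le_mul_of_nonneg_left h3 he0.le
      linarith
    linarith
  · rw [hX0]; exact k1
  · rw [hXL]; exact k1
  · rw [hX0, hX1]; exact k2
  · rw [hXL, hXs]; exact k2
  · obtain ⟨l, rfl⟩ : ∃ l, s = k + 1 + l := ⟨s - k - 1, by omega⟩
    rw [show k + 1 + l + 1 - k = l + 2 by omega, show k + 1 + l + 1 - (k + 2) = l by omega,
      show k + 1 + l + 1 - (k + 1) = l + 1 by omega]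
    have h1 := hrec k
    have h2 := hrec l
    have h3 : 0 < e * (q ^ (k + 1) + q ^ (l + 1)) := by positivity
    linarith
  · rw [hY0]
    have := mul_le_mul_of_nonneg_left k3 hY1'.le
    linarith
  · rw [hYL]
    have := mul_le_mul_of_nonneg_left k3 hY1'.le
    linarith
  · rw [hY0, hY1e]
    have := mul_le_mul_of_nonneg_left k4 h1v.le
    linarith
  · rw [hYL, hYs]
    have := mul_le_mul_of_nonneg_left k4 h1v.le
    linarith
  · obtain ⟨l, rfl⟩ : ∃ l, s = k + 1 + l := ⟨s - k - 1, by omega⟩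
    rw [show k + 1 + l + 1 - k = l + 2 by omega, show k + 1 + l + 1 - (k + 2) = l by omega,
      show k + 1 + l + 1 - (k + 1) = l + 1 by omega]
    have h1 := hrec k
    have h2 := hrec l
    have h3 : q ^ k - q ^ (l + 2) + (q ^ (k + 2) - q ^ l)
        = (a + q) * (q ^ (k + 1) - q ^ (l + 1)) := by linarith
    rw [h3]
    have h4 := mul_nonneg he'0.le (sq_nonneg (q ^ (k + 1) - q ^ (l + 1)))
    linarith
  · rw [hY0]; exact h1v
  · rw [hYL]; linarith

lemma prof_small_2 : Prof 1 0 (2) := by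
  refine ⟨1, -1, fun k => ([10000, 10000] : List ℝ).getD k 0,
    fun k => ([10000, -10000] : List ℝ).getD k 0, 1, 1, 0, -0, by norm_num,
    ⟨fun k hk => ?_, by norm_num, by norm_num, by norm_num, by norm_num, by norm_num, by norm_num,
      fun k hk => ?_⟩,
    ⟨by norm_num, by norm_num, by norm_num, by norm_num, fun k hk => ?_, by norm_num,
      by norm_num⟩⟩
  · interval_cases k <;> norm_num
  · omega
  · omega

lemma prof_small_3 : Prof 1 1 (71 / 50) := by
  refine ⟨14143 / 10000, 0, fun k => ([7071, 10000, 7071] : List ℝ).getD k 0,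
    fun k => ([10000, 0, -10000] : List ℝ).getD k 0, 1, 1, 0, -0, by norm_num,
    ⟨fun k hk => ?_, by norm_num, by norm_num, by norm_num, by norm_num, by norm_num, by norm_num,
      fun k hk => ?_⟩,
    ⟨by norm_num, by norm_num, by norm_num, by norm_num, fun k hk => ?_, by norm_num,
      by norm_num⟩⟩
  · interval_cases k <;> norm_num
  · interval_cases k <;> norm_num
  · interval_cases k <;> norm_num

lemma prof_small_4 : Prof 1 2 (101 / 100) := by
  refine ⟨8091 / 5000, 309 / 500, fun k => ([6180, 10000, 10000, 6180] : List ℝ).getD k 0,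
    fun k => ([10000, 6180, -6180, -10000] : List ℝ).getD k 0, 1, 1, 0, -0, by norm_num,
    ⟨fun k hk => ?_, by norm_num, by norm_num, by norm_num, by norm_num, by norm_num, by norm_num,
      fun k hk => ?_⟩,
    ⟨by norm_num, by norm_num, by norm_num, by norm_num, fun k hk => ?_, by norm_num,
      by norm_num⟩⟩
  · interval_cases k <;> norm_num
  · interval_cases k <;> norm_num
  · interval_cases k <;> norm_num

lemma prof_small_5 : Prof 1 3 (37 / 50) := by
  refine ⟨8661 / 5000, 1, fun k => ([5000, 8660, 10000, 8660, 5000] : List ℝ).getD k 0,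
    fun k => ([10000, 10000, 0, -10000, -10000] : List ℝ).getD k 0, 1, 1, 0, -0, by norm_num,
    ⟨fun k hk => ?_, by norm_num, by norm_num, by norm_num, by norm_num, by norm_num, by norm_num,
      fun k hk => ?_⟩,
    ⟨by norm_num, by norm_num, by norm_num, by norm_num, fun k hk => ?_, by norm_num,
      by norm_num⟩⟩
  · interval_cases k <;> norm_num
  · interval_cases k <;> norm_num
  · interval_cases k <;> norm_num

lemma prof_small_6 : Prof 1 4 (14 / 25) := by
  refine ⟨18021 / 10000, 12469 / 10000, fun k => ([4450, 8019, 10000, 10000, 8019, 4450] : List ℝ).getD k 0,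
    fun k => ([8019, 10000, 4450, -4450, -10000, -8019] : List ℝ).getD k 0, 1, 1, 0, -0, by norm_num,
    ⟨fun k hk => ?_, by norm_num, by norm_num, by norm_num, by norm_num, by norm_num, by norm_num,
      fun k hk => ?_⟩,
    ⟨by norm_num, by norm_num, by norm_num, by norm_num, fun k hk => ?_, by norm_num,
      by norm_num⟩⟩
  · interval_cases k <;> norm_num
  · interval_cases k <;> norm_num
  · interval_cases k <;> norm_num

lemma prof_small_7 : Prof 3 1 (7 / 20) := by
  refine ⟨23431 / 10000, 2, fun k => ([10000, 8536, 10000] : List ℝ).getD k 0,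
    fun k => ([10000, 0, -10000] : List ℝ).getD k 0, 7446, 7446, 10000, -10000, by norm_num,
    ⟨fun k hk => ?_, by norm_num, by norm_num, by norm_num, by norm_num, by norm_num, by norm_num,
      fun k hk => ?_⟩,
    ⟨by norm_num, by norm_num, by norm_num, by norm_num, fun k hk => ?_, by norm_num,
      by norm_num⟩⟩
  · interval_cases k <;> norm_num
  · interval_cases k <;> norm_num
  · interval_cases k <;> norm_num

lemma prof_small_8 : Prof 3 2 (19 / 100) := by
  refine ⟨5757 / 2500, 5287 / 2500, fun k => ([10000, 7676, 7676, 10000] : List ℝ).getD k 0,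
    fun k => ([10000, 3210, -3210, -10000] : List ℝ).getD k 0, 7676, 7676, 8969, -8969, by norm_num,
    ⟨fun k hk => ?_, by norm_num, by norm_num, by norm_num, by norm_num, by norm_num, by norm_num,
      fun k hk => ?_⟩,
    ⟨by norm_num, by norm_num, by norm_num, by norm_num, fun k hk => ?_, by norm_num,
      by norm_num⟩⟩
  · interval_cases k <;> norm_num
  · interval_cases k <;> norm_num
  · interval_cases k <;> norm_num

lemma prof_small_9 : Prof 3 3 (11 / 100) := by
  refine ⟨22787 / 10000, 217 / 100, fun k => ([10000, 7140, 6267, 7140, 10000] : List ℝ).getD k 0,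
    fun k => ([10000, 4608, 0, -4608, -10000] : List ℝ).getD k 0, 7822, 7822, 8546, -8546, by norm_num,
    ⟨fun k hk => ?_, by norm_num, by norm_num, by norm_num, by norm_num, by norm_num, by norm_num,
      fun k hk => ?_⟩,
    ⟨by norm_num, by norm_num, by norm_num, by norm_num, fun k hk => ?_, by norm_num,
      by norm_num⟩⟩
  · interval_cases k <;> norm_num
  · interval_cases k <;> norm_num
  · interval_cases k <;> norm_num

lemma prof_small_10 : Prof 4 2 (13 / 200) := by
  refine ⟨15643 / 5000, 30643 / 10000, fun k => ([10000, 4698, 4698, 10000] : List ℝ).getD k 0,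
    fun k => ([10000, 2460, -2460, -10000] : List ℝ).getD k 0, 8862, 8862, 9395, -9395, by norm_num,
    ⟨fun k hk => ?_, by norm_num, by norm_num, by norm_num, by norm_num, by norm_num, by norm_num,
      fun k hk => ?_⟩,
    ⟨by norm_num, by norm_num, by norm_num, by norm_num, fun k hk => ?_, by norm_num,
      by norm_num⟩⟩
  · interval_cases k <;> norm_num
  · interval_cases k <;> norm_num
  · interval_cases k <;> norm_num

end Pool.Agent.Lib.MP_5ca2c7_co
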