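import Mathlib

namespace Pool.Agent.Lib.MP_5ca2c7_co

open Classical in
/-- The adjacency eigenvalues with multiplicity (roots of the characteristic polynomial),
in decreasing order. -/
noncomputable def spec {V : Type} [Fintype V] (G : SimpleGraph V) : List ℝ :=
  (G.adjMatrix ℝ).charpoly.roots.sort (· ≥ ·)

/-- The spectral gap: largest minus second largest eigenvalue. -/
noncomputable def gap {V : Type} [Fintype V] (G : SimpleGraph V) : ℝ :=
  (spec G).getD 0 0 - (spec G).getD 1 0

/-- The double kite: cliques on `0..r-1` and on `r+s..2r+s-1`, and the path `r-1, r, ..., r+s`. -/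
def kite (r s : ℕ) : SimpleGraph (Fin (2 * r + s)) :=
  SimpleGraph.fromRel fun i j => (i.val < r ∧ j.val < r) ∨ (r + s ≤ i.val ∧ r + s ≤ j.val) ∨
    (r ≤ j.val ∧ j.val ≤ r + s ∧ j.val = i.val + 1)

end Pool.Agent.Lib.MP_5ca2c7_co
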