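import Pool.Agent.Lib.MP_5ca2c7_co.Dumbbell
import Pool.Agent.Lib.MP_5ca2c7_co.DK

/-!
From a connected graph to a dumbbell, and the choice of the double kite.
-/

set_option autoImplicit false

namespace Pool.Agent.Lib.MP_5ca2c7_co

open Finset Classical

lemma sign_cases {V : Type} [Fintype V] {G : SimpleGraph V} (hG : G.Connected) {mu : ℝ}
    {y : V → ℝ} (hy : ∀ v, nb G y v = mu * y v) (hne : ∃ v, y v ≠ 0) :
    ((∃ v, 0 < y v) ∧ ∃ v, y v < 0) ∨ (∀ v, 0 < y v) ∨ ∀ v, y v < 0 := by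
  obtain ⟨v0, hv0⟩ := hne
  by_cases hp : ∃ v, 0 < y v
  · by_cases hn : ∃ v, y v < 0
    · exact Or.inl ⟨hp, hn⟩
    · push Not at hn
      exact Or.inr (Or.inl (pos_of_conn hG hn hp fun v hv => by rw [hy, hv, mul_zero]))
  · push Not at hp
    right; right
    have h1 : ∀ v, nb G (fun w => -1 * y w) v = mu * (-1 * y v) := fun v => by
      rw [nb_smul, hy]; ring
    have := pos_of_conn hG (f := fun w => -1 * y w) (fun v => by have := hp v; linarith)
      ⟨v0, by have := lt_of_le_of_ne (hp v0) hv0; linarith⟩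
      (fun v hv => by rw [h1, hv, mul_zero])
    intro v
    have := this v
    linarith

theorem dumb_of_graph {n : ℕ} {G : SimpleGraph (Fin n)} [DecidableRel G.Adj]
    (hG : (G.adjMatrix ℝ).IsHermitian) (hc : G.Connected) {c d : ℝ} {i j : Fin n} (hij : i ≠ j)
    (hi : hG.eigenvalues i = c) (hj : hG.eigenvalues j = d) (hle : ∀ k, hG.eigenvalues k ≤ c) :
    ∃ lam, lam ≤ c ∧ Dumb n lam d := by
  have hev : ∀ k v, nb G (fun w => hG.eigenvectorBasis k w) v
      = hG.eigenvalues k * hG.eigenvectorBasis k v := fun k v => by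
    rw [← adj_mul_sum]; exact eig_vec hG k v
  have hform : ∀ f : Fin n → ℝ, ∑ v, f v * nb G f v ≤ c * ∑ v, f v * f v := fun f => by
    simp_rw [← adj_mul_sum]; exact form_le hG hle f
  have fin : ∀ k, hG.eigenvalues k = d → ((∃ v, 0 < hG.eigenvectorBasis k v) ∧
      ∃ v, hG.eigenvectorBasis k v < 0) → ∃ lam, lam ≤ c ∧ Dumb n lam d := fun k hk h => by
    have := exists_dumbbell hc hform (y0 := fun w => hG.eigenvectorBasis k w) (mu := d)
      (fun v => by rw [hev, hk]) h.1 h.2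
    rwa [Fintype.card_fin] at this
  have orth := eig_orth hG i j
  rw [if_neg hij] at orth
  have : Nonempty (Fin n) := ⟨i⟩
  have top : ∀ z : Fin n → ℝ, (∀ v, 0 < z v) → (∀ v, nb G z v = d * z v) →
      ∑ v, hG.eigenvectorBasis i v * z v = 0 → ∃ lam, lam ≤ c ∧ Dumb n lam d := by
    intro z hz hze ho
    have h1 : c ≤ d := by
      rw [← hi]
      exact eig_le_of_super hG (adj_nonneg G) z hz (fun v => by rw [adj_mul_sum, hze]) i
    have h2 : d ≤ c := hj ▸ hle j
    refine fin i (by linarith) ?_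
    rcases sign_cases hc (hev i) (eig_ne_zero hG i) with h | h | h
    · exact h
    · have : 0 < ∑ v, hG.eigenvectorBasis i v * z v :=
        Finset.sum_pos (fun v _ => mul_pos (h v) (hz v)) Finset.univ_nonempty
      linarith
    · have : 0 < ∑ v, -(hG.eigenvectorBasis i v * z v) :=
        Finset.sum_pos (fun v _ => by have := mul_neg_of_neg_of_pos (h v) (hz v); linarith)
          Finset.univ_nonempty
      rw [Finset.sum_neg_distrib] at this
      linarith
  rcases sign_cases hc (hev j) (eig_ne_zero hG j) with h | h | h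
  · exact fin j hj h
  · exact top _ h (fun v => by rw [hev, hj]) orth
  · refine top (fun w => -1 * hG.eigenvectorBasis j w) (fun v => by have := h v; linarith)
      (fun v => by rw [nb_smul, hev, hj]; ring) ?_
    have : ∑ v, hG.eigenvectorBasis i v * (-1 * hG.eigenvectorBasis j v)
        = -1 * ∑ v, hG.eigenvectorBasis i v * hG.eigenvectorBasis j v := by
      rw [Finset.mul_sum]; exact Finset.sum_congr rfl fun v _ => by ring
    rw [this, orth, mul_zero]

/-- The two largest values of a finite family. -/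
def TopTwo {I : Type} (e : I → ℝ) (a b : ℝ) : Prop :=
  ∃ i j : I, i ≠ j ∧ e i = a ∧ e j = b ∧ (∀ k, e k ≤ a) ∧ (∀ k, k ≠ i → e k ≤ b)

lemma TopTwo.unique {I : Type} {e : I → ℝ} {a b a' b' : ℝ} (h : TopTwo e a b)
    (h' : TopTwo e a' b') : a = a' ∧ b = b' := by
  obtain ⟨i, j, hij, hi, hj, h1, h2⟩ := h
  obtain ⟨i', j', hij', hi', hj', h1', h2'⟩ := h'
  have e1 : a = a' := le_antisymm (hi ▸ h1' i) (hi' ▸ h1 i')
  refine ⟨e1, le_antisymm ?_ ?_⟩
  · by_cases h : j = i'
    · have := h2' i (h ▸ hij)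
      have := h1 j
      linarith
    · exact hj ▸ h2' j h
  · by_cases h : j' = i
    · have := h2 i' (h ▸ hij')
      have := h1' j'
      linarith
    · exact hj' ▸ h2 j' h

lemma choose_min {I : Type} {n : ℕ} (hn : 2 ≤ n) (e : ℕ → I → ℝ) :
    ∃ r, 1 ≤ r ∧ 2 * r ≤ n ∧ ∀ a b, TopTwo (e r) a b → ∀ r', 1 ≤ r' → 2 * r' ≤ n →
      ∃ a' b', TopTwo (e r') a' b' ∧ a - b ≤ a' - b' := by
  by_cases h : ∀ r, 1 ≤ r → 2 * r ≤ n → ∃ p : ℝ × ℝ, TopTwo (e r) p.1 p.2
  · choose! p hp using h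
    obtain ⟨r, hr, hmin⟩ := Finset.exists_min_image ((Finset.range (n + 1)).filter
      fun r => 1 ≤ r ∧ 2 * r ≤ n) (fun r => (p r).1 - (p r).2) ⟨1, by simp; omega⟩
    simp only [Finset.mem_filter, Finset.mem_range] at hr hmin
    refine ⟨r, hr.2.1, hr.2.2, fun a b hab r' h1 h2 => ⟨_, _, hp r' h1 h2, ?_⟩⟩
    obtain ⟨rfl, rfl⟩ := hab.unique (hp r hr.2.1 hr.2.2)
    exact hmin r' ⟨by omega, h1, h2⟩
  · push Not at h
    obtain ⟨r, h1, h2, h3⟩ := h
    exact ⟨r, h1, h2, fun a b hab => (h3 (a, b) hab).elim⟩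

end Pool.Agent.Lib.MP_5ca2c7_co
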