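import Pool.Agent.Lib.MP_5ca2c7_co.GapDefs
import Pool.Agent.S09001

namespace Pool.Agent.Lib.MP_5ca2c7_co

open Classical

lemma spec_top {n : ℕ} (hn : 2 ≤ n) (G : SimpleGraph (Fin n)) (inst : DecidableRel G.Adj)
    (hG : (G.adjMatrix ℝ).IsHermitian) :
    ∃ i j : Fin n, i ≠ j ∧ hG.eigenvalues i = (spec G).getD 0 0 ∧
      hG.eigenvalues j = (spec G).getD 1 0 ∧ (∀ k, hG.eigenvalues k ≤ (spec G).getD 0 0) ∧
      (∀ k, k ≠ i → hG.eigenvalues k ≤ (spec G).getD 1 0) := by
  have h1 := hG.sort_roots_charpoly_eq_eigenvalues₀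
  have h2 : spec G = List.ofFn hG.eigenvalues₀ := by
    rw [← h1]
    unfold spec
    have e1 : (fun a b => propDecidable (G.Adj a b)) = inst := Subsingleton.elim _ _
    have e2 : (fun a b : Fin n => propDecidable (a = b)) = instDecidableEqFin n :=
      Subsingleton.elim _ _
    rw [e1, e2]
    simp
  have hc : 2 ≤ Fintype.card (Fin n) := by simpa using hn
  let e : Fin (Fintype.card (Fin n)) ≃ Fin n := Fintype.equivOfCardEq (Fintype.card_fin _)
  have he : ∀ k, hG.eigenvalues k = hG.eigenvalues₀ (e.symm k) := fun k => rfl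
  have g0 : (spec G).getD 0 0 = hG.eigenvalues₀ ⟨0, by omega⟩ := by
    rw [h2, List.getD_eq_getElem _ _ (by simp; omega), List.getElem_ofFn]
  have g1 : (spec G).getD 1 0 = hG.eigenvalues₀ ⟨1, by omega⟩ := by
    rw [h2, List.getD_eq_getElem _ _ (by simp; omega), List.getElem_ofFn]
  refine ⟨e ⟨0, by omega⟩, e ⟨1, by omega⟩, by simp, by rw [he, g0, e.symm_apply_apply],
    by rw [he, g1, e.symm_apply_apply], fun k => ?_, fun k hk => ?_⟩
  · rw [he, g0]; exact hG.eigenvalues₀_antitone (Fin.le_def.2 (Nat.zero_le _))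
  · rw [he, g1]
    refine hG.eigenvalues₀_antitone (Fin.le_def.2 ?_)
    have : e.symm k ≠ ⟨0, by omega⟩ := fun h => hk (by rw [← h, e.apply_symm_apply])
    have : (e.symm k).val ≠ 0 := fun h => this (Fin.ext h)
    simp only; omega

lemma spec_comap {V : Type} [Fintype V] {n : ℕ} (e : Fin n ≃ V) (G : SimpleGraph V) :
    spec (G.comap e) = spec G := by
  unfold spec
  have : @SimpleGraph.adjMatrix ℝ _ (G.comap e) (fun a b => propDecidable _) _ _ = Matrix.reindex e.symm e.symm (G.adjMatrix ℝ) := by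
    ext i j; simp [SimpleGraph.adjMatrix_apply]
  rw [this]
  have h := Matrix.charpoly_reindex e.symm (G.adjMatrix ℝ)
  have e2 : (fun a b : Fin n => propDecidable (a = b)) = instDecidableEqFin n :=
    Subsingleton.elim _ _
  rw [e2, h]

theorem gap_main (n : ℕ) (hn : 2 ≤ n) : ∃ r s : ℕ, 1 ≤ r ∧ 2 * r + s = n ∧
    ∀ (V : Type) [Fintype V] (G : SimpleGraph V), Fintype.card V = n → G.Connected →
      gap (kite r s) ≤ gap G := by
  obtain ⟨r, s, h1, h2, h⟩ := Pool.Agent.S09001.result n hn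
  refine ⟨r, s, h1, h2, fun V _ G hV hG => ?_⟩
  subst h2
  let e : Fin (2 * r + s) ≃ V := (Fintype.equivFinOfCardEq hV).symm
  have hk : kite r s = SimpleGraph.fromRel (fun i j : Fin (2 * r + s) =>
      (i.val < r ∧ j.val < r) ∨ (r + s ≤ i.val ∧ r + s ≤ j.val) ∨ i.val + 1 = j.val) := by
    ext i j
    simp only [kite, SimpleGraph.fromRel_adj]
    refine and_congr_right fun _ => ?_
    omega
  have hc : (G.comap e).Connected := (SimpleGraph.Iso.comap e G).connected_iff.2 hG
  have := h (SimpleGraph.isHermitian_adjMatrix _ _) (G.comap e)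
    (SimpleGraph.isHermitian_adjMatrix _ _) hc _ _ _ _ (spec_top hn _ _ _) (spec_top hn _ _ _)
  rw [spec_comap, ← hk] at this
  exact this

end Pool.Agent.Lib.MP_5ca2c7_co
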