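import Pool.Agent.Lib.MP_5ca2c7_co.Check

/-!
The numerical inequality for large eigenvalues: general tools.
-/

set_option autoImplicit false

namespace Pool.Agent.Lib.MP_5ca2c7_co

open Finset

/-- The constant in the bound for the gap of `DK(r,s)`. -/
noncomputable def dkC (r : ℕ) : ℝ :=
  2 * (1 + 3 / (5 * tauR r ^ 3)) * (tauR r - 1 / tauR r) / (1 + tauR r ^ 2 / ((r : ℝ) - 1))

lemma interp {a b t uA uB p q U V : ℝ} (j : ℕ) (ha : 0 < a) (ht : 0 < t) (hb : 0 < b)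
    (hp : 0 ≤ p) (hq : 0 ≤ q)
    (hta : t - a ≤ p * a) (htb : q * b ≤ b - t) (hA : uA ≤ Real.exp (-V))
    (hB : uB ≤ Real.exp U) (hUV : U * p ≤ V * q) (h4 : 4 * p ≤ V) :
    uA * t ^ j ≤ a ^ j ∨ (5 ≤ j ∧ uB * t ^ j ≤ b ^ j) := by
  by_cases h : j * p ≤ V
  · left
    have h1 : t ≤ a * Real.exp p := by
      have := mul_le_mul_of_nonneg_left (Real.add_one_le_exp p) ha.le
      linarith
    have h2 : t ^ j ≤ a ^ j * Real.exp (j * p) := by
      rw [Real.exp_nat_mul, ← mul_pow]; gcongr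
    have h3 : Real.exp (-V) * Real.exp (j * p) ≤ 1 := by
      rw [← Real.exp_add, Real.exp_le_one_iff]; linarith
    calc uA * t ^ j ≤ Real.exp (-V) * (a ^ j * Real.exp (j * p)) :=
          mul_le_mul hA h2 (by positivity) (by positivity)
      _ = a ^ j * (Real.exp (-V) * Real.exp (j * p)) := by ring
      _ ≤ a ^ j * 1 := by gcongr
      _ = a ^ j := mul_one _
  · right
    push Not at h
    have hp0 : 0 < p := by
      rcases hp.eq_or_lt with h0 | h0
      · rw [← h0] at h h4; linarith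
      · exact h0
    constructor
    · have : (4 : ℝ) < j := by
        by_contra hc
        push Not at hc
        nlinarith
      exact_mod_cast this
    · have h0 : U ≤ j * q := by
        have := mul_le_mul_of_nonneg_right h.le hq
        have : U * p ≤ j * q * p := by linarith
        exact le_of_mul_le_mul_right this hp0
      have h1 : t ≤ b * Real.exp (-q) := by
        have := mul_le_mul_of_nonneg_left (Real.add_one_le_exp (-q)) hb.le
        linarith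
      have h2 : t ^ j ≤ b ^ j * Real.exp (j * -q) := by
        rw [Real.exp_nat_mul, ← mul_pow]; gcongr
      have h3 : Real.exp U * Real.exp (j * -q) ≤ 1 := by
        rw [← Real.exp_add, Real.exp_le_one_iff]; linarith
      calc uB * t ^ j ≤ Real.exp U * (b ^ j * Real.exp (j * -q)) :=
            mul_le_mul hB h2 (by positivity) (by positivity)
        _ = b ^ j * (Real.exp U * Real.exp (j * -q)) := by ring
        _ ≤ b ^ j * 1 := by gcongr
        _ = b ^ j := mul_one _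

lemma dkC_pos {r : ℕ} (hr : 3 ≤ r) : 0 < dkC r := by
  have h1 := one_lt_tauR hr
  have hr' : (3 : ℝ) ≤ r := by exact_mod_cast hr
  have h2 : (0 : ℝ) < r - 1 := by linarith
  have h3 : 1 / tauR r < 1 := by rw [div_lt_one (by linarith)]; exact h1
  have h4 : 0 < tauR r - 1 / tauR r := by linarith
  unfold dkC
  positivity

lemma large_finish {n k : ℕ} {dl t s S p q U V : ℝ} (hs : Small n dl) (hdl : 0 < dl) (hk : 4 ≤ k)
    (hn : 2 * k + 2 ≤ n) (ht : 1 < t) (hS0 : 0 ≤ S) (hs0 : 0 ≤ s)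
    (hS : S * ((t ^ k) ^ 2) ^ 2 ≤ s ^ 2) (hp : 0 ≤ p) (hq : 0 ≤ q)
    (hta : t - tauR k ≤ p * tauR k) (htb : q * tauR (k + 1) ≤ tauR (k + 1) - t)
    (hA : s * dkC k ≤ Real.exp (-V) * (2 * (t - 1 / t)))
    (hB : s * (dkC (k + 1) * tauR (k + 1) ^ 2) ≤ Real.exp U * (2 * (t - 1 / t)))
    (hUV : U * p ≤ V * q) (h4 : 4 * p ≤ V) :
    dl ^ 2 * (t ^ (n + 1)) ^ 2 * S < 4 * (t - 1 / t) ^ 2 := by
  have ha := one_lt_tauR (show 3 ≤ k by omega)
  have hb := one_lt_tauR (show 3 ≤ k + 1 by omega)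
  have hCa := dkC_pos (show 3 ≤ k by omega)
  have hCb := dkC_pos (show 3 ≤ k + 1 by omega)
  have e1 : 1 / t < 1 := by rw [div_lt_one (by linarith)]; exact ht
  have hc : 0 < 2 * (t - 1 / t) := by linarith
  have ht0 : 0 < t := by linarith
  obtain ⟨j, hj⟩ : ∃ j, n + 1 = 2 * k + j := ⟨n + 1 - 2 * k, by omega⟩
  have key : ∀ G L : ℝ, 0 ≤ G → s * G / (2 * (t - 1 / t)) * t ^ j ≤ L →
      S * (t ^ (n + 1)) ^ 2 * G ^ 2 ≤ 4 * (t - 1 / t) ^ 2 * L ^ 2 := by
    intro G L hG h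
    rw [div_mul_eq_mul_div, div_le_iff₀ hc] at h
    have h1 : (s * G * t ^ j) ^ 2 ≤ (L * (2 * (t - 1 / t))) ^ 2 :=
      pow_le_pow_left₀ (by positivity) h 2
    have h2 := mul_le_mul_of_nonneg_right hS (show 0 ≤ (G * t ^ j) ^ 2 by positivity)
    have h3 : S * (t ^ (n + 1)) ^ 2 * G ^ 2 = S * ((t ^ k) ^ 2) ^ 2 * (G * t ^ j) ^ 2 := by
      rw [hj]; ring
    rw [h3]
    linarith
  rcases interp (uA := s * dkC k / (2 * (t - 1 / t)))
    (uB := s * (dkC (k + 1) * tauR (k + 1) ^ 2) / (2 * (t - 1 / t))) j (by linarith) ht0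
    (by linarith) hp hq hta htb (by rwa [div_le_iff₀ hc]) (by rwa [div_le_iff₀ hc]) hUV h4
    with h | ⟨h5, h⟩
  · refine finish hs hdl hk hn ht (by linarith) (dkB_le (by omega) ha le_rfl le_rfl) hS0 le_rfl ?_
    rw [show n + 1 - 2 * k = j by omega]
    exact key _ _ hCa.le h
  · refine finish (r := k + 1) hs hdl (by omega) (by omega) ht (by linarith)
      (dkB_le (by omega) hb le_rfl le_rfl) hS0 le_rfl ?_
    obtain ⟨i, rfl⟩ : ∃ i, j = i + 2 := ⟨j - 2, by omega⟩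
    rw [show n + 1 - 2 * (k + 1) = i by omega]
    refine key (dkC (k + 1)) _ hCb.le ?_
    have h2 : 0 < tauR (k + 1) ^ 2 := by positivity
    refine le_of_mul_le_mul_right ?_ h2
    rw [← pow_add]
    refine le_trans (le_of_eq ?_) h
    ring

lemma NK_cases {k : ℕ} {mu t sg : ℝ} (hk : (k : ℝ) - 1 < mu) (ht : 1 < t) (h : NK mu t sg) :
    (∃ T Q : ℝ, 0 ≤ T ∧ Q ≤ k * T ^ 2 ∧ (mu - k + 1) * Q ≤ 1 / t ∧
      sg * (t ^ k) ^ 2 ≤ 1 / (t ^ 2 - 1) + Q ∧
      ((mu ≤ k - eta (k + 1) ∧ (mu - k + 3) * T ≤ 1 + 1 / t) ∨ (mu - k + 2) * T ≤ 1 / t)) ∨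
    (∃ T : ℝ, 0 ≤ T ∧ T ≤ 1 ∧ sg * (t ^ k) ^ 2 * t ^ 2 ≤ 1 / (t ^ 2 - 1) + (k + 1) * T ^ 2 ∧
      (mu ≤ k - eta (k + 1) ∨ (mu - k + 2) * T ≤ 1 + 1 / t ∨ (mu - k + 1) * T ≤ 1 / t)) ∨
    sg * (t ^ k) ^ 2 * t ^ 2 * t ^ 2 ≤ 1 / (t ^ 2 - 1) + (k + 2) := by
  obtain ⟨j, T, Q, a1, a2, a3, a4, a5, a6, a7⟩ := h
  have hj : k ≤ j := by
    have : (k : ℝ) < j + 1 := by linarith
    have : k < j + 1 := by exact_mod_cast this
    omega
  have heta : ∀ i, 0 ≤ eta i := fun i => by unfold eta; split_ifs <;> positivity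
  rcases Nat.lt_or_ge j (k + 2) with h | h
  · rcases (show j = k ∨ j = k + 1 by omega) with rfl | rfl
    · left
      refine ⟨T, Q, a2, a4, a5, a6, ?_⟩
      rcases a7 with h | h | h
      · have := heta j; linarith
      · exact Or.inl h
      · exact Or.inr h
    · right; left
      push_cast at a4 a7
      refine ⟨T, a2, a3, ?_, ?_⟩
      · have : sg * (t ^ k) ^ 2 * t ^ 2 = sg * (t ^ (k + 1)) ^ 2 := by ring
        linarith
      · rcases a7 with h | h | h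
        · left; linarith
        · right; left; linarith [h.2]
        · right; right; linarith
  · right; right
    have ht0 : 0 < t := by linarith
    have h1 := crude_mono (sN := (1 / (t ^ 2 - 1) + (k + 2 : ℕ)) / (t ^ (k + 2)) ^ 2) ht h
      (by rw [div_mul_cancel₀ _ (by positivity)])
    have h3 : T ^ 2 ≤ 1 := by nlinarith
    have h4 := mul_le_mul_of_nonneg_left h3 (Nat.cast_nonneg (α := ℝ) j)
    have h5 : sg ≤ (1 / (t ^ 2 - 1) + (k + 2 : ℕ)) / (t ^ (k + 2)) ^ 2 :=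
      le_of_mul_le_mul_right (show sg * (t ^ j) ^ 2 ≤ _ by linarith) (by positivity)
    rw [le_div_iff₀ (by positivity)] at h5
    have : sg * (t ^ k) ^ 2 * t ^ 2 * t ^ 2 = sg * (t ^ (k + 2)) ^ 2 := by ring
    push_cast at h5
    linarith

lemma KK_cases {k j : ℕ} {mu lam t sg : ℝ} (hk : (k : ℝ) - 1 < mu) (hlam : lam < k + 1)
    (h : KK lam mu t sg j) :
    (mu ≤ tauR k + 1 / tauR k ∧ sg * (t ^ k) ^ 2 ≤ 1 / (t ^ 2 - 1) + k) ∨
    (k ≤ lam ∧ ∃ T : ℝ, 0 ≤ T ∧ sg * (t ^ k) ^ 2 * t ^ 2 ≤ 1 / (t ^ 2 - 1) + 1 + k * T ^ 2 ∧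
      (T ≤ 1 ∨ (mu - k + 1) * T ≤ 1)) := by
  obtain ⟨a1, a2, a3, a4, T, a5, a6, a7⟩ := h
  have hj1 : k ≤ j := by
    have : (k : ℝ) < j + 1 := by linarith
    have : k < j + 1 := by exact_mod_cast this
    omega
  have hj2 : j ≤ k + 1 := by
    have : (j : ℝ) < k + 2 := by linarith
    have : j < k + 2 := by exact_mod_cast this
    omega
  rcases (show j = k ∨ j = k + 1 by omega) with rfl | rfl
  · left
    refine ⟨a4, ?_⟩
    have hT : T ≤ 1 := by
      rcases a7 with h | h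
      · exact h
      · nlinarith
    have h3 : T ^ 2 ≤ 1 := by nlinarith
    have hj3 : (3 : ℝ) ≤ j := by exact_mod_cast a1
    have := mul_le_mul_of_nonneg_left h3 (show (0 : ℝ) ≤ j - 1 by linarith)
    linarith
  · right
    push_cast at a2 a6 a7
    refine ⟨by linarith, T, a5, ?_, ?_⟩
    · have : sg * (t ^ k) ^ 2 * t ^ 2 = sg * (t ^ (k + 1)) ^ 2 := by ring
      linarith
    · rcases a7 with h | h
      · exact Or.inl h
      · right; linarith

lemma pow_small (k : ℕ) (hk : 21 ≤ k) : ((3 : ℝ) / 8) ^ (2 * k + 2 - 11) * (k : ℝ) ^ 3 ≤ 1 := by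
  induction k, hk using Nat.le_induction with
  | base => norm_num
  | succ k hk ih =>
    have hk' : (21 : ℝ) ≤ k := by exact_mod_cast hk
    rw [show 2 * (k + 1) + 2 - 11 = 2 * k + 2 - 11 + 2 by omega, pow_add]
    have h1 : ((3 : ℝ) / 8) ^ 2 * ((k + 1 : ℕ) : ℝ) ^ 3 ≤ (k : ℝ) ^ 3 := by
      push_cast
      have : ((k : ℝ) + 1) ^ 3 ≤ (3 / 2 * k) ^ 3 := by gcongr; linarith
      have : 0 ≤ (k : ℝ) ^ 3 := by positivity
      linarith
    have h2 := mul_le_mul_of_nonneg_left h1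
      (show 0 ≤ ((3 : ℝ) / 8) ^ (2 * k + 2 - 11) by positivity)
    linarith

end Pool.Agent.Lib.MP_5ca2c7_co
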