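import Pool.Agent.Lib.MP_5ca2c7_co.Large1

/-!
The numerical inequality for large eigenvalues: basic estimates.
-/

set_option autoImplicit false

namespace Pool.Agent.Lib.MP_5ca2c7_co

open Finset

/-- Basic estimates when `k - 1 < mu ≤ k` with `k ≥ 21`, `h = 1 / k`. -/
structure LF (k : ℕ) (mu dl t h : ℝ) : Prop where
  hk : (21 : ℝ) ≤ k
  hK : h * k = 1
  h0 : 0 < h
  h1 : h ≤ 1 / 21
  mlo : (k : ℝ) - 1 < mu
  mhi : mu ≤ k
  d0 : 0 < dl
  d1 : dl ≤ h ^ 3 / 39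
  tl : mu + dl ≤ t + 1 / t
  tlo : (k : ℝ) - 106 / 100 ≤ t
  thi : t ≤ k
  alo : (k : ℝ) - 1 - h - 2 * h ^ 3 ≤ tauR k
  ahi : tauR k ≤ k - 1 - h
  ta : t - tauR k ≤ (mu - k + 1) + 21 / 10 * h ^ 3
  at' : tauR k - t ≤ 11 / 10 * h ^ 2
  bt1 : k - mu ≤ tauR (k + 1) - t
  bt2 : tauR (k + 1) - t ≤ k - mu + 21 / 10 * h ^ 2
  blo : k - h ≤ tauR (k + 1)
  bhi : tauR (k + 1) ≤ k

lemma exists_LF {k : ℕ} {mu dl : ℝ} (hk : 21 ≤ k) (h1 : (k : ℝ) - 1 < mu) (h2 : mu ≤ k)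
    (d0 : 0 < dl) (d1 : dl * (k : ℝ) ^ 3 ≤ 1 / 39) : ∃ t h, LF k mu dl t h := by
  have hK : (21 : ℝ) ≤ k := by exact_mod_cast hk
  set K : ℝ := (k : ℝ) with hKdef
  set h := 1 / K with hh
  have hhK : h * K = 1 := by rw [hh]; field_simp
  have h0 : 0 < h := by positivity
  have hh1 : h ≤ 1 / 21 := one_div_le_one_div_of_le (by norm_num) hK
  have hd : dl ≤ h ^ 3 / 39 := by
    have := mul_le_mul_of_nonneg_right d1 (show 0 ≤ h ^ 3 by positivity)
    have e : dl * K ^ 3 * h ^ 3 = dl * (h * K) ^ 3 := by ring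
    rw [e, hhK] at this
    linarith
  have p2 : h ^ 2 ≤ h / 21 := by nlinarith
  have p3 : h ^ 3 ≤ h ^ 2 / 21 := by nlinarith [mul_le_mul_of_nonneg_left hh1 (sq_nonneg h)]
  have p4 : h ^ 4 ≤ h ^ 3 / 21 := by
    nlinarith [mul_le_mul_of_nonneg_left hh1 (show 0 ≤ h ^ 3 by positivity)]
  have q2 : 0 < h ^ 2 := by positivity
  have q3 : 0 < h ^ 3 := by positivity
  have q4 : 0 < h ^ 4 := by positivity
  set lam := mu + dl with hlam
  have hl0 : 0 < lam := by linarith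
  set l := 1 / lam with hl
  have hll : l * lam = 1 := by rw [hl]; field_simp
  have l0 : 0 < l := by positivity
  have l1 : l ≤ h + 11 / 10 * h ^ 2 := by
    rw [hl, div_le_iff₀ hl0]
    have e1 : (h + 11 / 10 * h ^ 2) * (K - 1) ≤ (h + 11 / 10 * h ^ 2) * lam :=
      mul_le_mul_of_nonneg_left (by linarith) (by positivity)
    have e2 : (h + 11 / 10 * h ^ 2) * (K - 1) = 1 + h / 10 - 11 / 10 * h ^ 2 := by
      linear_combination (1 + 11 / 10 * h) * hhK
    linarith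
  have l2 : h - h ^ 4 ≤ l := by
    rw [hl, le_div_iff₀ hl0]
    have e1 : (h - h ^ 4) * lam ≤ (h - h ^ 4) * (K + h ^ 3 / 39) :=
      mul_le_mul_of_nonneg_left (by linarith) (by linarith)
    have e2 : (h - h ^ 4) * (K + h ^ 3 / 39) = 1 - h ^ 3 + h ^ 4 / 39 - h ^ 7 / 39 := by
      linear_combination (1 - h ^ 3) * hhK
    have : 0 < h ^ 7 := by positivity
    linarith
  have alo : K - 1 - h - 2 * h ^ 3 ≤ tauR k := by
    apply le_tauR (by omega)
    rw [← hKdef]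
    have e : (K - 2) * (K - 1 - h - 2 * h ^ 3 + 1) - (K - 1 - h - 2 * h ^ 3) ^ 2
        = 2 * h ^ 2 - (h + 2 * h ^ 3) ^ 2 := by linear_combination (1 + 2 * h ^ 2) * hhK
    have : (h + 2 * h ^ 3) ^ 2 ≤ (11 / 10 * h) ^ 2 := by gcongr; linarith
    linarith
  have ahi : tauR k ≤ K - 1 - h := by
    apply tauR_le (by omega)
    · rw [← hKdef]; linarith
    · rw [← hKdef]
      have e : (K - 1 - h) ^ 2 - (K - 2) * (K - 1 - h + 1) = h ^ 2 := by
        linear_combination (-1) * hhK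
      linarith
  have blo : K - h + h ^ 2 / 2 ≤ tauR (k + 1) := by
    apply le_tauR (by omega)
    push_cast
    rw [← hKdef]
    have e : (K + 1 - 2) * (K - h + h ^ 2 / 2 + 1) - (K - h + h ^ 2 / 2) ^ 2
        = h / 2 - h ^ 2 / 2 - (h - h ^ 2 / 2) ^ 2 := by linear_combination (1 - h / 2) * hhK
    have : (h - h ^ 2 / 2) ^ 2 ≤ h ^ 2 := by gcongr <;> linarith
    linarith
  have bhi : tauR (k + 1) ≤ K - h + h ^ 2 := by
    apply tauR_le (by omega)
    · push_cast; rw [← hKdef]; linarith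
    · push_cast
      rw [← hKdef]
      have e : (K - h + h ^ 2) ^ 2 - (K + 1 - 2) * (K - h + h ^ 2 + 1)
          = h ^ 2 + (h - h ^ 2) ^ 2 := by linear_combination (h - 1) * hhK
      nlinarith [sq_nonneg (h - h ^ 2)]
  refine ⟨lam - l, h, hK, hhK, h0, hh1, h1, h2, d0, hd, ?_, by linarith, by linarith, alo, ahi,
    by linarith, by linarith, by linarith, by linarith, by linarith, by linarith⟩
  have : l ≤ 1 / (lam - l) := one_div_le_one_div_of_le (by linarith) (by linarith)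
  linarith

namespace LF

variable {k : ℕ} {mu dl t h : ℝ}

lemma t1 (H : LF k mu dl t h) : 1994 / 100 ≤ t := by have := H.hk; have := H.tlo; linarith

lemma ht (H : LF k mu dl t h) : 949 / 1000 ≤ h * t := by
  have := mul_le_mul_of_nonneg_left H.tlo H.h0.le
  have := H.hK
  have := H.h1
  linarith

lemma u1 (H : LF k mu dl t h) : 1 / t ≤ 106 / 100 * h := by
  have := H.t1
  rw [div_le_iff₀ (by linarith)]
  have := H.ht
  linarith

lemma e0 (H : LF k mu dl t h) : 0 < 1 / (t ^ 2 - 1) := by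
  have := H.t1
  have : 0 < t ^ 2 - 1 := by nlinarith
  positivity

lemma e1 (H : LF k mu dl t h) : 1 / (t ^ 2 - 1) ≤ 112 / 100 * h ^ 2 := by
  have := H.t1
  rw [div_le_iff₀ (by nlinarith)]
  have h1 : (949 / 1000) ^ 2 ≤ (h * t) ^ 2 := pow_le_pow_left₀ (by norm_num) H.ht 2
  have h2 : h ^ 2 ≤ (1 / 21) ^ 2 := pow_le_pow_left₀ H.h0.le H.h1 2
  nlinarith

lemma e2 (H : LF k mu dl t h) : 1 / (t ^ 2 - 1) * t ^ 2 = 1 + 1 / (t ^ 2 - 1) := by
  have := H.t1
  have : 0 < t ^ 2 - 1 := by nlinarith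
  field_simp; ring

lemma cA (H : LF k mu dl t h) : dkC k ≤ 101 / 100 * h * (2 * (t - 1 / t)) := by
  have hK := H.hk
  have h0 := H.h0
  have h1 := H.h1
  have t1 := H.t1
  have u1 := H.u1
  have alo := H.alo
  have p2 : h ^ 2 ≤ (1 / 21) ^ 2 := pow_le_pow_left₀ h0.le h1 2
  have p3 : h ^ 3 ≤ h / 441 := by nlinarith
  unfold dkC
  set a := tauR k
  have a1 : 19 ≤ a := by linarith
  have f1 : 3 / (5 * a ^ 3) ≤ 1 / 10000 := by
    rw [div_le_iff₀ (by positivity)]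
    have : (19 : ℝ) ^ 3 ≤ a ^ 3 := by gcongr
    linarith
  have f2 : a - 1 / a ≤ 1001 / 1000 * (t - 1 / t) := by
    have g1 : 1 / t - 1 / a ≤ 11 / 10 * h ^ 2 := by
      have e : 1 / t - 1 / a = (a - t) / (a * t) := by field_simp
      rw [e, div_le_iff₀ (by positivity)]
      have : 1 ≤ a * t := by nlinarith
      have := H.at'
      nlinarith [sq_nonneg h]
    have := H.at'
    linarith
  have f3 : 995 / 1000 * (k : ℝ) ≤ 1 + a ^ 2 / ((k : ℝ) - 1) := by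
    have : 995 / 1000 * (k : ℝ) - 1 ≤ a ^ 2 / ((k : ℝ) - 1) := by
      rw [le_div_iff₀ (by linarith)]
      have g1 : ((k : ℝ) - 1 - 5 / 100) ^ 2 ≤ a ^ 2 := by gcongr <;> linarith
      nlinarith
    linarith
  have f4 : 0 ≤ a - 1 / a := by
    have : 1 / a ≤ 1 := by rw [div_le_one (by linarith)]; linarith
    linarith
  rw [div_le_iff₀ (by linarith)]
  have c0 : 0 ≤ t - 1 / t := by linarith
  have g1 : 2 * (1 + 3 / (5 * a ^ 3)) * (a - 1 / a)
      ≤ 2 * (1 + 1 / 10000) * (1001 / 1000 * (t - 1 / t)) := by gcongr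
  have g2 := mul_le_mul_of_nonneg_left f3 (show 0 ≤ 101 / 100 * h * (2 * (t - 1 / t)) by positivity)
  have g3 : 101 / 100 * h * (2 * (t - 1 / t)) * (995 / 1000 * (k : ℝ))
      = 101 / 100 * (995 / 1000) * (2 * (t - 1 / t)) := by
    linear_combination (101 / 100 * (995 / 1000) * (2 * (t - 1 / t))) * H.hK
  linarith

lemma cB (H : LF k mu dl t h) : dkC (k + 1) * tauR (k + 1) ^ 2 * (k + 1 - 2 * h)
    ≤ (1 + h ^ 3) * (1 + 11 / 10 * ((tauR (k + 1) - t) * h)) ^ 3 * t ^ 2 * (2 * (t - 1 / t)) := by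
  have hK := H.hk
  have h0 := H.h0
  have h1 := H.h1
  have t1 := H.t1
  have u1 := H.u1
  have blo := H.blo
  have ht := H.ht
  have hKh := H.hK
  have w0 : 0 ≤ tauR (k + 1) - t := by have := H.bt1; have := H.mhi; linarith
  unfold dkC
  push_cast
  set b := tauR (k + 1)
  set w := b - t with hw
  set g := 1 + 11 / 10 * (w * h) with hg
  have b1 : 20 ≤ b := by linarith
  have hb : 9 / 10 ≤ h * b := by
    have := mul_le_mul_of_nonneg_left blo h0.le
    nlinarith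
  have f1 : 3 / (5 * b ^ 3) ≤ h ^ 3 := by
    rw [div_le_iff₀ (by positivity)]
    have : (9 / 10 : ℝ) ^ 3 ≤ (h * b) ^ 3 := by gcongr
    nlinarith
  have f2 : b ≤ g * t := by
    have := mul_le_mul_of_nonneg_left ht w0
    rw [hg]; nlinarith
  have hu0 : 0 < 1 / t := by positivity
  have f3 : b - 1 / b ≤ g * (t - 1 / t) := by
    have g1 : 1 / t - 1 / b ≤ w / 100 := by
      have e : 1 / t - 1 / b = w / (b * t) := by rw [hw]; field_simp
      rw [e]
      apply div_le_div_of_nonneg_left w0 (by norm_num)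
      nlinarith
    have g2 : 94 / 100 ≤ h * (t - 1 / t) := by nlinarith
    have := mul_le_mul_of_nonneg_left g2 w0
    rw [hg]; nlinarith
  have f4 : (k : ℝ) + 1 - 2 * h ≤ 1 + b ^ 2 / ((k : ℝ) + 1 - 1) := by
    have : (k : ℝ) - 2 * h ≤ b ^ 2 / ((k : ℝ) + 1 - 1) := by
      rw [le_div_iff₀ (by linarith)]
      have g1 : ((k : ℝ) - h) ^ 2 ≤ b ^ 2 := by gcongr; linarith
      nlinarith [sq_nonneg h]
    linarith
  have f5 : 0 ≤ b - 1 / b := by
    have : 1 / b ≤ 1 := by rw [div_le_one (by linarith)]; linarith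
    linarith
  have g0 : 0 ≤ g := by rw [hg]; positivity
  have c0 : 0 ≤ t - 1 / t := by linarith
  have D0 : 0 < (k : ℝ) + 1 - 2 * h := by linarith
  set D := 1 + b ^ 2 / ((k : ℝ) + 1 - 1)
  have k1 : 2 * (1 + 3 / (5 * b ^ 3)) * (b - 1 / b) / D * b ^ 2 * ((k : ℝ) + 1 - 2 * h)
      ≤ 2 * (1 + 3 / (5 * b ^ 3)) * (b - 1 / b) / D * b ^ 2 * D := by
    have : 0 < D := by linarith
    gcongr
  have k2 : 2 * (1 + 3 / (5 * b ^ 3)) * (b - 1 / b) / D * b ^ 2 * D
      = 2 * (1 + 3 / (5 * b ^ 3)) * (b - 1 / b) * b ^ 2 := by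
    have : 0 < D := by linarith
    field_simp
  have k3 : 2 * (1 + 3 / (5 * b ^ 3)) * (b - 1 / b) * b ^ 2
      ≤ 2 * (1 + h ^ 3) * (g * (t - 1 / t)) * (g * t) ^ 2 := by gcongr
  calc _ ≤ _ := k1
    _ = _ := k2
    _ ≤ _ := k3
    _ = _ := by ring

end LF

end Pool.Agent.Lib.MP_5ca2c7_co
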