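import Pool.Agent.Lib.MP_5ca2c7_co.Large2

/-!
The numerical inequality for large eigenvalues: the three regions.
-/

set_option autoImplicit false

namespace Pool.Agent.Lib.MP_5ca2c7_co

open Finset

namespace LF

variable {k : ℕ} {mu dl t h sg : ℝ}

lemma u2 (H : LF k mu dl t h) : 1 / t ≤ 505 / 10000 := by
  have := H.u1; have := H.h1; linarith

lemma e3 (H : LF k mu dl t h) : 1 / (t ^ 2 - 1) ≤ 3 / 1000 := by
  have h2 : h ^ 2 ≤ (1 / 21) ^ 2 := pow_le_pow_left₀ H.h0.le H.h1 2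
  have := H.e1
  linarith

lemma t2 (H : LF k mu dl t h) : 397 ≤ t ^ 2 := by
  have := H.t1; nlinarith

lemma d2 (H : LF k mu dl t h) : dl ≤ h / 1000 := by
  have h2 : h ^ 2 ≤ (1 / 21) ^ 2 := pow_le_pow_left₀ H.h0.le H.h1 2
  have := H.d1
  have := mul_le_mul_of_nonneg_left h2 H.h0.le
  have := H.h0
  nlinarith

lemma eta1 (H : LF k mu dl t h) : eta (k + 1) = 1 / ((k : ℝ) + 2) := by
  have : 21 ≤ k := by exact_mod_cast H.hk
  unfold eta
  rw [if_neg (by omega)]
  push_cast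
  ring

lemma eta2 (H : LF k mu dl t h) : h / 2 ≤ eta (k + 1) := by
  have := H.hk
  rw [H.eta1, le_div_iff₀ (by linarith)]
  have := H.hK
  have := H.h1
  linarith

lemma eta3 (H : LF k mu dl t h) : eta (k + 1) ≤ 1 / 23 := by
  have := H.hk
  rw [H.eta1]
  exact one_div_le_one_div_of_le (by norm_num) (by linarith)

lemma kite1 (H : LF k mu dl t h) (h1 : mu ≤ tauR k + 1 / tauR k) : mu - k + 1 < h / 2 := by
  have hK := H.hk
  have h0 := H.h0
  have h1 := H.h1
  have p2 : h ^ 2 ≤ h / 21 := by nlinarith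
  have p3 : h ^ 3 ≤ h ^ 2 / 21 := by nlinarith [mul_le_mul_of_nonneg_left h1 (sq_nonneg h)]
  have alo := H.alo
  have ahi := H.ahi
  have : 1 / tauR k ≤ h + 12 / 10 * h ^ 2 := by
    rw [div_le_iff₀ (by linarith)]
    have e1 : (h + 12 / 10 * h ^ 2) * ((k : ℝ) - 105 / 100) ≤ (h + 12 / 10 * h ^ 2) * tauR k :=
      mul_le_mul_of_nonneg_left (by linarith) (by positivity)
    have e2 : (h + 12 / 10 * h ^ 2) * ((k : ℝ) - 105 / 100)
        = 1 + 15 / 100 * h - 126 / 100 * h ^ 2 := by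
      linear_combination (1 + 12 / 10 * h) * H.hK
    linarith
  linarith

lemma lam_lt (H : LF k mu dl t h) : mu + dl < k + 1 := by
  have := H.d2; have := H.h1; have := H.mhi; linarith

lemma NK_L (H : LF k mu dl t h) (hs : 0 ≤ sg) (hN : NK mu t sg) :
    sg * (t ^ k) ^ 2 ≤ 28 / 100 * k := by
  have hK := H.hk
  have t1 := H.t1
  have t2 := H.t2
  have u2 := H.u2
  have e3 := H.e3
  have mlo := H.mlo
  have s0 : 0 ≤ sg * (t ^ k) ^ 2 := by positivity
  rcases NK_cases H.mlo (by linarith) hN with ⟨T, Q, a1, a2, a3, a4, a5⟩ | ⟨T, a1, a2, a3, -⟩ | a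
  · have hT : T ≤ 526 / 1000 := by
      rcases a5 with ⟨-, a5⟩ | a5
      · nlinarith
      · nlinarith
    have : T ^ 2 ≤ (526 / 1000) ^ 2 := by gcongr
    have := mul_le_mul_of_nonneg_left this (Nat.cast_nonneg (α := ℝ) k)
    linarith
  · have : T ^ 2 ≤ 1 := by nlinarith
    have := mul_le_mul_of_nonneg_left this (show (0 : ℝ) ≤ k + 1 by linarith)
    have := mul_le_mul_of_nonneg_left t2 s0
    linarith
  · have h1 := mul_le_mul_of_nonneg_left t2 s0
    have h2 := mul_le_mul_of_nonneg_left t2 (show 0 ≤ sg * (t ^ k) ^ 2 * t ^ 2 by positivity)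
    linarith

lemma NK_M (H : LF k mu dl t h) (hs : 0 ≤ sg) (hN : NK mu t sg) :
    (mu - k + 1) * (sg * (t ^ k) ^ 2 * t ^ 2) ≤ (mu - k + 1) * (1 + 1 / (t ^ 2 - 1)) + k := by
  have hK := H.hk
  have t1 := H.t1
  have t2 := H.t2
  have e0 := H.e0
  have e3 := H.e3
  have mlo := H.mlo
  have mhi := H.mhi
  have th0 : 0 < mu - k + 1 := by linarith
  have key : sg * (t ^ k) ^ 2 * t ^ 2 ≤ 1 + 1 / (t ^ 2 - 1) + k →
      (mu - k + 1) * (sg * (t ^ k) ^ 2 * t ^ 2) ≤ (mu - k + 1) * (1 + 1 / (t ^ 2 - 1)) + k := by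
    intro h1
    have := mul_le_mul_of_nonneg_left h1 th0.le
    have := mul_le_mul_of_nonneg_right (show mu - k + 1 ≤ 1 by linarith)
      (Nat.cast_nonneg (α := ℝ) k)
    linarith
  rcases NK_cases H.mlo (by linarith) hN with ⟨T, Q, a1, a2, a3, a4, a5⟩ | ⟨T, a1, a2, a3, -⟩ | a
  · have b1 := mul_le_mul_of_nonneg_right a4 (sq_nonneg t)
    have b2 := mul_le_mul_of_nonneg_left b1 th0.le
    have b3 := mul_le_mul_of_nonneg_right a3 (sq_nonneg t)
    have b4 : 1 / t * t ^ 2 = t := by field_simp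
    have b5 := H.e2
    have b6 := H.thi
    have b7 : (mu - k + 1) * ((1 / (t ^ 2 - 1) + Q) * t ^ 2)
        = (mu - k + 1) * (1 + 1 / (t ^ 2 - 1)) + (mu - k + 1) * Q * t ^ 2 := by
      linear_combination (mu - k + 1) * b5
    linarith
  · apply key
    have : T ^ 2 ≤ 1 := by nlinarith
    have := mul_le_mul_of_nonneg_left this (show (0 : ℝ) ≤ k + 1 by linarith)
    linarith
  · apply key
    have h2 := mul_le_mul_of_nonneg_left t2 (show 0 ≤ sg * (t ^ k) ^ 2 * t ^ 2 by positivity)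
    linarith

lemma NK_H (H : LF k mu dl t h) (hm : k - eta (k + 1) < mu) (hs : 0 ≤ sg) (hN : NK mu t sg) :
    sg * (t ^ k) ^ 2 * t ^ 2 ≤ 32 / 100 * k := by
  have hK := H.hk
  have t1 := H.t1
  have t2 := H.t2
  have u2 := H.u2
  have e3 := H.e3
  have et := H.eta3
  have th : 1956 / 1000 ≤ mu - k + 2 := by linarith
  rcases NK_cases H.mlo (by linarith) hN with ⟨T, Q, a1, a2, a3, a4, a5⟩ | ⟨T, a1, a2, a3, a4⟩ | a
  · rcases a5 with ⟨a5, -⟩ | a5
    · linarith
    · have b1 := mul_le_mul_of_nonneg_right a4 (sq_nonneg t)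
      have b2 := mul_le_mul_of_nonneg_right a2 (sq_nonneg t)
      have b3 : T * t ≤ 512 / 1000 := by
        rw [le_div_iff₀ (by linarith)] at a5
        have := mul_le_mul_of_nonneg_right th (show 0 ≤ T * t by positivity)
        linarith
      have b4 : (T * t) ^ 2 ≤ (512 / 1000) ^ 2 := by gcongr
      have b5 := mul_le_mul_of_nonneg_left b4 (Nat.cast_nonneg (α := ℝ) k)
      have b6 := H.e2
      linarith
  · have hT : T ≤ 538 / 1000 := by
      rcases a4 with a4 | a4 | a4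
      · linarith
      · have := mul_le_mul_of_nonneg_right th a1
        linarith
      · have := mul_le_mul_of_nonneg_right th a1
        linarith
    have : T ^ 2 ≤ (538 / 1000) ^ 2 := by gcongr
    have := mul_le_mul_of_nonneg_left this (show (0 : ℝ) ≤ k + 1 by linarith)
    linarith
  · have h2 := mul_le_mul_of_nonneg_left t2 (show 0 ≤ sg * (t ^ k) ^ 2 * t ^ 2 by positivity)
    linarith

lemma KK_L (H : LF k mu dl t h) (hm : mu - k + 1 ≤ h / 2) {j : ℕ} (hN : KK (mu + dl) mu t sg j) :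
    sg * (t ^ k) ^ 2 ≤ 1001 / 1000 * k := by
  have hK := H.hk
  have e3 := H.e3
  have := H.d2
  have := H.h1
  rcases KK_cases H.mlo H.lam_lt hN with ⟨-, a⟩ | ⟨a, -⟩ <;> linarith

lemma KK_M (H : LF k mu dl t h) (hm : h / 2 ≤ mu - k + 1) (hm' : mu ≤ k - eta (k + 1)) {j : ℕ}
    (hN : KK (mu + dl) mu t sg j) : False := by
  have := H.d2
  have := H.h0
  have := H.eta2
  rcases KK_cases H.mlo H.lam_lt hN with ⟨a, -⟩ | ⟨a, -⟩
  · have := H.kite1 a; linarith
  · linarith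

lemma KK_H (H : LF k mu dl t h) (hm : k - eta (k + 1) < mu) {j : ℕ}
    (hN : KK (mu + dl) mu t sg j) : sg * (t ^ k) ^ 2 * t ^ 2 ≤ 116 / 100 * k := by
  have hK := H.hk
  have e3 := H.e3
  have := H.h1
  have et := H.eta3
  have th : 956 / 1000 ≤ mu - k + 1 := by linarith
  rcases KK_cases H.mlo H.lam_lt hN with ⟨a, -⟩ | ⟨-, T, a1, a2, a3⟩
  · have := H.kite1 a; linarith
  · have hT : T ≤ 1047 / 1000 := by
      rcases a3 with a3 | a3
      · linarith
      · have := mul_le_mul_of_nonneg_right th a1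
        linarith
    have : T ^ 2 ≤ (1047 / 1000) ^ 2 := by gcongr
    have := mul_le_mul_of_nonneg_left this (Nat.cast_nonneg (α := ℝ) k)
    linarith

lemma cB' (H : LF k mu dl t h) :
    dkC (k + 1) * tauR (k + 1) ^ 2 * k ≤ 13 / 10 * t ^ 2 * (2 * (t - 1 / t)) := by
  have hK := H.hk
  have hk : 21 ≤ k := by exact_mod_cast hK
  have h0 := H.h0
  have h1 := H.h1
  have c := H.cB
  have t1 := H.t1
  have u2 := H.u2
  have p2 : h ^ 2 ≤ (1 / 21) ^ 2 := pow_le_pow_left₀ h0.le h1 2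
  have p3 : h ^ 3 ≤ (1 / 21) ^ 3 := pow_le_pow_left₀ h0.le h1 3
  have w0 : 0 ≤ tauR (k + 1) - t := by have := H.bt1; have := H.mhi; linarith
  have w1 : tauR (k + 1) - t ≤ 101 / 100 := by have := H.bt2; have := H.mlo; linarith
  have g1 : (tauR (k + 1) - t) * h ≤ 101 / 100 * (1 / 21) := by gcongr
  have g2 : (1 + h ^ 3) * (1 + 11 / 10 * ((tauR (k + 1) - t) * h)) ^ 3
      ≤ (1 + (1 / 21) ^ 3) * (1 + 11 / 10 * (101 / 100 * (1 / 21))) ^ 3 := by gcongr
  have g3 : (1 + h ^ 3) * (1 + 11 / 10 * ((tauR (k + 1) - t) * h)) ^ 3 ≤ 13 / 10 :=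
    g2.trans (by norm_num)
  have c0 : 0 ≤ t - 1 / t := by linarith
  have g4 := mul_le_mul_of_nonneg_right g3 (show 0 ≤ t ^ 2 * (2 * (t - 1 / t)) by positivity)
  have g5 := dkC_pos (show 3 ≤ k + 1 by omega)
  have g6 := mul_le_mul_of_nonneg_left (show (k : ℝ) ≤ k + 1 - 2 * h by linarith)
    (show 0 ≤ dkC (k + 1) * tauR (k + 1) ^ 2 by positivity)
  linarith

lemma ha (H : LF k mu dl t h) : 95 / 100 ≤ h * tauR k := by
  have h0 := H.h0
  have h1 := H.h1
  have p3 : h ^ 3 ≤ (1 / 21) ^ 3 := pow_le_pow_left₀ h0.le h1 3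
  have := mul_le_mul_of_nonneg_left (show (k : ℝ) - 105 / 100 ≤ tauR k by have := H.alo; linarith)
    h0.le
  have := H.hK
  linarith

lemma fin_L {n : ℕ} (H : LF k mu dl t h) (hs : Small n dl) (hn : 2 * k + 2 ≤ n)
    (hm : mu - k + 1 ≤ h / 2) {S : ℝ} (hS0 : 0 ≤ S)
    (hS : S * ((t ^ k) ^ 2) ^ 2 ≤ (53 / 100 * k) ^ 2) :
    dl ^ 2 * (t ^ (n + 1)) ^ 2 * S < 4 * (t - 1 / t) ^ 2 := by
  have hK := H.hk
  have hk : 21 ≤ k := by exact_mod_cast hK
  have h0 := H.h0
  have h1 := H.h1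
  have t1 := H.t1
  have u2 := H.u2
  have hKh := H.hK
  have c0 : 0 ≤ t - 1 / t := by linarith
  have p2 : h ^ 2 ≤ (1 / 21) ^ 2 := pow_le_pow_left₀ h0.le h1 2
  refine large_finish (p := 6 / 10 * h ^ 2) (q := 97 / 100 * h) (U := k / 2) (V := 45 / 100)
    hs H.d0 (by omega) hn (by linarith) hS0 (by positivity) hS (by positivity) (by positivity)
    ?_ ?_ ?_ ?_ ?_ (by linarith)
  · have := mul_le_mul_of_nonneg_left H.ha h0.le
    have := mul_le_mul_of_nonneg_left p2 h0.le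
    have := H.ta
    nlinarith
  · have := mul_le_mul_of_nonneg_left H.bhi h0.le
    have := H.bt1
    linarith
  · have a1 := mul_le_mul_of_nonneg_left H.cA (show (0 : ℝ) ≤ 53 / 100 * k by positivity)
    have a2 : 53 / 100 * (k : ℝ) * (101 / 100 * h * (2 * (t - 1 / t)))
        = 53 / 100 * (101 / 100) * (2 * (t - 1 / t)) := by
      linear_combination (53 / 100 * (101 / 100) * (2 * (t - 1 / t))) * hKh
    have a3 := mul_le_mul_of_nonneg_right (Real.add_one_le_exp (-(45 / 100)))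
      (show 0 ≤ 2 * (t - 1 / t) by linarith)
    linarith
  · have a1 := H.cB'
    have a2 : t ^ 2 ≤ (k : ℝ) ^ 2 := pow_le_pow_left₀ (by linarith) H.thi 2
    have a3 := Real.pow_div_factorial_le_exp (k / 2 : ℝ) (by positivity) 4
    have a4 : (k : ℝ) ^ 2 ≤ Real.exp (k / 2) := by
      refine le_trans ?_ a3
      have : (21 : ℝ) ^ 2 ≤ (k : ℝ) ^ 2 := by gcongr
      have := mul_le_mul_of_nonneg_left this (sq_nonneg (k : ℝ))
      norm_num [Nat.factorial]
      nlinarith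
    have a5 := mul_le_mul_of_nonneg_right (a2.trans a4) (show 0 ≤ 2 * (t - 1 / t) by linarith)
    have a6 : 0 ≤ t ^ 2 * (2 * (t - 1 / t)) := by positivity
    linarith
  · have : (k : ℝ) / 2 * (6 / 10 * h ^ 2) = 3 / 10 * h := by linear_combination (3 / 10 * h) * hKh
    linarith

lemma fin_H {n : ℕ} (H : LF k mu dl t h) (hs : Small n dl) (hn : 2 * k + 2 ≤ n)
    {S : ℝ} (hS0 : 0 ≤ S)
    (hS : S * ((t ^ k) ^ 2) ^ 2 * (t ^ 2) ^ 2 ≤ (61 / 100 * k) ^ 2) :
    dl ^ 2 * (t ^ (n + 1)) ^ 2 * S < 4 * (t - 1 / t) ^ 2 := by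
  have hK := H.hk
  have hk : 21 ≤ k := by exact_mod_cast hK
  have h0 := H.h0
  have h1 := H.h1
  have t1 := H.t1
  have t2 := H.t2
  have u2 := H.u2
  have hKh := H.hK
  have c0 : 0 ≤ t - 1 / t := by linarith
  have p3 : h ^ 3 ≤ (1 / 21) ^ 3 := pow_le_pow_left₀ h0.le h1 3
  have tt : 0 < t ^ 2 := by linarith
  refine large_finish (s := 61 / 100 * k / t ^ 2) (p := 11 / 10 * h) (q := 0) (U := 0)
    (V := 45 / 100)
    hs H.d0 (by omega) hn (by linarith) hS0 (by positivity) ?_ (by positivity) le_rfl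
    ?_ ?_ ?_ ?_ (by simp) (by linarith)
  · rw [div_pow, le_div_iff₀ (by positivity)]; exact hS
  · have := H.ha
    have := H.ta
    have := H.mhi
    linarith
  · have := H.bt1
    have := H.mhi
    linarith
  · have a0 : 61 / 100 * (k : ℝ) / t ^ 2 ≤ 53 / 100 * k := by
      rw [div_le_iff₀ tt]; nlinarith
    have a1 := mul_le_mul a0 H.cA (dkC_pos (by omega)).le (show (0 : ℝ) ≤ 53 / 100 * k by positivity)
    have a2 : 53 / 100 * (k : ℝ) * (101 / 100 * h * (2 * (t - 1 / t)))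
        = 53 / 100 * (101 / 100) * (2 * (t - 1 / t)) := by
      linear_combination (53 / 100 * (101 / 100) * (2 * (t - 1 / t))) * hKh
    have a3 := mul_le_mul_of_nonneg_right (Real.add_one_le_exp (-(45 / 100)))
      (show 0 ≤ 2 * (t - 1 / t) by linarith)
    linarith
  · have a1 := H.cB'
    rw [Real.exp_zero, div_mul_eq_mul_div, div_le_iff₀ tt]
    have a6 : 0 ≤ t ^ 2 * (2 * (t - 1 / t)) := by positivity
    linarith

lemma fin_M {n : ℕ} (H : LF k mu dl t h) (hs : Small n dl) (hn : 2 * k + 2 ≤ n)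
    (hm : h / 2 ≤ mu - k + 1) (hm' : mu ≤ k - eta (k + 1)) {S : ℝ} (hS0 : 0 ≤ S)
    (hS : S * ((t ^ k) ^ 2) ^ 2 * (t ^ 2) ^ 2
      ≤ (1 + 1 / (t ^ 2 - 1) + k / (mu - k + 1)) ^ 2) :
    dl ^ 2 * (t ^ (n + 1)) ^ 2 * S < 4 * (t - 1 / t) ^ 2 := by
  have hK := H.hk
  have hk : 21 ≤ k := by exact_mod_cast hK
  have h0 := H.h0
  have h1 := H.h1
  have t1 := H.t1
  have t2 := H.t2
  have u2 := H.u2
  have e0 := H.e0
  have e1 := H.e1
  have e3 := H.e3
  have hKh := H.hK
  have et := H.eta2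
  have mhi := H.mhi
  have c0 : 0 ≤ t - 1 / t := by linarith
  have p2 : h ^ 2 ≤ (1 / 21) ^ 2 := pow_le_pow_left₀ h0.le h1 2
  have tt : 0 < t ^ 2 := by linarith
  set e := 1 / (t ^ 2 - 1)
  set th := mu - k + 1 with hth
  have th0 : 0 < th := by linarith
  have th1 : th ≤ 1 := by linarith
  set y := (1 - th) / th with hy
  have hy1 : y * th = 1 - th := by rw [hy]; field_simp
  have y0 : 0 ≤ y := by rw [hy]; apply div_nonneg <;> linarith
  have y1 : 1 - th ≤ y := by nlinarith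
  have y2 : h / 2 ≤ y := by linarith
  have y3 : h ^ 2 ≤ 1 / 10 * y := by nlinarith
  have hKt : (k : ℝ) / th = k + k * y := by
    rw [div_eq_iff th0.ne']; linear_combination (-(k : ℝ)) * hy1
  refine large_finish (s := (1 + e + k / th) / t ^ 2) (p := 11 / 10 * (th * h))
    (q := (1 - th) * h) (U := 18 / 10 * y) (V := 2)
    hs H.d0 (by omega) hn (by linarith) hS0 (by positivity) ?_ (by positivity)
    (mul_nonneg (by linarith) h0.le) ?_ ?_ ?_ ?_ ?_ ?_
  · rw [div_pow, le_div_iff₀ (by positivity)]; exact hS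
  · have a1 := mul_le_mul_of_nonneg_left H.ha th0.le
    have a2 := H.ta
    have a3 := mul_le_mul_of_nonneg_left p2 h0.le
    rw [← hth] at a2
    nlinarith
  · have a1 := mul_le_mul_of_nonneg_left H.bhi (mul_nonneg (show 0 ≤ 1 - th by linarith) h0.le)
    have a2 := H.bt1
    have a3 : (1 - th) * h * k = 1 - th := by linear_combination (1 - th) * hKh
    linarith
  · have a0 : (1 + e + k / th) / t ^ 2 ≤ 25 / 10 := by
      rw [div_le_iff₀ tt]
      have b1 : (k : ℝ) / th ≤ 2 * k ^ 2 := by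
        rw [div_le_iff₀ th0]
        have := mul_le_mul_of_nonneg_left hm (show (0 : ℝ) ≤ 2 * k ^ 2 by positivity)
        have : 2 * (k : ℝ) ^ 2 * (h / 2) = k := by linear_combination (k : ℝ) * hKh
        linarith
      have b2 : (949 / 1000 * (k : ℝ)) ^ 2 ≤ t ^ 2 := by
        have := H.tlo
        gcongr; linarith
      nlinarith
    have a1 := mul_le_mul a0 H.cA (dkC_pos (by omega)).le (by norm_num)
    have a2 : (135 / 1000 : ℝ) ≤ Real.exp (-2) := by
      have := Real.exp_neg_one_gt_d9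
      rw [show (-2 : ℝ) = -1 + -1 by norm_num, Real.exp_add]
      nlinarith
    have a3 := mul_le_mul_of_nonneg_right a2 (show 0 ≤ 2 * (t - 1 / t) by linarith)
    have a4 := mul_le_mul_of_nonneg_right h1 (show 0 ≤ 2 * (t - 1 / t) by linarith)
    linarith
  · have a1 := H.cB
    have D0 : 0 < (k : ℝ) + 1 - 2 * h := by linarith
    have w0 : 0 ≤ tauR (k + 1) - t := by have := H.bt1; linarith
    have w1 : tauR (k + 1) - t ≤ 13 / 10 * y := by have := H.bt2; linarith
    have g1 : 1 + 11 / 10 * ((tauR (k + 1) - t) * h) ≤ Real.exp (7 / 100 * y) := by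
      have b1 : (tauR (k + 1) - t) * h ≤ 13 / 10 * y * (1 / 21) := by gcongr
      have := Real.add_one_le_exp (7 / 100 * y)
      linarith
    have g2 : 1 + h ^ 3 ≤ Real.exp (1 / 100 * y) := by
      have := Real.add_one_le_exp (1 / 100 * y)
      have := mul_le_mul h1 y3 (by positivity) (by norm_num)
      nlinarith
    have g3 : 1 + e + k / th ≤ Real.exp (15 / 10 * y) * (k + 1 - 2 * h) := by
      have b1 := mul_le_mul_of_nonneg_right (Real.add_one_le_exp (15 / 10 * y)) D0.le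
      have b2 := mul_le_mul_of_nonneg_left (show (k : ℝ) ≤ k + 1 - 2 * h by linarith) y0
      have b3 := mul_le_mul_of_nonneg_left hK y0
      rw [hKt]
      nlinarith
    have g4 : (1 + h ^ 3) * (1 + 11 / 10 * ((tauR (k + 1) - t) * h)) ^ 3
        ≤ Real.exp (1 / 100 * y) * Real.exp (7 / 100 * y) ^ 3 := by gcongr
    have g5 : Real.exp (15 / 10 * y) * (Real.exp (1 / 100 * y) * Real.exp (7 / 100 * y) ^ 3)
        ≤ Real.exp (18 / 10 * y) := by
      rw [← Real.exp_nat_mul, ← Real.exp_add, ← Real.exp_add, Real.exp_le_exp]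
      push_cast
      linarith
    have g6 := dkC_pos (show 3 ≤ k + 1 by omega)
    rw [div_mul_eq_mul_div, div_le_iff₀ tt]
    calc (1 + e + k / th) * (dkC (k + 1) * tauR (k + 1) ^ 2)
        ≤ Real.exp (15 / 10 * y) * (k + 1 - 2 * h) * (dkC (k + 1) * tauR (k + 1) ^ 2) := by
          gcongr
      _ = Real.exp (15 / 10 * y) * (dkC (k + 1) * tauR (k + 1) ^ 2 * (k + 1 - 2 * h)) := by ring
      _ ≤ Real.exp (15 / 10 * y) * (Real.exp (1 / 100 * y) * Real.exp (7 / 100 * y) ^ 3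
          * t ^ 2 * (2 * (t - 1 / t))) := by
          refine mul_le_mul_of_nonneg_left (a1.trans ?_) (by positivity)
          gcongr
      _ = Real.exp (15 / 10 * y) * (Real.exp (1 / 100 * y) * Real.exp (7 / 100 * y) ^ 3)
          * (t ^ 2 * (2 * (t - 1 / t))) := by ring
      _ ≤ Real.exp (18 / 10 * y) * (t ^ 2 * (2 * (t - 1 / t))) := by gcongr
      _ = _ := by ring
  · have : 18 / 10 * y * (11 / 10 * (th * h)) = 198 / 100 * ((1 - th) * h) := by
      linear_combination (198 / 100 * h) * hy1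
    have := mul_nonneg (show 0 ≤ 1 - th by linarith) h0.le
    linarith
  · have : th * h ≤ 1 * (1 / 21) := by gcongr
    linarith

end LF

theorem concl_large {n : ℕ} {mu dl : ℝ} (hn : 11 ≤ n) (hs : Small n dl) (hdl : 0 < dl)
    (hnk : ∀ j : ℕ, (j : ℝ) - 1 < mu → 2 * j + 2 ≤ n) (h1 : 20 < mu) : Concl n mu dl := by
  set k := ⌈mu⌉₊ with hk
  have k1 : mu ≤ k := Nat.le_ceil mu
  have k2 : (k : ℝ) - 1 < mu := by
    have := Nat.ceil_lt_add_one (show 0 ≤ mu by linarith)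
    linarith
  have k3 : 21 ≤ k := by
    have : (20 : ℝ) < k := by linarith
    exact_mod_cast this
  have hn2 := hnk k k2
  have d1 : dl * (k : ℝ) ^ 3 ≤ 1 / 39 := by
    have a1 := mul_le_mul_of_nonneg_right (small_four hn hs hn2)
      (show 0 ≤ (k : ℝ) ^ 3 by positivity)
    have a2 := pow_small k k3
    linarith
  obtain ⟨t, h, H⟩ := exists_LF k3 k2 k1 hdl d1
  have t1 := H.t1
  have hK := H.hk
  refine ⟨t, by linarith, H.tl, fun s1 s2 p1 p2 q1 q2 => ?_⟩
  have p3 := mul_nonneg p1 p2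
  rcases le_total (mu - k + 1) (h / 2) with hm | hm
  · refine H.fin_L hs hn2 hm p3 ?_
    have r1 := H.NK_L p1 q1
    have r2 : s2 * (t ^ k) ^ 2 ≤ 1001 / 1000 * k := by
      rcases q2 with q2 | ⟨j, q2⟩
      · have := H.NK_L p2 q2; linarith
      · exact H.KK_L hm q2
    have r3 := mul_le_mul r1 r2 (by positivity) (by positivity)
    have : 0 ≤ (k : ℝ) ^ 2 := by positivity
    linarith
  rcases le_or_gt mu (k - eta (k + 1)) with hm' | hm'
  · refine H.fin_M hs hn2 hm hm' p3 ?_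
    have th0 : 0 < mu - k + 1 := by linarith
    have key : ∀ s, 0 ≤ s → NK mu t s →
        s * (t ^ k) ^ 2 * t ^ 2 ≤ 1 + 1 / (t ^ 2 - 1) + k / (mu - k + 1) := by
      intro s p q
      have := H.NK_M p q
      rw [← sub_le_iff_le_add', le_div_iff₀ th0]
      linarith
    have r1 := key s1 p1 q1
    have r2 : s2 * (t ^ k) ^ 2 * t ^ 2 ≤ 1 + 1 / (t ^ 2 - 1) + k / (mu - k + 1) := by
      rcases q2 with q2 | ⟨j, q2⟩
      · exact key s2 p2 q2
      · exact (H.KK_M hm hm' q2).elim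
    have r3 := mul_le_mul r1 r2 (by positivity) (le_trans (by positivity) r1)
    linarith
  · refine H.fin_H hs hn2 p3 ?_
    have r1 := H.NK_H hm' p1 q1
    have r2 : s2 * (t ^ k) ^ 2 * t ^ 2 ≤ 116 / 100 * k := by
      rcases q2 with q2 | ⟨j, q2⟩
      · have := H.NK_H hm' p2 q2; linarith
      · exact H.KK_H hm' q2
    have r3 := mul_le_mul r1 r2 (by positivity) (by positivity)
    have : 0 ≤ (k : ℝ) ^ 2 := by positivity
    linarith

end Pool.Agent.Lib.MP_5ca2c7_co
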