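import Pool.Agent.Lib.MP_5ca2c7_co.Pend

/-!
The one-sided estimate.
-/

set_option autoImplicit false

namespace Pool.Agent.Lib.MP_5ca2c7_co

open Finset Classical

lemma exists_geodesic {W : Type} {K : SimpleGraph W} (hK : K.Connected) (u t : W) :
    ∃ (d : ℕ) (p : ℕ → W), p 0 = u ∧ p d = t ∧ (∀ i j, i ≤ d → j ≤ d → p i = p j → i = j) ∧
      ∀ i j, i ≤ d → j ≤ d → (K.Adj (p i) (p j) ↔ (i + 1 = j ∨ j + 1 = i)) := by
  obtain ⟨w, hw⟩ := hK.exists_walk_length_eq_dist u t
  have hadj : ∀ i, i < w.length → K.Adj (w.getVert i) (w.getVert (i + 1)) :=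
    fun i hi => w.adj_getVert_succ hi
  have hstep : ∀ a b c, K.Adj b c → K.dist a c ≤ K.dist a b + 1 := fun a b c h => by
    have h1 := hK.dist_triangle (u := a) (v := b) (w := c)
    rw [SimpleGraph.dist_eq_one_iff_adj.mpr h] at h1
    exact h1
  have h1 : ∀ i, i ≤ w.length → K.dist u (w.getVert i) ≤ i := by
    intro i
    induction i with
    | zero => intro _; simp
    | succ i ih =>
      intro hi
      have := hstep u _ _ (hadj i (by omega))
      have := ih (by omega)
      omega
  have h2 : ∀ j i, i + j = w.length → K.dist t (w.getVert i) ≤ j := by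
    intro j
    induction j with
    | zero => intro i hi; rw [show i = w.length by omega]; simp
    | succ j ih =>
      intro i hi
      have := hstep t _ _ (hadj i (by omega)).symm
      have := ih (i + 1) (by omega)
      omega
  have h3 : ∀ i, i ≤ w.length → K.dist u (w.getVert i) = i := fun i hi => by
    have a1 := h1 i hi
    have a2 := h2 (w.length - i) i (by omega)
    have a3 := hK.dist_triangle (u := u) (v := w.getVert i) (w := t)
    rw [SimpleGraph.dist_comm (u := w.getVert i)] at a3
    omega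
  refine ⟨w.length, w.getVert, w.getVert_zero, w.getVert_length, fun i j hi hj h => ?_,
    fun i j hi hj => ⟨fun h => ?_, ?_⟩⟩
  · rw [← h3 i hi, ← h3 j hj, h]
  · have a1 := hstep u _ _ h
    have a2 := hstep u _ _ h.symm
    rw [h3 i hi, h3 j hj] at a1 a2
    have a3 : i ≠ j := by rintro rfl; exact K.irrefl h
    omega
  · rintro (rfl | rfl)
    · exact hadj i (by omega)
    · exact (hadj j (by omega)).symm

lemma quad_le {W : Type} (K : SimpleGraph W) (S : Finset W) {f : W → ℝ} (hf : ∀ v, 0 ≤ f v) :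
    ∑ v ∈ S, f v * ∑ w ∈ S, (if K.Adj v w then f w else 0)
      ≤ ((S.card : ℝ) - 1) * ∑ v ∈ S, f v ^ 2 := by
  have h1 : ∑ v ∈ S, f v * ∑ w ∈ S, (if K.Adj v w then f w else 0) + ∑ v ∈ S, f v ^ 2
      ≤ (∑ v ∈ S, f v) ^ 2 := by
    rw [sq (∑ v ∈ S, f v), Finset.sum_mul, ← Finset.sum_add_distrib]
    refine Finset.sum_le_sum fun v hv => ?_
    have := mul_le_mul_of_nonneg_left (core_sum_le (K := K) hf hv) (hf v)
    linarith
  have h2 := sq_sum_le_card_mul_sum_sq (s := S) (f := f)
  linarith

lemma geom_bound {t : ℝ} (ht : 1 < t) (d : ℕ) :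
    ∑ j ∈ range d, (t ^ j) ^ 2 ≤ (t ^ d) ^ 2 * (1 / (t ^ 2 - 1)) := by
  have h0 : 0 < t ^ 2 - 1 := by nlinarith
  have h1 : (∑ j ∈ range d, (t ^ j) ^ 2) * (t ^ 2 - 1) = (t ^ d) ^ 2 - 1 := by
    induction d with
    | zero => simp
    | succ d ih => rw [Finset.sum_range_succ, add_mul, ih]; ring
  rw [mul_one_div, le_div_iff₀ h0, h1]
  linarith

lemma pend_of_geo {W : Type} [Fintype W] {K : SimpleGraph W} {u : W} {d e : ℕ} {p : ℕ → W}
    (h0 : p 0 = u) (inj : ∀ i j, i ≤ d → j ≤ d → p i = p j → i = j)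
    (hadj : ∀ i j, i ≤ d → j ≤ d → (K.Adj (p i) (p j) ↔ (i + 1 = j ∨ j + 1 = i)))
    (he : e ≤ d) (hno : ∀ j, j < e → ∀ v, (∀ l, l ≤ d → v ≠ p l) → ¬ K.Adj (p j) v) :
    ∃ C, Pend K u e p C := by
  refine ⟨Finset.univ.filter (fun v => ∀ j, j < e → v ≠ p j), h0,
    fun i j hi hj => inj i j (by omega) (by omega), fun v => by simp, fun j hj v => ?_⟩
  constructor
  · intro h
    by_cases hv : ∀ l, l ≤ d → v ≠ p l
    · exact absurd h (hno j hj v hv)
    · push Not at hv
      obtain ⟨l, hl, rfl⟩ := hv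
      rcases (hadj j l (by omega) hl).mp h with h1 | h1
      · left; rw [h1]
      · right; exact ⟨by omega, by rw [← h1]; rfl⟩
  · rintro (rfl | ⟨h1, rfl⟩)
    · exact (hadj j (j + 1) (by omega) (by omega)).mpr (Or.inl rfl)
    · exact (hadj j (j - 1) (by omega) (by omega)).mpr (Or.inr (by omega))

theorem one_sided {W : Type} [Fintype W] {K : SimpleGraph W} (hK : K.Connected) (u : W)
    {t mu al : ℝ} (ht : 1 < t) (hal : 0 < al) {f : W → ℝ} {fo : ℝ} (hf : ∀ v, 0 < f v)
    (hU : ∀ v, nb K f v + (if v = u then fo else 0) ≤ (t + 1 / t) * f v)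
    (hL : ∀ v, mu * f v ≤ nb K f v + (if v = u then fo else 0))
    (H2 : t * f u - fo ≤ (t - 1 / t) * al) (H3 : fo ≤ al / t) :
    ∃ (d k : ℕ) (T Q : ℝ), d + k = Fintype.card W ∧ 1 ≤ k ∧ (d = 0 ∨ mu ≤ k) ∧ 0 ≤ T ∧ T ≤ 1 ∧
      Q ≤ k * T ^ 2 ∧ (mu - k + 1) * Q ≤ 1 / t ∧ (mu - k + 1) * T ≤ 1 / t ∧
      ∑ v, f v ^ 2 ≤ al ^ 2 * (t ^ d) ^ 2 * (1 / (t ^ 2 - 1) + Q) ∧
      ((∃ p C, Pend K u d p C) ∨
        (∃ e, d = e + 1 ∧ (mu - k + 3) * T ≤ 1 + 1 / t ∧ ∃ p C, Pend K u e p C) ∨
        (mu - k + 2) * T ≤ 1 / t) := by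
  have hf0 : ∀ v, 0 ≤ f v := fun v => (hf v).le
  obtain ⟨top, -, htop⟩ := Finset.exists_max_image Finset.univ f ⟨u, Finset.mem_univ _⟩
  have hmax : ∀ v, f v ≤ f top := fun v => htop v (Finset.mem_univ _)
  obtain ⟨d, p, hp0, hpd, inj, hadj⟩ := exists_geodesic hK u top
  set R := Finset.univ.filter (fun v => ∀ j, j < d + 1 → v ≠ p j) with hR
  have hRmem : ∀ v, v ∈ R ↔ ∀ j, j < d + 1 → v ≠ p j := fun v => by simp [hR]
  have hsplit := sum_split (d + 1) p (fun i j hi hj => inj i j (by omega) (by omega)) R hRmem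
  have hcard : d + (R.card + 1) = Fintype.card W := by
    have := hsplit (fun _ => 1)
    simp only [Finset.sum_const, Finset.card_univ, nsmul_eq_mul, mul_one, Finset.card_range] at this
    have h2 : Fintype.card W = d + 1 + R.card := by exact_mod_cast this
    omega
  set E : ℕ → ℝ := fun j => ∑ v ∈ R, if K.Adj (p j) v then f v else 0 with hE
  have hE0 : ∀ j, 0 ≤ E j := fun j =>
    Finset.sum_nonneg fun v _ => by split_ifs; exacts [hf0 v, le_rfl]
  set q := ext p f fo with hq
  have hq1 : ∀ j, q (j + 1) = f (p j) := fun j => rfl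
  have hq0 : q 0 = fo := rfl
  -- neighbour sums along the path
  have hnb : ∀ j, j ≤ d → nb K f (p j) + (if p j = u then fo else 0)
      = q j + (if j < d then q (j + 2) else 0) + E j := by
    intro j hj
    unfold nb
    rw [hsplit]
    have e1 : ∑ l ∈ range (d + 1), (if K.Adj (p j) (p l) then f (p l) else 0)
        = ∑ l ∈ range (d + 1), ((if l = j + 1 then f (p l) else 0)
          + (if l = j - 1 then (if j = 0 then 0 else f (p l)) else 0)) := by
      refine Finset.sum_congr rfl fun l hl => ?_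
      rw [Finset.mem_range] at hl
      rw [hadj j l hj (by omega)]
      by_cases h1 : l = j + 1
      · rw [if_pos (Or.inl h1.symm), if_pos h1, if_neg (by omega)]; ring
      · by_cases h2 : l + 1 = j
        · rw [if_pos (Or.inr h2), if_neg h1, if_pos (by omega), if_neg (by omega)]; ring
        · rw [if_neg (by omega), if_neg h1]
          split_ifs
          · ring
          · omega
          · ring
    rw [e1, Finset.sum_add_distrib, Finset.sum_ite_eq', Finset.sum_ite_eq',
      if_pos (show j - 1 ∈ range (d + 1) by rw [Finset.mem_range]; omega)]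
    have e2 : (if j + 1 ∈ range (d + 1) then f (p (j + 1)) else 0)
        = if j < d then q (j + 2) else 0 := by
      simp only [Finset.mem_range, Nat.add_lt_add_iff_right]; rfl
    rw [e2]
    rcases j with _ | j
    · rw [if_pos rfl, if_pos hp0, hq0]; simp only [hE]; ring
    · rw [if_neg (show ¬ (j + 1 = 0) by omega), if_neg (show ¬ p (j + 1) = u from fun he => by
        have := inj (j + 1) 0 hj (by omega) (he.trans hp0.symm); omega), hq1 j]
      simp only [hE, Nat.add_sub_cancel]; ring
  have htpos : 0 < t := by linarith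
  set s := 1 / t with hs
  have hst : s * t = 1 := by rw [hs]; field_simp
  have hs0 : 0 < s := by positivity
  -- growth
  have hgrow : ∀ j, j ≤ d → 0 ≤ al * t ^ j * s - q j ∧
      ∑ i ∈ range j, E i ≤ (al * t ^ j - q (j + 1)) - s * (al * t ^ j * s - q j) := by
    intro j
    induction j with
    | zero =>
      intro _
      have h3 : al / t = al * s := by rw [hs]; ring
      rw [h3] at H3
      refine ⟨by rw [hq0]; linarith, ?_⟩
      rw [hq0, hq1, hp0]
      have h4 := mul_le_mul_of_nonneg_left H2 hs0.le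
      simp only [Finset.range_zero, Finset.sum_empty, pow_zero, mul_one]
      have h5 : s * (t * f u - fo) = f u - s * fo := by linear_combination (f u) * hst
      have h6 : s * ((t - s) * al) = al - s * (al * s) := by linear_combination al * hst
      linarith
    | succ j ih =>
      intro hj
      obtain ⟨h1, h2⟩ := ih (by omega)
      have h3 : 0 ≤ ∑ i ∈ range j, E i := Finset.sum_nonneg fun i _ => hE0 i
      have h4 : al * t ^ (j + 1) * s = al * t ^ j := by
        rw [pow_succ]; linear_combination (al * t ^ j) * hst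
      have h5 := mul_nonneg hs0.le h1
      refine ⟨by rw [h4]; linarith, ?_⟩
      have h6 := hU (p j)
      rw [hnb j (by omega), if_pos (show j < d by omega), ← hq1] at h6
      rw [Finset.sum_range_succ, h4]
      have h7 := mul_le_mul_of_nonneg_left h2 htpos.le
      have h8 := mul_le_mul_of_nonneg_right ht.le h3
      have h9 : t * (al * t ^ j - q (j + 1) - s * (al * t ^ j * s - q j))
          = al * t ^ (j + 1) - t * q (j + 1) - (al * t ^ j * s - q j) := by
        rw [pow_succ]; linear_combination (-(al * t ^ j * s - q j)) * hst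
      have h10 : s * (al * t ^ j - q (j + 1)) = al * t ^ j * s - s * q (j + 1) := by ring
      linarith
  have hpath : ∀ j, j ≤ d → f (p j) + ∑ i ∈ range j, E i ≤ al * t ^ j := fun j hj => by
    obtain ⟨h1, h2⟩ := hgrow j hj
    have := mul_nonneg hs0.le h1
    rw [hq1] at h2
    linarith
  have hpath' : ∀ j, j ≤ d → f (p j) ≤ al * t ^ j := fun j hj => by
    have := hpath j hj
    have h3 : 0 ≤ ∑ i ∈ range j, E i := Finset.sum_nonneg fun i _ => hE0 i
    linarith
  set P := al * t ^ d with hP
  have hP0 : 0 < P := by positivity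
  have hqd : q d ≤ P * s := by have := (hgrow d le_rfl).1; linarith
  have hpj : ∀ j, j < d → f (p j) ≤ P * s := fun j hj => by
    refine (hpath' j hj.le).trans ?_
    have h1 : t ^ j * t ≤ t ^ d := by
      rw [← pow_succ]; exact pow_le_pow_right₀ ht.le (by omega)
    have h2 := mul_le_mul_of_nonneg_left h1 (mul_pos hal hs0).le
    have h3 : al * s * (t ^ j * t) = al * t ^ j := by linear_combination (al * t ^ j) * hst
    rw [hP]; linarith
  set M := f top with hM
  have hM0 : 0 < M := hf top
  have hMP : M ≤ P := by rw [hM, ← hpd]; exact hpath' d le_rfl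
  have hdeg : mu * M ≤ q d + E d := by
    have := hL (p d)
    rw [hnb d le_rfl, if_neg (lt_irrefl d), hpd] at this
    linarith
  have hEd : ∀ v ∈ R, E d ≤ f v + ((R.card : ℝ) - 1) * M := fun v hv => by
    have h1 : E d ≤ ∑ w ∈ R, f w :=
      Finset.sum_le_sum fun w _ => by split_ifs; exacts [le_rfl, hf0 w]
    rw [← Finset.add_sum_erase R f hv] at h1
    have h2 := Finset.sum_le_card_nsmul (R.erase v) f M (fun w _ => hmax w)
    have h3 : ((R.erase v).card : ℝ) = R.card - 1 := by
      rw [← Finset.card_erase_add_one hv]; push_cast; ring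
    rw [nsmul_eq_mul, h3] at h2
    linarith
  have hEd' : E d ≤ (R.card : ℝ) * M := by
    have h1 : E d ≤ ∑ w ∈ R, f w :=
      Finset.sum_le_sum fun w _ => by split_ifs; exacts [le_rfl, hf0 w]
    have h2 := Finset.sum_le_card_nsmul R f M (fun w _ => hmax w)
    rw [nsmul_eq_mul] at h2
    linarith
  set N := ∑ v ∈ R, f v ^ 2 with hN
  have hNle : N ≤ (R.card : ℝ) * M ^ 2 := by
    have h2 := Finset.sum_le_card_nsmul R (fun v => f v ^ 2) (M ^ 2)
      (fun w _ => pow_le_pow_left₀ (hf0 w) (hmax w) 2)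
    rwa [nsmul_eq_mul] at h2
  have hquad : (mu - R.card) * (M ^ 2 + N) ≤ P ^ 2 * s := by
    have h1 : mu * N ≤ ∑ l ∈ range (d + 1), f (p l) * E l
        + ∑ v ∈ R, f v * ∑ w ∈ R, (if K.Adj v w then f w else 0) := by
      have a1 : ∑ l ∈ range (d + 1), f (p l) * E l
          = ∑ v ∈ R, f v * ∑ l ∈ range (d + 1), (if K.Adj v (p l) then f (p l) else 0) := by
        simp only [hE, Finset.mul_sum]
        rw [Finset.sum_comm]
        refine Finset.sum_congr rfl fun v _ => Finset.sum_congr rfl fun l _ => ?_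
        rw [K.adj_comm]
        split_ifs <;> ring
      rw [a1, hN, Finset.mul_sum, ← Finset.sum_add_distrib]
      refine Finset.sum_le_sum fun v hv => ?_
      have a2 := hL v
      have a3 : v ≠ u := by rw [← hp0]; exact (hRmem v).mp hv 0 (by omega)
      rw [if_neg a3, add_zero] at a2
      unfold nb at a2
      rw [hsplit] at a2
      have := mul_le_mul_of_nonneg_left a2 (hf0 v)
      linarith
    have h2 := quad_le K R hf0
    rw [Finset.sum_range_succ, hpd] at h1
    have h3 : 2 * (M * E d) ≤ (R.card : ℝ) * M ^ 2 + N := by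
      have : 2 * (M * E d) ≤ ∑ v ∈ R, (M ^ 2 + f v ^ 2) := by
        simp only [hE, Finset.mul_sum]
        refine Finset.sum_le_sum fun v _ => ?_
        split_ifs
        · nlinarith [sq_nonneg (M - f v)]
        · nlinarith [sq_nonneg M, sq_nonneg (f v)]
      rwa [Finset.sum_add_distrib, Finset.sum_const, nsmul_eq_mul] at this
    have h4 : ∑ l ∈ range d, f (p l) * E l ≤ P * s * ∑ l ∈ range d, E l := by
      rw [Finset.mul_sum]
      exact Finset.sum_le_sum fun l hl =>
        mul_le_mul_of_nonneg_right (hpj l (Finset.mem_range.mp hl)) (hE0 l)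
    have h5 := hpath d le_rfl
    rw [hpd] at h5
    have h6 := mul_le_mul_of_nonneg_left h5 (mul_pos hP0 hs0).le
    have h7 := mul_le_mul_of_nonneg_left hdeg hM0.le
    have h8 := mul_le_mul_of_nonneg_left hqd hM0.le
    linarith
  have hP2 : 0 < P ^ 2 := by positivity
  have hT : ∀ a b : ℝ, a * M ≤ P * b → a * (M / P) ≤ b := fun a b h => by
    rw [← mul_div_assoc, div_le_iff₀ hP0]; linarith
  refine ⟨d, R.card + 1, M / P, (M ^ 2 + N) / P ^ 2, hcard, by omega, ?_, by positivity,
    (div_le_one hP0).mpr hMP, ?_, ?_, ?_, ?_, ?_⟩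
  · rcases d with _ | d
    · exact Or.inl rfl
    · right
      have h1 : q (d + 1) ≤ M := hmax _
      have h2 : mu * M ≤ ((R.card : ℝ) + 1) * M := by linarith
      push_cast
      exact le_of_mul_le_mul_right h2 hM0
  · rw [div_pow, ← mul_div_assoc]
    push_cast
    exact div_le_div_of_nonneg_right (by linarith) hP2.le
  · rw [← mul_div_assoc, div_le_iff₀ hP2]
    push_cast
    linarith
  · apply hT
    push_cast
    linarith
  · rw [hsplit, Finset.sum_range_succ, hpd]
    have h1 : ∑ j ∈ range d, f (p j) ^ 2 ≤ al ^ 2 * ∑ j ∈ range d, (t ^ j) ^ 2 := by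
      rw [Finset.mul_sum]
      refine Finset.sum_le_sum fun j hj => ?_
      rw [← mul_pow]
      exact pow_le_pow_left₀ (hf0 _) (hpath' j (Finset.mem_range.mp hj).le) 2
    have h2 := mul_le_mul_of_nonneg_left (geom_bound ht d) (sq_nonneg al)
    have h3 : al ^ 2 * (t ^ d) ^ 2 * ((M ^ 2 + N) / P ^ 2) = M ^ 2 + N := by
      rw [hP]; field_simp
    rw [mul_add, h3]
    linarith
  · have hEv : ∀ j, ∀ v ∈ R, K.Adj (p j) v → f v ≤ E j := fun j v hv h => by
      have := Finset.single_le_sum (f := fun w => if K.Adj (p j) w then f w else 0) (s := R)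
        (fun w _ => by split_ifs; exacts [hf0 w, le_rfl]) hv
      simpa [h] using this
    by_cases hC : ∃ j, j + 1 < d ∧ ∃ v ∈ R, K.Adj (p j) v
    · right; right
      obtain ⟨j, hj, v, hv, hjv⟩ := hC
      obtain ⟨e, rfl⟩ : ∃ e, d = e + 1 := ⟨d - 1, by omega⟩
      have h1 := hpath e (by omega)
      have h2 : E j ≤ ∑ i ∈ range e, E i :=
        Finset.single_le_sum (fun i _ => hE0 i) (Finset.mem_range.mpr (by omega))
      have h3 := hEv j v hv hjv
      have h4 := hEd v hv
      have h5 : P * s = al * t ^ e := by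
        rw [hP, pow_succ]; linear_combination (al * t ^ e) * hst
      rw [hq1] at hdeg
      apply hT
      push_cast
      linarith
    · push Not at hC
      by_cases hB : ∃ e, d = e + 1 ∧ ∃ v ∈ R, K.Adj (p e) v
      · right; left
        obtain ⟨e, rfl, v, hv, hjv⟩ := hB
        refine ⟨e, rfl, ?_, p, pend_of_geo hp0 inj hadj (by omega) fun j hj w hw =>
          hC j (by omega) w ((hRmem w).mpr fun l hl => hw l (by omega))⟩
        have h1 := hpath (e + 1) le_rfl
        have h2 : E e ≤ ∑ i ∈ range (e + 1), E i :=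
          Finset.single_le_sum (fun i _ => hE0 i) (Finset.mem_range.mpr (by omega))
        have h3 := hEv e v hv hjv
        have h4 := hEd v hv
        rw [hpd] at h1
        apply hT
        push_cast
        linarith
      · left
        push Not at hB
        refine ⟨p, pend_of_geo hp0 inj hadj le_rfl fun j hj w hw => ?_⟩
        have hwR := (hRmem w).mpr fun l hl => hw l (by omega)
        by_cases h : j + 1 < d
        · exact hC j h w hwR
        · exact hB j (by omega) w hwR

end Pool.Agent.Lib.MP_5ca2c7_co
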