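import Pool.Agent.Lib.MP_5ca2c7_co.DKBound

/-!
Rooted graphs consisting of a pendant path and a core.
-/

set_option autoImplicit false

namespace Pool.Agent.Lib.MP_5ca2c7_co

open Finset Classical

/-- `p 0, ..., p d` is a pendant path starting at the root, and `C` is the rest, with `p d`. -/
structure Pend {W : Type} (K : SimpleGraph W) (u : W) (d : ℕ) (p : ℕ → W) (C : Finset W) :
    Prop where
  h0 : p 0 = u
  inj : ∀ i j, i ≤ d → j ≤ d → p i = p j → i = j
  mem : ∀ v, v ∈ C ↔ ∀ j, j < d → v ≠ p j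
  adj : ∀ j, j < d → ∀ v, K.Adj (p j) v ↔ (v = p (j + 1) ∨ (0 < j ∧ v = p (j - 1)))

/-- The values along the path, preceded by the outside value. -/
def ext {W : Type} (p : ℕ → W) (f : W → ℝ) (fo : ℝ) : ℕ → ℝ
  | 0 => fo
  | j + 1 => f (p j)

lemma sum_split {W : Type} [Fintype W] (e : ℕ) (p : ℕ → W)
    (inj : ∀ i j, i < e → j < e → p i = p j → i = j) (C : Finset W)
    (hC : ∀ v, v ∈ C ↔ ∀ j, j < e → v ≠ p j) (F : W → ℝ) :
    ∑ w, F w = ∑ j ∈ range e, F (p j) + ∑ v ∈ C, F v := by
  have h1 : C = ((range e).image p)ᶜ := by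
    ext v
    rw [hC, Finset.mem_compl, Finset.mem_image]
    constructor
    · rintro h ⟨j, hj, rfl⟩
      exact h j (Finset.mem_range.mp hj) rfl
    · intro h j hj hv
      exact h ⟨j, Finset.mem_range.mpr hj, hv.symm⟩
  rw [h1, ← Finset.sum_add_sum_compl ((range e).image p), Finset.sum_image]
  intro i hi j hj h
  exact inj i j (Finset.mem_range.mp hi) (Finset.mem_range.mp hj) h

section Pend

variable {W : Type} [Fintype W] {K : SimpleGraph W} {u : W} {d : ℕ} {p : ℕ → W} {C : Finset W}

lemma Pend.card (h : Pend K u d p C) : d + C.card = Fintype.card W := by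
  have := sum_split d p (fun i j hi hj => h.inj i j hi.le hj.le) C h.mem (fun _ => 1)
  simp only [Finset.sum_const, Finset.card_univ, nsmul_eq_mul, mul_one, Finset.card_range] at this
  exact_mod_cast this.symm

omit [Fintype W] in
lemma Pend.top_mem (h : Pend K u d p C) : p d ∈ C :=
  (h.mem _).mpr fun j hj he => by have := h.inj _ _ le_rfl hj.le he; omega

lemma Pend.nb_path (h : Pend K u d p C) (f : W → ℝ) (fo : ℝ) {j : ℕ} (hj : j < d) :
    nb K f (p j) + (if p j = u then fo else 0) = ext p f fo j + ext p f fo (j + 2) := by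
  rcases j with _ | j
  · have : nb K f (p 0) = ∑ w, if w = p 1 then f w else 0 := by
      unfold nb
      refine Finset.sum_congr rfl fun w _ => ?_
      simp [h.adj 0 hj w]
    rw [this, if_pos h.h0]
    simp [ext, add_comm]
  · have hne : p (j + 2) ≠ p j := fun he => by
      have := h.inj _ _ (by omega) (by omega) he; omega
    have : nb K f (p (j + 1))
        = ∑ w, ((if w = p j then f w else 0) + (if w = p (j + 2) then f w else 0)) := by
      unfold nb
      refine Finset.sum_congr rfl fun w _ => ?_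
      rw [h.adj (j + 1) hj w]
      by_cases h1 : w = p j
      · subst h1; simp [hne.symm]
      · by_cases h2 : w = p (j + 2)
        · subst h2; simp [hne]
        · simp [h1, h2]
    rw [this, if_neg, Finset.sum_add_distrib]
    · simp [ext]
    · intro he
      have := h.inj (j + 1) 0 (by omega) (by omega) (he.trans h.h0.symm)
      omega

lemma Pend.nb_core (h : Pend K u d p C) (f : W → ℝ) (fo : ℝ) {v : W} (hv : v ∈ C) :
    nb K f v + (if v = u then fo else 0)
      = ∑ w ∈ C, (if K.Adj v w then f w else 0) + (if v = p d then ext p f fo d else 0) := by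
  unfold nb
  rw [sum_split d p (fun i j hi hj => h.inj i j hi.le hj.le) C h.mem]
  have hv' := (h.mem v).mp hv
  rcases d with _ | d
  · simp [h.h0, ext]
  · have hvu : v ≠ u := by rw [← h.h0]; exact hv' 0 (by omega)
    rw [if_neg hvu, Finset.sum_range_succ, Finset.sum_eq_zero]
    · have : K.Adj v (p d) ↔ v = p (d + 1) := by
        rw [K.adj_comm, h.adj d (by omega)]
        constructor
        · rintro (h1 | h1)
          · exact h1
          · exact absurd h1.2 (hv' _ (by omega))
        · exact Or.inl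
      simp only [this, ext]
      ring
    · intro j hj
      rw [Finset.mem_range] at hj
      rw [if_neg]
      rw [K.adj_comm, h.adj j (by omega)]
      rintro (h1 | h1)
      · exact hv' _ (by omega) h1
      · exact hv' _ (by omega) h1.2

omit [Fintype W] in
lemma core_sum_le {f : W → ℝ} (hf : ∀ v, 0 ≤ f v) {v : W} (hv : v ∈ C) :
    ∑ w ∈ C, (if K.Adj v w then f w else 0) + f v ≤ ∑ w ∈ C, f w := by
  have : f v = ∑ w ∈ C, if w = v then f w else 0 := by simp [hv]
  rw [this, ← Finset.sum_add_distrib]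
  refine Finset.sum_le_sum fun w _ => ?_
  by_cases h1 : w = v
  · subst h1; simp
  · rw [if_neg h1]; split_ifs
    · linarith
    · have := hf w; linarith

omit [Fintype W] in
lemma core_sum_le' {f : W → ℝ} (hf : ∀ v, 0 ≤ f v) {v v' : W} (hv : v ∈ C) (hv' : v' ∈ C)
    (hne : v ≠ v') (hna : ¬ K.Adj v v') :
    ∑ w ∈ C, (if K.Adj v w then f w else 0) + f v + f v' ≤ ∑ w ∈ C, f w := by
  have e1 : f v = ∑ w ∈ C, if w = v then f w else 0 := by simp [hv]
  have e2 : f v' = ∑ w ∈ C, if w = v' then f w else 0 := by simp [hv']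
  rw [e1, e2, ← Finset.sum_add_distrib, ← Finset.sum_add_distrib]
  refine Finset.sum_le_sum fun w _ => ?_
  by_cases h1 : w = v
  · subst h1; simp [hne]
  · by_cases h2 : w = v'
    · subst h2; simp [hna, h1]
    · rw [if_neg h1, if_neg h2]; split_ifs
      · linarith
      · have := hf w; linarith

variable {lam nu : ℝ} {x y : W → ℝ} {xo yo : ℝ}

lemma Side.ext_nonneg (hS : Side K u lam nu x y xo yo) (p : ℕ → W) (j : ℕ) :
    0 ≤ ext p y yo (j + 1) := hS.ynn _

lemma core_prep (hS : Side K u lam nu x y xo yo) (h : Pend K u d p C) {t q : ℝ} (ht : 1 ≤ t)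
    (hq : q * t = 1) (hnu : t + q ≤ nu) :
    0 < ∑ w ∈ C, y w ∧ (∀ v ∈ C, nu * y v
      ≤ ∑ w ∈ C, (if K.Adj v w then y w else 0) + (if v = p d then q * y (p d) else 0)) := by
  have hq0 : 0 < q := by
    by_contra hc
    push Not at hc
    nlinarith
  have hgrow : ∀ j, j ≤ d → ext p y yo j ≤ q * ext p y yo (j + 1) := by
    intro j
    induction j with
    | zero =>
      intro _
      have := mul_nonneg hq0.le (hS.ext_nonneg p 0)
      have h2 : ext p y yo 0 = yo := rfl
      have := hS.yonp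
      linarith
    | succ j ih =>
      intro hj
      have h1 := ih (by omega)
      have h2 := h.nb_path y yo (show j < d by omega)
      rw [hS.yeq] at h2
      have h3 : y (p j) = ext p y yo (j + 1) := rfl
      rw [h3] at h2
      have h4 := hS.ext_nonneg p j
      have h5 : t * ext p y yo (j + 1) ≤ ext p y yo (j + 2) := by nlinarith
      have h6 := mul_le_mul_of_nonneg_left h5 hq0.le
      rw [← mul_assoc, hq, one_mul] at h6
      exact h6
  constructor
  · obtain ⟨v, hv⟩ := hS.yne
    have key : ∃ w ∈ C, 0 < y w := by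
      by_cases hvC : v ∈ C
      · exact ⟨v, hvC, hv⟩
      · rcases d with _ | d
        · exact absurd ((h.mem v).mpr (fun j hj => by omega)) hvC
        · refine ⟨p (d + 1), h.top_mem, hS.ypos _ fun he => ?_⟩
          have := h.inj (d + 1) 0 le_rfl (by omega) (he.trans h.h0.symm)
          omega
    obtain ⟨w, hw, hw'⟩ := key
    exact Finset.sum_pos' (fun w _ => hS.ynn w) ⟨w, hw, hw'⟩
  · intro v hv
    rw [← hS.yeq, h.nb_core y yo hv]
    split_ifs
    · have := hgrow d le_rfl
      have h3 : y (p d) = ext p y yo (d + 1) := rfl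
      rw [h3]; linarith
    · exact le_rfl

lemma core_any (hS : Side K u lam nu x y xo yo) (h : Pend K u d p C) {t q : ℝ} (ht : 1 ≤ t)
    (hq : q * t = 1) (hnu : t + q ≤ nu) : (nu + 1 - C.card) * (nu + 1 - q) ≤ q := by
  obtain ⟨hs, hv⟩ := core_prep hS h ht hq hnu
  have hq0 : 0 < q := by
    by_contra hc
    push Not at hc
    nlinarith
  set s := ∑ w ∈ C, y w with hsdef
  have h1 : ∀ v ∈ C, (nu + 1) * y v ≤ s + (if v = p d then q * y (p d) else 0) := fun v hvC => by
    have := hv v hvC
    have := core_sum_le (K := K) hS.ynn hvC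
    linarith
  have h2 := h1 _ h.top_mem
  rw [if_pos rfl] at h2
  have h3 := Finset.sum_le_sum h1
  rw [← Finset.mul_sum, Finset.sum_add_distrib, Finset.sum_const, nsmul_eq_mul,
    Finset.sum_ite_eq', if_pos h.top_mem, ← hsdef] at h3
  have h4 : 0 < nu + 1 - q := by linarith
  have h5 : (nu + 1 - C.card) * (nu + 1 - q) * s ≤ q * s := by
    have h6 := mul_le_mul_of_nonneg_left
      (show (nu + 1 - C.card) * s ≤ q * y (p d) by linarith) h4.le
    have h7 := mul_le_mul_of_nonneg_left (show (nu + 1 - q) * y (p d) ≤ s by linarith) hq0.le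
    linarith
  exact le_of_mul_le_mul_right h5 hs

lemma core_incomplete (hS : Side K u lam nu x y xo yo) (h : Pend K u d p C) {t q : ℝ}
    (ht : 1 ≤ t) (hq : q * t = 1) (hnu : t + q ≤ nu) {v v' : W} (hvC : v ∈ C) (hvC' : v' ∈ C)
    (hne : v ≠ v') (hna : ¬ K.Adj v v') :
    ((nu + 2) * (nu + 1 - C.card) + 2) * (nu + 1 - q) ≤ (nu + 2) * q := by
  obtain ⟨hs, hv⟩ := core_prep hS h ht hq hnu
  have hq0 : 0 < q := by
    by_contra hc
    push Not at hc
    nlinarith
  set s := ∑ w ∈ C, y w with hsdef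
  set c := y (p d) with hc
  have hc0 : 0 ≤ c := hS.ynn _
  have h1 : ∀ w ∈ C, (nu + 1) * y w ≤ s + (if w = p d then q * c else 0) := fun w hw => by
    have := hv w hw
    have := core_sum_le (K := K) hS.ynn hw
    linarith
  have h2 := h1 _ h.top_mem
  rw [if_pos rfl] at h2
  have ha : (nu + 1) * y v + y v' ≤ s + (if v = p d then q * c else 0) := by
    have := hv v hvC
    have := core_sum_le' (K := K) hS.ynn hvC hvC' hne hna
    linarith
  have hb : (nu + 1) * y v' + y v ≤ s + (if v' = p d then q * c else 0) := by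
    have := hv v' hvC'
    have := core_sum_le' (K := K) hS.ynn hvC' hvC hne.symm (fun h' => hna h'.symm)
    linarith
  have hm : v' ∈ C.erase v := Finset.mem_erase.mpr ⟨hne.symm, hvC'⟩
  set D := (C.erase v).erase v' with hD
  have hsum : ∀ F : W → ℝ, ∑ w ∈ C, F w = F v + F v' + ∑ w ∈ D, F w := fun F => by
    rw [← Finset.add_sum_erase C F hvC, ← Finset.add_sum_erase _ F hm]; ring
  have hcard : (C.card : ℝ) = 2 + D.card := by
    have := hsum (fun _ => 1)
    simp only [Finset.sum_const, nsmul_eq_mul, mul_one] at this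
    linarith
  have h3 := Finset.sum_le_sum (s := D)
    (fun w hw => h1 w (Finset.mem_of_mem_erase (Finset.mem_of_mem_erase hw)))
  rw [← Finset.mul_sum, Finset.sum_add_distrib, Finset.sum_const, nsmul_eq_mul] at h3
  have h4 := hsum (fun w => if w = p d then q * c else 0)
  rw [Finset.sum_ite_eq', if_pos h.top_mem] at h4
  have h5 := hsum y
  rw [← hsdef] at h5
  have i1 : 0 ≤ (if v = p d then q * c else 0) := by split_ifs <;> positivity
  have i2 : 0 ≤ (if v' = p d then q * c else 0) := by split_ifs <;> positivity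
  have hN : 0 < nu + 1 - q := by linarith
  have hN1 : 0 < nu + 1 := by linarith
  have h6 : ((nu + 2) * (nu + 1 - C.card) + 2) * s ≤ (nu + 2) * (q * c) := by
    have k1 := mul_le_mul_of_nonneg_left h3 (show 0 ≤ nu + 2 by linarith)
    have k2 := mul_le_mul_of_nonneg_left (add_le_add ha hb) hN1.le
    have k3 : (nu + 2) * (nu + 1) * s
        = (nu + 2) * (nu + 1) * (y v + y v' + ∑ w ∈ D, y w) := by rw [← h5]
    rw [hcard]
    have k4 : (nu + 2) * (q * c) = (nu + 2) * ((if v = p d then q * c else 0)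
      + (if v' = p d then q * c else 0) + ∑ w ∈ D, if w = p d then q * c else 0) := by rw [← h4]
    rw [k4]
    linarith
  have h7 : ((nu + 2) * (nu + 1 - C.card) + 2) * (nu + 1 - q) * s ≤ (nu + 2) * q * s := by
    have k1 := mul_le_mul_of_nonneg_left h6 hN.le
    have k2 := mul_le_mul_of_nonneg_left (show (nu + 1 - q) * c ≤ s by linarith)
      (mul_nonneg (show 0 ≤ nu + 2 by linarith) hq0.le)
    linarith
  exact le_of_mul_le_mul_right h7 hs

/-- The loss caused by a missing edge. -/
noncomputable def eta (k : ℕ) : ℝ := if k ≤ 3 then 0 else 1 / ((k : ℝ) + 1)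

lemma core_le_tauR (hS : Side K u lam nu x y xo yo) (h : Pend K u d p C) (hk : 3 ≤ C.card) :
    nu ≤ tauR C.card + 1 / tauR C.card := by
  by_contra hc
  push Not at hc
  have h1 := one_lt_tauR hk
  have h2 := tauR_sq (show 2 ≤ C.card by omega)
  set a := tauR C.card
  have hq : 1 / a * a = 1 := by field_simp
  have hq0 : 0 < 1 / a := by positivity
  have h3 := core_any hS h h1.le hq hc.le
  set q := 1 / a
  have h4 : (a + q + 1 - C.card) * (a + 1) = q := by
    linear_combination h2 + hq
  have h5 : 0 < a + q + 1 - C.card := by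
    by_contra hc'
    push Not at hc'
    nlinarith
  nlinarith

lemma core_le_half (hS : Side K u lam nu x y xo yo) (h : Pend K u d p C) (hnu : 2 < nu) :
    nu < C.card - 1 / 2 := by
  have h3 := core_any hS h (t := 1) (q := 1) le_rfl (by ring) (by linarith)
  by_contra hc
  push Not at hc
  nlinarith

lemma core_le_eta (hS : Side K u lam nu x y xo yo) (h : Pend K u d p C) (hnu : 2 < nu)
    {v v' : W} (hvC : v ∈ C) (hvC' : v' ∈ C) (hne : v ≠ v') (hna : ¬ K.Adj v v') :
    nu ≤ C.card - 1 - eta C.card := by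
  have h1 := core_incomplete hS h (t := 1) (q := 1) le_rfl (by ring) (by linarith) hvC hvC' hne hna
  have h2 : nu + 1 ≤ C.card := by
    by_contra hc
    push Not at hc
    have : 0 < (nu + 2) * (nu + 1 - C.card) := mul_pos (by linarith) (by linarith)
    nlinarith
  unfold eta
  split_ifs with hk
  · linarith
  · have hk' : (4 : ℝ) ≤ C.card := by exact_mod_cast (show 4 ≤ C.card by omega)
    set k : ℝ := (C.card : ℝ)
    by_contra hc
    push Not at hc
    have e1 : 1 / (k + 1) ≤ 1 / 5 := one_div_le_one_div_of_le (by norm_num) (by linarith)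
    have e2 : 1 / (k - 2) ≤ 1 / 2 := one_div_le_one_div_of_le (by norm_num) (by linarith)
    have hq : 1 / (k - 2) * (k - 2) = 1 := by
      have : k - 2 ≠ 0 := by linarith
      field_simp
    have h3 := core_incomplete hS h (t := k - 2) (by linarith) hq (by linarith) hvC hvC' hne hna
    have e3 : 1 / (k + 1) * (k + 1) = 1 := by field_simp
    have e4 : 0 < 1 / (k + 1) := by positivity
    have h4 : 1 ≤ (nu + 2) * (nu + 1 - k) + 2 := by
      have : (nu + 2) * (-(1 / (k + 1))) ≤ (nu + 2) * (nu + 1 - k) :=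
        mul_le_mul_of_nonneg_left (by linarith) (by linarith)
      have : (nu + 2) * (1 / (k + 1)) ≤ (k + 1) * (1 / (k + 1)) :=
        mul_le_mul_of_nonneg_right (by linarith) e4.le
      linarith
    have h5 := mul_le_mul_of_nonneg_right h4 (show 0 ≤ nu + 1 - 1 / (k - 2) by linarith)
    have h6 := mul_le_mul_of_nonneg_left e2 (show 0 ≤ nu + 2 by linarith)
    linarith

lemma kite_of_complete (hS : Side K u lam nu x y xo yo) (h : Pend K u d p C) {mu : ℝ}
    (hmu : mu ≤ nu) (hcomp : ∀ v ∈ C, ∀ w ∈ C, v ≠ w → K.Adj v w) :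
    IsKite d C.card lam mu (x u) (y u) xo yo := by
  have htop := h.top_mem
  set D := C.erase (p d) with hD
  have hcard : (C.card : ℝ) = D.card + 1 := by
    rw [hD, ← Finset.card_erase_add_one htop]; push_cast; ring
  have hnb : ∀ (f : W → ℝ), ∀ v ∈ C, ∑ w ∈ C, (if K.Adj v w then f w else 0)
      = f (p d) + ∑ w ∈ D, f w - f v := fun f v hv => by
    rw [Finset.add_sum_erase C f htop, ← Finset.add_sum_erase C f hv,
      ← Finset.add_sum_erase C _ hv, if_neg (K.irrefl)]
    rw [Finset.sum_congr rfl (fun w hw => if_pos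
      (hcomp v hv w (Finset.mem_of_mem_erase hw) (Finset.ne_of_mem_erase hw).symm))]
    ring
  have hxrt := h.nb_core x xo htop
  rw [hS.xeq, hnb x _ htop, if_pos rfl] at hxrt
  have hyrt := h.nb_core y yo htop
  rw [hS.yeq, hnb y _ htop, if_pos rfl] at hyrt
  have hxv : ∀ v ∈ D, lam * x v = x (p d) + ∑ w ∈ D, x w - x v := fun v hv => by
    have := h.nb_core x xo (Finset.mem_of_mem_erase hv)
    rw [hS.xeq, hnb x _ (Finset.mem_of_mem_erase hv), if_neg (Finset.ne_of_mem_erase hv)] at this
    linarith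
  have hyv : ∀ v ∈ D, nu * y v = y (p d) + ∑ w ∈ D, y w - y v := fun v hv => by
    have := h.nb_core y yo (Finset.mem_of_mem_erase hv)
    rw [hS.yeq, hnb y _ (Finset.mem_of_mem_erase hv), if_neg (Finset.ne_of_mem_erase hv)] at this
    linarith
  have hmul : ∀ v, mu * y v ≤ nu * y v := fun v => mul_le_mul_of_nonneg_right hmu (hS.ynn v)
  obtain ⟨Xc, Yc, hXc, hYc, hX1, hY1, hX2, hY2, hY3⟩ : ∃ Xc Yc : ℝ, 0 < Xc ∧ 0 ≤ Yc ∧
      (D.card : ℝ) * Xc ≤ ∑ w ∈ D, x w ∧ ∑ w ∈ D, y w ≤ (D.card : ℝ) * Yc ∧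
      (D.Nonempty → ∃ v ∈ D, x v = Xc) ∧ (D.Nonempty → ∃ v ∈ D, y v = Yc) ∧
      ∀ v ∈ D, y v ≤ Yc := by
    rcases D.eq_empty_or_nonempty with hE | hE
    · refine ⟨1, 0, one_pos, le_rfl, ?_, ?_, ?_, ?_, ?_⟩ <;> simp [hE]
    · obtain ⟨a, ha, ha'⟩ := Finset.exists_min_image D x hE
      obtain ⟨b, hb, hb'⟩ := Finset.exists_max_image D y hE
      refine ⟨x a, y b, hS.xpos a, hS.ynn b, ?_, ?_, fun _ => ⟨a, ha, rfl⟩,
        fun _ => ⟨b, hb, rfl⟩, hb'⟩
      · rw [← nsmul_eq_mul]; exact Finset.card_nsmul_le_sum D x _ ha'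
      · rw [← nsmul_eq_mul]; exact Finset.sum_le_card_nsmul D y _ hb'
  have hne : 2 ≤ C.card → D.Nonempty := fun hk => by
    rw [← Finset.card_pos, hD, Finset.card_erase_of_mem htop]; omega
  refine ⟨ext p x xo, ext p y yo, Xc, Yc, ⟨fun j _ => ?_, hXc, fun j hj => ?_, ?_, fun hk => ?_,
    fun j hj _ => ?_, hS.yonp, hYc, fun j hj => ?_, ?_, fun hk => ?_, ?_⟩,
    rfl, by simp [ext, h.h0], rfl, by simp [ext, h.h0]⟩
  · rcases j with _ | j
    · exact hS.xopos
    · exact hS.xpos _
  · rw [← h.nb_path x xo hj, hS.xeq]; exact le_rfl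
  · rw [hcard]
    show _ ≤ lam * x (p d)
    linarith
  · obtain ⟨v, hv, rfl⟩ := hX2 (hne hk)
    rw [hcard, hxv v hv]
    show _ + x (p d) ≤ _
    linarith
  · obtain ⟨j, rfl⟩ : ∃ i, j = i + 1 := ⟨j - 1, by omega⟩
    exact hS.ynn _
  · rw [← h.nb_path y yo hj, hS.yeq]; exact hmul _
  · rw [hcard]
    have := hmul (p d)
    show mu * y (p d) ≤ _
    linarith
  · obtain ⟨v, hv, rfl⟩ := hY2 (hne hk)
    have := hmul v
    rw [hcard]
    rw [hyv v hv] at this
    show _ ≤ _ + y (p d)
    linarith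
  · show 0 < y (p d) ∨ _
    by_cases hpd : p d = u
    · obtain ⟨v, hv⟩ := hS.yne
      by_cases hvu : v = u
      · left; rwa [hpd, ← hvu]
      · right
        have hd : d = 0 := h.inj d 0 le_rfl (Nat.zero_le _) (hpd.trans h.h0.symm)
        have hvD : v ∈ D := Finset.mem_erase.mpr ⟨by rwa [hpd],
          (h.mem v).mpr (fun j hj => by omega)⟩
        refine ⟨?_, hv.trans_le (hY3 v hvD)⟩
        have := Finset.card_pos.mpr ⟨v, hvD⟩
        rw [hD, Finset.card_erase_of_mem htop] at this
        omega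
    · left; exact hS.ypos _ hpd

end Pend

end Pool.Agent.Lib.MP_5ca2c7_co
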