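import Pool.Agent.Lib.MP_5ca2c7_co.Pend

/-!
Small rooted subgraphs, coded by numbers, and certificates for eigenvalue bounds.
-/

set_option autoImplicit false

namespace Pool.Agent.Lib.MP_5ca2c7_co

open Finset Classical

/-- Adjacency in the graph with code `g`. -/
def ad (g i j : ℕ) : Bool :=
  if j < i then g.testBit (i * (i - 1) / 2 + j)
  else if i < j then g.testBit (j * (j - 1) / 2 + i) else false

lemma ad_symm (g i j : ℕ) : ad g i j = ad g j i := by
  unfold ad
  rcases lt_trichotomy i j with h | h | h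
  · rw [if_neg (by omega), if_pos h, if_pos h]
  · rw [h]
  · rw [if_pos h, if_neg (by omega), if_pos h]

lemma ad_self (g i : ℕ) : ad g i i = false := by simp [ad]

lemma exists_code (a : ℕ → ℕ → Bool) (hs : ∀ i j, a i j = a j i) (hi : ∀ i, a i i = false) :
    ∃ g, g < 1024 ∧ ∀ i, i < 5 → ∀ j, j < 5 → ad g i j = a i j := by
  refine ⟨Nat.ofBits (n := 10) ![a 1 0, a 2 0, a 2 1, a 3 0, a 3 1, a 3 2, a 4 0, a 4 1, a 4 2,
    a 4 3], Nat.ofBits_lt_two_pow _, ?_⟩
  have key : ∀ i, i < 5 → ∀ j, j < i → ad (Nat.ofBits (n := 10) ![a 1 0, a 2 0, a 2 1, a 3 0,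
      a 3 1, a 3 2, a 4 0, a 4 1, a 4 2, a 4 3]) i j = a i j := by
    intro i hi j hj
    unfold ad
    rw [if_pos hj, Nat.testBit_ofBits]
    interval_cases i <;> interval_cases j <;> rfl
  intro i hi' j hj
  rcases lt_trichotomy i j with h | h | h
  · rw [ad_symm, key j hj i h, hs]
  · rw [h, ad_self, hi]
  · exact key i hi' j h

/-- The first `m` vertices in the list `e` induce the rooted graph with code `g`. -/
structure Emb {W : Type} (K : SimpleGraph W) (u : W) (m g : ℕ) (e : ℕ → W) : Prop where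
  pos : 0 < m
  h0 : e 0 = u
  inj : ∀ i j, i < m → j < m → e i = e j → i = j
  adj : ∀ i j, i < m → j < m → (K.Adj (e i) (e j) ↔ ad g i j = true)

section Emb

variable {W : Type} [Fintype W] {K : SimpleGraph W} {u : W} {m g : ℕ} {e : ℕ → W}

lemma exists_order (hK : K.Connected) (u : W) (m : ℕ) (hm : m < Fintype.card W) :
    ∃ e : ℕ → W, e 0 = u ∧ (∀ i j, i ≤ m → j ≤ m → e i = e j → i = j) ∧
      ∀ i, 0 < i → i ≤ m → ∃ j, j < i ∧ K.Adj (e i) (e j) := by
  induction m with
  | zero => exact ⟨fun _ => u, rfl, fun i j _ _ _ => by omega, fun i _ _ => by omega⟩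
  | succ m ih =>
    obtain ⟨e, h0, h1, h2⟩ := ih (by omega)
    obtain ⟨v, hv⟩ : ∃ v, v ∉ (range (m + 1)).image e := by
      by_contra hc
      push Not at hc
      have h3 : (Finset.univ : Finset W) ⊆ (range (m + 1)).image e := fun v _ => hc v
      have h4 := (Finset.card_le_card h3).trans Finset.card_image_le
      rw [Finset.card_univ, Finset.card_range] at h4
      omega
    obtain ⟨p⟩ := hK.preconnected u v
    obtain ⟨d, -, hd1, hd2⟩ := p.exists_boundary_dart (↑((range (m + 1)).image e) : Set W)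
      (by simpa using ⟨0, by omega, h0⟩) (by simpa using hv)
    simp only [Finset.coe_image, Finset.coe_range, Set.mem_image, Set.mem_Iio, not_exists,
      not_and] at hd1 hd2
    obtain ⟨j0, hj0, hj0'⟩ := hd1
    refine ⟨fun i => if i = m + 1 then d.snd else e i, by simp [h0], fun i j hi hj h => ?_,
      fun i hi hi' => ?_⟩
    · by_cases a : i = m + 1 <;> by_cases b : j = m + 1
      · omega
      · simp only [a, b, if_true, if_false] at h
        exact absurd h.symm (hd2 j (by omega))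
      · simp only [a, b, if_true, if_false] at h
        exact absurd h (hd2 i (by omega))
      · simp only [a, b, if_false] at h
        exact h1 i j (by omega) (by omega) h
    · by_cases a : i = m + 1
      · refine ⟨j0, by omega, ?_⟩
        simp only [a, if_true, if_neg (show j0 ≠ m + 1 by omega)]
        rw [hj0']; exact d.adj.symm
      · obtain ⟨j, hj, hj'⟩ := h2 i hi (by omega)
        refine ⟨j, hj, ?_⟩
        simp only [a, if_false, if_neg (show j ≠ m + 1 by omega)]
        exact hj'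

/-- Each vertex after the first is adjacent to an earlier one. -/
def conn (m g : ℕ) : Prop := ∀ i, i < m → 0 < i → ∃ j, j < i ∧ ad g i j = true

instance (m g : ℕ) : Decidable (conn m g) := by unfold conn; infer_instance

lemma exists_emb (hK : K.Connected) (u : W) {m : ℕ} (h1 : 0 < m) (h5 : m ≤ 5)
    (hm : m ≤ Fintype.card W) : ∃ g e, g < 1024 ∧ conn m g ∧ Emb K u m g e := by
  obtain ⟨e, h0, a1, a2⟩ := exists_order hK u (m - 1) (by omega)
  obtain ⟨g, hg, hg'⟩ := exists_code (fun i j => decide (K.Adj (e i) (e j)))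
    (fun i j => by simp only [K.adj_comm]) (fun i => by simp)
  refine ⟨g, e, hg, fun i hi hi' => ?_, h1, h0, fun i j hi hj => a1 i j (by omega) (by omega),
    fun i j hi hj => ?_⟩
  · obtain ⟨j, hj, hj'⟩ := a2 i hi' (by omega)
    exact ⟨j, hj, by rw [hg' i (by omega) j (by omega)]; simpa using hj'⟩
  · rw [hg' i (by omega) j (by omega)]; simp

/-- The list `p` is a relabelling of the graph `g` onto the graph `g'`. -/
def iso (m g g' : ℕ) (p : List ℕ) : Prop :=
  p.getD 0 0 = 0 ∧ ∀ i, i < m → p.getD i 0 < m ∧ ∀ j, j < i → p.getD i 0 ≠ p.getD j 0 ∧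
    ad g (p.getD i 0) (p.getD j 0) = ad g' i j

instance (m g g' : ℕ) (p : List ℕ) : Decidable (iso m g g' p) := by unfold iso; infer_instance

omit [Fintype W] in
lemma Emb.relabel (h : Emb K u m g e) {g' : ℕ} {p : List ℕ} (hp : iso m g g' p) :
    Emb K u m g' (fun i => e (p.getD i 0)) := by
  obtain ⟨p0, p1⟩ := hp
  refine ⟨h.pos, by simp only [p0, h.h0], fun i j hi hj he => ?_, fun i j hi hj => ?_⟩
  · have := h.inj _ _ (p1 i hi).1 (p1 j hj).1 he
    rcases lt_trichotomy i j with a | a | a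
    · exact absurd this.symm ((p1 j hj).2 i a).1
    · exact a
    · exact absurd this ((p1 i hi).2 j a).1
  · rw [h.adj _ _ (p1 i hi).1 (p1 j hj).1]
    rcases lt_trichotomy i j with a | a | a
    · rw [ad_symm, ((p1 j hj).2 i a).2, ad_symm]
    · rw [a, ad_self, ad_self]
    · rw [((p1 i hi).2 j a).2]

omit [Fintype W] in
lemma emb_one (K : SimpleGraph W) (u : W) : Emb K u 1 0 (fun _ => u) :=
  ⟨one_pos, rfl, fun i j _ _ _ => by omega, fun i j hi hj => by
    obtain rfl : i = 0 := by omega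
    obtain rfl : j = 0 := by omega
    simp [ad]⟩

lemma Emb.surj (h : Emb K u m g e) (hm : m = Fintype.card W) (v : W) : ∃ i, i < m ∧ e i = v := by
  have h1 : ((range m).image e).card = Fintype.card W := by
    rw [Finset.card_image_of_injOn (fun i hi j hj => h.inj i j (by simpa using hi)
      (by simpa using hj)), Finset.card_range, hm]
  have h2 := Finset.eq_univ_of_card _ h1
  have h3 : v ∈ (range m).image e := by rw [h2]; exact Finset.mem_univ v
  simpa using h3

/-- Neighbour sums in a coded graph. -/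
def av {F : Type} [AddCommMonoid F] (m g : ℕ) (w : ℕ → F) (i : ℕ) : F :=
  ∑ j ∈ range m, if ad g i j then w j else 0

omit [Fintype W] in
lemma Emb.av_eq (h : Emb K u m g e) (f : W → ℝ) {i : ℕ} (hi : i < m) :
    av m g (fun j => f (e j)) i = ∑ w ∈ (range m).image e, if K.Adj (e i) w then f w else 0 := by
  rw [Finset.sum_image (fun i hi j hj => h.inj i j (by simpa using hi) (by simpa using hj))]
  refine Finset.sum_congr rfl fun j hj => ?_
  simp only [h.adj i j hi (Finset.mem_range.mp hj)]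

lemma Emb.av_le (h : Emb K u m g e) {f : W → ℝ} (hf : ∀ v, 0 ≤ f v) {i : ℕ} (hi : i < m) :
    av m g (fun j => f (e j)) i ≤ nb K f (e i) := by
  rw [h.av_eq f hi]
  exact Finset.sum_le_sum_of_subset_of_nonneg (Finset.subset_univ _)
    fun w _ _ => by split_ifs; exacts [hf w, le_rfl]

lemma Emb.av_full (h : Emb K u m g e) (hm : m = Fintype.card W) (f : W → ℝ) {i : ℕ}
    (hi : i < m) : av m g (fun j => f (e j)) i = nb K f (e i) := by
  rw [h.av_eq f hi]
  refine Finset.sum_congr ?_ fun _ _ => rfl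
  ext v
  simpa using h.surj hm v

omit [Fintype W] in
lemma Emb.root (h : Emb K u m g e) {i : ℕ} (hi : i < m) : e i = u ↔ i = 0 :=
  ⟨fun a => h.inj i 0 hi h.pos (a.trans h.h0.symm), fun a => a ▸ h.h0⟩

end Emb

lemma av_symm (m g : ℕ) (f w : ℕ → ℝ) :
    ∑ i ∈ range m, f i * av m g w i = ∑ i ∈ range m, w i * av m g f i := by
  unfold av
  simp_rw [Finset.mul_sum]
  rw [Finset.sum_comm]
  refine Finset.sum_congr rfl fun i _ => Finset.sum_congr rfl fun j _ => ?_
  rw [ad_symm]
  split_ifs <;> ring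

lemma av_cast (m g : ℕ) (w : ℕ → ℤ) (i : ℕ) :
    ((av m g w i : ℤ) : ℝ) = av m g (fun j => (w j : ℝ)) i := by
  unfold av
  push_cast
  rfl

/-- One half of a certificate for a lower bound. -/
def subH (m g : ℕ) (Z : ℤ) (w : List ℤ) (o : ℤ) : Prop :=
  ∀ i, i < m → 0 < w.getD i 0 ∧
    Z * w.getD i 0 ≤ 100000 * (av m g (fun j => w.getD j 0) i + if i = 0 then o else 0)

/-- One half of a certificate for an upper bound. -/
def supH (m g : ℕ) (Z : ℤ) (w : List ℤ) (o : ℤ) : Prop :=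
  ∀ i, i < m → 0 < w.getD i 0 ∧
    100000 * (av m g (fun j => w.getD j 0) i - if i = 0 then o else 0) ≤ Z * w.getD i 0

instance (m g : ℕ) (Z : ℤ) (w : List ℤ) (o : ℤ) : Decidable (subH m g Z w o) := by
  unfold subH; infer_instance

instance (m g : ℕ) (Z : ℤ) (w : List ℤ) (o : ℤ) : Decidable (supH m g Z w o) := by
  unfold supH; infer_instance

section pairing

variable {W : Type} [Fintype W] {K : SimpleGraph W} {u : W} {m g : ℕ} {e : ℕ → W}
  {lam nu : ℝ} {x y : W → ℝ} {xo yo : ℝ}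

lemma sub_pair (hS : Side K u lam nu x y xo yo) (h : Emb K u m g e) {Z o : ℤ} {w : List ℤ}
    (hc : subH m g Z w o) : ∃ P : ℝ, 0 < P ∧
      100000 * ((w.getD 0 0 : ℤ) * xo - x u * o) ≤ (100000 * lam - Z) * P := by
  set w' : ℕ → ℝ := fun j => ((w.getD j 0 : ℤ) : ℝ) with hw'
  have hpos : ∀ i, i < m → 0 < w' i := fun i hi => by
    have := (hc i hi).1
    simp only [hw']; exact_mod_cast this
  refine ⟨∑ i ∈ range m, w' i * x (e i), Finset.sum_pos (fun i hi =>
    mul_pos (hpos i (Finset.mem_range.mp hi)) (hS.xpos _)) ⟨0, Finset.mem_range.mpr h.pos⟩, ?_⟩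
  have a1 : ∑ i ∈ range m, (w' i * av m g (fun j => x (e j)) i + if i = 0 then w' i * xo else 0)
      ≤ ∑ i ∈ range m, lam * (w' i * x (e i)) := by
    refine Finset.sum_le_sum fun i hi => ?_
    rw [Finset.mem_range] at hi
    have b1 := h.av_le (fun v => (hS.xpos v).le) hi
    have b2 := hS.xeq (e i)
    simp only [h.root hi] at b2
    have b3 := mul_le_mul_of_nonneg_left b1 (hpos i hi).le
    split_ifs at b2 ⊢ <;> linear_combination b3 + w' i * b2
  have a2 : ∑ i ∈ range m, (Z : ℝ) * (w' i * x (e i))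
      ≤ ∑ i ∈ range m, 100000 * (x (e i) * av m g w' i + if i = 0 then x (e i) * o else 0) := by
    refine Finset.sum_le_sum fun i hi => ?_
    rw [Finset.mem_range] at hi
    have b1 : (Z : ℝ) * w' i ≤ 100000 * (av m g w' i + if i = 0 then (o : ℝ) else 0) := by
      have := (hc i hi).2
      simp only [hw']
      rw [← av_cast]
      exact_mod_cast this
    have b3 := mul_le_mul_of_nonneg_left b1 (hS.xpos (e i)).le
    split_ifs at b3 ⊢ <;> linarith
  rw [Finset.sum_add_distrib, ← Finset.mul_sum, Finset.sum_ite_eq',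
    if_pos (Finset.mem_range.mpr h.pos)] at a1
  rw [← Finset.mul_sum, ← Finset.mul_sum, Finset.sum_add_distrib, Finset.sum_ite_eq',
    if_pos (Finset.mem_range.mpr h.pos), h.h0, av_symm] at a2
  show 100000 * (w' 0 * xo - x u * o) ≤ _
  linarith

lemma sup_pair (hS : Side K u lam nu x y xo yo) (h : Emb K u m g e) (hm : m = Fintype.card W)
    {mu : ℝ} (hmu : mu ≤ nu) {Z o : ℤ} {w : List ℤ} (hc : supH m g Z w o) : ∃ P : ℝ, 0 < P ∧
      (100000 * mu - Z) * P ≤ 100000 * ((w.getD 0 0 : ℤ) * yo + y u * o) := by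
  set w' : ℕ → ℝ := fun j => ((w.getD j 0 : ℤ) : ℝ) with hw'
  have hpos : ∀ i, i < m → 0 < w' i := fun i hi => by
    have := (hc i hi).1
    simp only [hw']; exact_mod_cast this
  refine ⟨∑ i ∈ range m, w' i * y (e i), ?_, ?_⟩
  · obtain ⟨v, hv⟩ := hS.yne
    obtain ⟨i, hi, rfl⟩ := h.surj hm v
    exact Finset.sum_pos' (fun i hi => mul_nonneg (hpos i (Finset.mem_range.mp hi)).le (hS.ynn _))
      ⟨i, Finset.mem_range.mpr hi, mul_pos (hpos i hi) hv⟩
  have a1 : ∑ i ∈ range m, mu * (w' i * y (e i)) ≤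
      ∑ i ∈ range m, (w' i * av m g (fun j => y (e j)) i + if i = 0 then w' i * yo else 0) := by
    refine Finset.sum_le_sum fun i hi => ?_
    rw [Finset.mem_range] at hi
    have b1 := h.av_full hm y hi
    have b2 := hS.yeq (e i)
    simp only [h.root hi] at b2
    have b3 := mul_le_mul_of_nonneg_right hmu (mul_nonneg (hpos i hi).le (hS.ynn (e i)))
    split_ifs at b2 ⊢ <;> linear_combination b3 - w' i * b2 - w' i * b1
  have a2 : ∑ i ∈ range m, 100000 * (y (e i) * av m g w' i - if i = 0 then y (e i) * o else 0)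
      ≤ ∑ i ∈ range m, (Z : ℝ) * (w' i * y (e i)) := by
    refine Finset.sum_le_sum fun i hi => ?_
    rw [Finset.mem_range] at hi
    have b1 : 100000 * (av m g w' i - if i = 0 then (o : ℝ) else 0) ≤ (Z : ℝ) * w' i := by
      have := (hc i hi).2
      simp only [hw']
      rw [← av_cast]
      exact_mod_cast this
    have b3 := mul_le_mul_of_nonneg_left b1 (hS.ynn (e i))
    split_ifs at b3 ⊢ <;> linarith
  rw [Finset.sum_add_distrib, ← Finset.mul_sum, Finset.sum_ite_eq',
    if_pos (Finset.mem_range.mpr h.pos)] at a1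
  rw [← Finset.mul_sum, ← Finset.mul_sum, Finset.sum_sub_distrib, Finset.sum_ite_eq',
    if_pos (Finset.mem_range.mpr h.pos), h.h0, av_symm] at a2
  show _ ≤ 100000 * (w' 0 * yo + y u * o)
  linarith

lemma mu_le_one (hS : Side K u lam nu x y xo yo) (h : Emb K u m g e) (hm : m = Fintype.card W)
    {mu : ℝ} (hmu : mu ≤ nu) {Z : ℤ} {w : List ℤ} (hc : supH m g Z w 0) : 100000 * mu ≤ Z := by
  obtain ⟨P, hP, h1⟩ := sup_pair hS h hm hmu hc
  have h2 : (0 : ℝ) < (w.getD 0 0 : ℤ) := by exact_mod_cast (hc 0 h.pos).1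
  have h3 := mul_nonneg h2.le (neg_nonneg.mpr hS.yonp)
  by_contra hcon
  have := mul_pos (sub_pos.mpr (not_le.mp hcon)) hP
  push_cast at h1
  linarith

/-- The code `g` is that of the kite with a clique of size `k`. -/
def isK (m g k : ℕ) : Prop :=
  0 < k ∧ k ≤ m ∧ ∀ i, i < m → ∀ j, j < m →
    (ad g i j = true ↔ (i + 1 = j ∨ j + 1 = i ∨ (i ≠ j ∧ m - k ≤ i ∧ m - k ≤ j)))

instance (m g k : ℕ) : Decidable (isK m g k) := by unfold isK; infer_instance

lemma Emb.kite (hS : Side K u lam nu x y xo yo) (h : Emb K u m g e) (hm : m = Fintype.card W)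
    {mu : ℝ} (hmu : mu ≤ nu) {k : ℕ} (hk : isK m g k) :
    IsKite (m - k) k lam mu (x u) (y u) xo yo := by
  obtain ⟨k0, k1, k2⟩ := hk
  have hP : Pend K u (m - k) e (Finset.univ.filter fun v => ∀ j, j < m - k → v ≠ e j) := by
    refine ⟨h.h0, fun i j hi hj => h.inj i j (by omega) (by omega), fun v => by simp,
      fun j hj v => ?_⟩
    obtain ⟨i, hi, rfl⟩ := h.surj hm v
    rw [h.adj j i (by omega) hi, k2 j (by omega) i hi]
    constructor
    · rintro (a | a | a)
      · left; rw [a]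
      · right; exact ⟨by omega, by rw [← a]; rfl⟩
      · omega
    · rintro (a | ⟨a, b⟩)
      · left; exact (h.inj _ _ hi (by omega) a).symm
      · have := h.inj _ _ hi (by omega) b
        omega
  have hc := hP.card
  have := kite_of_complete hS hP hmu (fun v hv w hw hne => by
    obtain ⟨i, hi, rfl⟩ := h.surj hm v
    obtain ⟨j, hj, rfl⟩ := h.surj hm w
    rw [hP.mem] at hv hw
    rw [h.adj i j hi hj, k2 i hi j hj]
    refine Or.inr (Or.inr ⟨fun a => hne (by rw [a]), ?_, ?_⟩)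
    · by_contra hc; exact hv i (by omega) rfl
    · by_contra hc; exact hw j (by omega) rfl)
  rwa [show (Finset.univ.filter fun v => ∀ j, j < m - k → v ≠ e j).card = k by omega] at this

end pairing

section two

variable {W1 W2 : Type} [Fintype W1] [Fintype W2] {K1 : SimpleGraph W1} {K2 : SimpleGraph W2}
  {u1 : W1} {u2 : W2} {lam nu1 nu2 : ℝ} {x1 y1 : W1 → ℝ} {x2 y2 : W2 → ℝ}
  {m1 g1 m2 g2 : ℕ} {e1 : ℕ → W1} {e2 : ℕ → W2}

lemma lam_ge (h1 : Side K1 u1 lam nu1 x1 y1 (x2 u2) (-y2 u2))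
    (h2 : Side K2 u2 lam nu2 x2 y2 (x1 u1) (-y1 u1)) (E1 : Emb K1 u1 m1 g1 e1)
    (E2 : Emb K2 u2 m2 g2 e2) {Z : ℤ} {w1 w2 : List ℤ} (c1 : subH m1 g1 Z w1 (w2.getD 0 0))
    (c2 : subH m2 g2 Z w2 (w1.getD 0 0)) : (Z : ℝ) ≤ 100000 * lam := by
  obtain ⟨P1, p1, a1⟩ := sub_pair h1 E1 c1
  obtain ⟨P2, p2, a2⟩ := sub_pair h2 E2 c2
  by_contra hc
  have := mul_pos (sub_pos.mpr (not_le.mp hc)) (add_pos p1 p2)
  linarith

lemma mu_le (h1 : Side K1 u1 lam nu1 x1 y1 (x2 u2) (-y2 u2))
    (h2 : Side K2 u2 lam nu2 x2 y2 (x1 u1) (-y1 u1)) (E1 : Emb K1 u1 m1 g1 e1)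
    (E2 : Emb K2 u2 m2 g2 e2) (hm1 : m1 = Fintype.card W1) (hm2 : m2 = Fintype.card W2) {mu : ℝ}
    (hn1 : mu ≤ nu1) (hn2 : mu ≤ nu2) {Z : ℤ} {w1 w2 : List ℤ}
    (c1 : supH m1 g1 Z w1 (w2.getD 0 0)) (c2 : supH m2 g2 Z w2 (w1.getD 0 0)) :
    100000 * mu ≤ Z := by
  obtain ⟨P1, p1, a1⟩ := sup_pair h1 E1 hm1 hn1 c1
  obtain ⟨P2, p2, a2⟩ := sup_pair h2 E2 hm2 hn2 c2
  by_contra hc
  have := mul_pos (sub_pos.mpr (not_le.mp hc)) (add_pos p1 p2)
  linarith

end two

end Pool.Agent.Lib.MP_5ca2c7_co
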